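import Pool.Agent.H451.JB.Stm
import Pool.Agent.H451.JLM.BOX

/-! JB-BOX: the count in a box (adapted from `Pool.Agent.H451.JLM.t_BOX`). -/

set_option autoImplicit false

open scoped Classical

namespace Pool.Agent.H451.JB

open Finset
open Pool.Agent.Y692.QS (Ei)
open Pool.Agent.Y715.T.Rec (cs)
open Pool.Agent.Y715.T.RecG (Pq)
open Pool.Agent.Y703.XK (Nd HB prs S_EQ c9)
open Pool.Agent.Y688.XK (lb cs_symm ext_sum sum_un HB_sub ez0 ez0_coe)
open Pool.Agent.H451.JL (F sw nW GW)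
open Pool.Agent.H451.JLM (NP nAw wt box_sum_sw nW_eqM LNM)

namespace BOX

section one
variable {ι : Type} [Fintype ι] [LinearOrder ι] {S₀ : Finset Ei} {p : ι → Ei} {ω ω₀ : Ei → F}
  {w' : ι → F}

/-- **the numbers of solutions agree** -/
theorem nW_eqB (hp : Function.Injective p) (hpr : ∀ i, Pq (p i)) (hS₀ : ∀ u ∈ S₀, Pq u)
    (hd : ∀ i, p i ∉ S₀) (h0 : ∀ u ∈ S₀, ω u = ω₀ u) (h1 : ∀ i, ω (p i) = w' i) :
    nW ω (S₀ ∪ univ.image p) = nAw (fun u v : sw ω₀ S₀ => ω₀ u * ω₀ v * cs u v)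
      (fun (u : sw ω₀ S₀) l => ω₀ u * w' l * cs u (p l)) w'
      (fun e : prs ι => cs (p e.1.1) (p e.1.2)) := by
  rw [nW_eqM hp hpr hS₀ hd h1]
  have hsw : sw ω S₀ = sw ω₀ S₀ := by
    unfold sw
    refine Finset.filter_congr fun u hu => ?_
    rw [h0 u hu]
  have hm : ∀ u : sw ω S₀, ω u = ω₀ u := fun u => h0 u (Finset.mem_filter.1 u.2).1
  have e1 : (fun u v : sw ω S₀ => ω u * ω v * cs u v) =
      fun u v : sw ω S₀ => ω₀ u * ω₀ v * cs u v := by
    funext u v
    rw [hm, hm]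
  have e2 : (fun (u : sw ω S₀) l => ω u * w' l * cs u (p l)) =
      fun (u : sw ω S₀) l => ω₀ u * w' l * cs u (p l) := by
    funext u l
    rw [hm]
  rw [e1, e2, hsw]

end one

section two
variable {ι : Type} [Fintype ι] [LinearOrder ι] {S₀ : Finset Ei}

omit [LinearOrder ι] in
theorem ndp_iff {M : ℕ} {V : ℕ} {ν : ι → Fin M} {p : ι → Ei} :
    NdP V ν S₀ p ↔ LNM V ν S₀ (fun i => lb S₀ (p i)) := by
  unfold NdP LNM
  refine forall_congr' fun m => ?_
  refine and_congr_right fun _ => ?_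
  constructor
  · intro h w hw
    obtain ⟨u, hu⟩ := hw
    obtain ⟨i, hi, hx2⟩ := h (ez0 w) ⟨u, u.2, by rw [ez0_coe]; exact hu⟩
    refine ⟨i, hi, ?_⟩
    rw [← Finset.sum_coe_sort S₀] at hx2
    intro h0
    apply hx2
    rw [← h0]
    refine Finset.sum_congr rfl fun u _ => ?_
    rw [ez0_coe]
    rfl
  · intro h w hw
    obtain ⟨u, hu0, hu⟩ := hw
    obtain ⟨i, hi0, hi⟩ := h (fun u => w u) ⟨⟨u, hu0⟩, hu⟩
    refine ⟨i, hi0, ?_⟩
    rw [← Finset.sum_coe_sort S₀]
    exact hi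

end two

end BOX

open BOX in
/-- **The count in a box.** -/
theorem t_BOX : S_EQ → Pool.Agent.H451.JLM.S_SYS → S_BOX := by
  intro hEQ hSYS k M W hNP ε hε
  obtain ⟨N, hN⟩ := hSYS k M W hNP ε hε
  obtain ⟨V, hV⟩ : ∃ V : ℕ, V = max N 1 := ⟨_, rfl⟩
  refine ⟨V, by rw [hV]; exact le_max_right _ _, ?_⟩
  have hNV : N ≤ V := by rw [hV]; exact le_max_left _ _
  intro ι _ _ C ν X κ S₀ w₀ hκ hCX hHB hS₀ hC hdis
  obtain ⟨R, hR⟩ : ∃ R : ℝ, R = 3 ^ (prs ι).card * (κ * ∏ j, (X j : ℝ)) := ⟨_, rfl⟩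
  have hR0 : 0 ≤ R := by
    rw [hR]
    exact mul_nonneg (by positivity)
      (mul_nonneg hκ (Finset.prod_nonneg fun j _ => by positivity))
  -- facts on tuples
  have hinj : ∀ p ∈ Fintype.piFinset C, Function.Injective p := by
    intro p hp i j hij
    rw [Fintype.mem_piFinset] at hp
    by_contra hne
    have h1 := Finset.disjoint_left.1 (hdis i j hne) (hp i)
    rw [hij] at h1
    exact h1 (hp j)
  have hd : ∀ p ∈ Fintype.piFinset C, ∀ i, p i ∉ S₀ := by
    intro p hp i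
    rw [Fintype.mem_piFinset] at hp
    exact (hC i _ (hp i)).2
  have hpr : ∀ p ∈ Fintype.piFinset C, ∀ i, Pq (p i) := by
    intro p hp i
    rw [Fintype.mem_piFinset] at hp
    exact (hC i _ (hp i)).1
  have hw0 : ∀ (p : ι → Ei) (j : Fin k), ∀ u ∈ S₀, wB W ν w₀ S₀ p j u = w₀ j u := by
    intro p j u hu
    unfold wB
    rw [if_pos hu]
  have hw1 : ∀ p ∈ Fintype.piFinset C, ∀ j i, wB W ν w₀ S₀ p j (p i) = wt W ν j i := by
    intro p hp j i
    unfold wB wt
    rw [if_neg (hd p hp i), Finset.sum_eq_single i, if_pos rfl]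
    · intro l _ hl
      rw [if_neg]
      exact fun h => hl (hinj p hp h)
    · intro h
      exact absurd (Finset.mem_univ _) h
  -- the part with given labels
  have h1 : ∀ β : ι → S₀ → F, LNM V ν S₀ β →
      |(((Fintype.piFinset C).filter fun p => (fun i => lb S₀ (p i)) = β ∧
          GW (wB W ν w₀ S₀ p) (S₀ ∪ univ.image p)).card : ℝ) -
        c9 ^ k * (((Fintype.piFinset C).filter fun p => (fun i => lb S₀ (p i)) = β).card : ℝ)| ≤
      ε * (((Fintype.piFinset C).filter fun p => (fun i => lb S₀ (p i)) = β).card : ℝ) + R := by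
    intro β hβ
    obtain ⟨C', hC'⟩ : ∃ C' : ι → Finset Ei, C' = fun i => (C i).filter fun q => lb S₀ q = β i :=
      ⟨_, rfl⟩
    have hpi : (Fintype.piFinset C).filter (fun p => (fun i => lb S₀ (p i)) = β) =
        Fintype.piFinset C' := by
      ext p
      simp only [Finset.mem_filter, Fintype.mem_piFinset, hC']
      constructor
      · rintro ⟨h2, h3⟩ i
        exact ⟨h2 i, congrFun h3 i⟩
      · intro h2
        exact ⟨fun i => (h2 i).1, funext fun i => (h2 i).2⟩
    have hm1 : ∀ {j : Fin k} (u : sw (w₀ j) S₀), (u : Ei) ∈ S₀ := fun u =>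
      (Finset.mem_filter.1 u.2).1
    have h2 := hN (fun j => ↥(sw (w₀ j) S₀)) ι ν
      (fun j u v => w₀ j u * w₀ j v * cs u v)
      (fun j u l => w₀ j u * wt W ν j l * β l ⟨u, hm1 u⟩)
      S₀.card
      (fun j u v => by
        rw [cs_symm (hS₀ u (hm1 u)) (hS₀ v (hm1 v)), mul_comm (w₀ j u)])
      (fun j u l hl => by
        have e : wt W ν j l = 0 := hl
        rw [e, mul_zero, zero_mul])
      (fun j => by
        rw [Fintype.card_coe]
        exact Finset.card_le_card (Finset.filter_subset _ _))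
      (by
        rintro j v ⟨u, hu⟩
        obtain ⟨m, hm⟩ := hNP.1 j
        obtain ⟨l, hl, hl2⟩ := (hβ m).2
          (fun x => if h : (x : Ei) ∈ sw (w₀ j) S₀ then w₀ j x * v ⟨x, h⟩ else 0)
          ⟨⟨u, hm1 u⟩, by
            rw [dif_pos u.2]
            exact mul_ne_zero (Finset.mem_filter.1 u.2).2 hu⟩
        refine ⟨l, fun h0 => hl2 ?_⟩
        have hwl : wt W ν j l ≠ 0 := by
          unfold wt
          rw [hl]
          exact hm
        have h3 : ∑ u : sw (w₀ j) S₀, v u * (w₀ j u * wt W ν j l * β l ⟨u, hm1 u⟩) =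
            wt W ν j l * ∑ x : S₀, (if h : (x : Ei) ∈ sw (w₀ j) S₀ then
              w₀ j x * v ⟨x, h⟩ else 0) * β l x := by
          have h4 := box_sum_sw (ω := w₀ j) (S := S₀)
            (fun n => if h : n ∈ sw (w₀ j) S₀ then v ⟨n, h⟩ *
              β l ⟨n, (Finset.mem_filter.1 h).1⟩ else 0)
          rw [← Finset.sum_coe_sort S₀] at h4
          have h5 : ∑ x : S₀, (if h : (x : Ei) ∈ sw (w₀ j) S₀ then
              w₀ j x * v ⟨x, h⟩ else 0) * β l x =
              ∑ x : S₀, w₀ j x * (if h : (x : Ei) ∈ sw (w₀ j) S₀ then v ⟨x, h⟩ *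
              β l ⟨x, (Finset.mem_filter.1 h).1⟩ else 0) := by
            refine Finset.sum_congr rfl fun x _ => ?_
            by_cases h : (x : Ei) ∈ sw (w₀ j) S₀
            · rw [dif_pos h, dif_pos h]
              ring
            · rw [dif_neg h, dif_neg h, mul_zero, zero_mul]
          rw [h5, ← h4, Finset.mul_sum]
          refine Finset.sum_congr rfl fun x _ => ?_
          rw [dif_pos x.2]
          ring
        rw [h3] at h0
        exact (mul_eq_zero.1 h0).resolve_left hwl)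
      (fun m => (Nat.mul_le_mul_right _ hNV).trans (hβ m).1)
    obtain ⟨Q, hQ⟩ : ∃ Q : (prs ι → F) → Prop, Q = fun α => ∀ j : Fin k,
        nAw (fun u v : sw (w₀ j) S₀ => w₀ j u * w₀ j v * cs u v)
          (fun (u : sw (w₀ j) S₀) l => w₀ j u * wt W ν j l * β l ⟨u, hm1 u⟩)
          (wt W ν j) α = 3 := ⟨_, rfl⟩
    have h3 := hEQ ι C' X κ hκ
      (fun i => (Finset.card_le_card (by rw [hC']; exact Finset.filter_subset _ _)).trans (hCX i))
      (by rw [hC']; exact HB_sub hHB fun i q => lb S₀ q = β i) Q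
    have h4 : ((Fintype.piFinset C).filter fun p => (fun i => lb S₀ (p i)) = β ∧
        GW (wB W ν w₀ S₀ p) (S₀ ∪ univ.image p)) = ((Fintype.piFinset C').filter fun p =>
          Q fun e => cs (p e.1.1) (p e.1.2)) := by
      rw [← hpi, Finset.filter_filter]
      refine Finset.filter_congr fun p hp => ?_
      refine and_congr_right fun hl => ?_
      unfold GW
      subst hl
      rw [hQ]
      refine forall_congr' fun j => ?_
      rw [nW_eqB (hinj p hp) (hpr p hp) hS₀ (hd p hp) (hw0 p j) (hw1 p hp j)]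
      exact Iff.rfl
    have h5 : (((Fintype.piFinset C').card : ℕ) : ℝ) = ∏ j, ((C' j).card : ℝ) := by
      rw [Fintype.card_piFinset]
      push_cast
      rfl
    rw [h4, hpi, h5]
    rw [← hR] at h3
    obtain ⟨n, hn⟩ : ∃ n : ℝ, n = (((Fintype.piFinset C').filter fun p =>
          Q fun e => cs (p e.1.1) (p e.1.2)).card : ℝ) := ⟨_, rfl⟩
    obtain ⟨q, hq⟩ : ∃ q : ℝ, q = ((univ.filter Q).card : ℝ) / 3 ^ (prs ι).card := ⟨_, rfl⟩
    obtain ⟨P, hP⟩ : ∃ P : ℝ, P = ∏ j, ((C' j).card : ℝ) := ⟨_, rfl⟩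
    have hP0 : 0 ≤ P := by
      rw [hP]
      exact Finset.prod_nonneg fun j _ => by positivity
    have h2' : |q - c9 ^ k| ≤ ε := by
      have e : (univ.filter Q) = (univ.filter fun α : prs ι → F => ∀ j : Fin k,
          nAw (fun u v : sw (w₀ j) S₀ => w₀ j u * w₀ j v * cs u v)
          (fun (u : sw (w₀ j) S₀) l => w₀ j u * wt W ν j l * β l ⟨u, hm1 u⟩)
          (wt W ν j) α = 3) := by
        ext α
        rw [Finset.mem_filter, Finset.mem_filter, hQ]
      rw [hq, e]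
      exact h2
    rw [← hn, ← hq, ← hP] at h3
    rw [← hn, ← hP]
    have h6 : |n - c9 ^ k * P| ≤ |n - q * P| + |q - c9 ^ k| * P := by
      have h7 : n - c9 ^ k * P = (n - q * P) + (q - c9 ^ k) * P := by ring
      have h8 : |(q - c9 ^ k) * P| = |q - c9 ^ k| * P := by rw [abs_mul, abs_of_nonneg hP0]
      rw [h7, ← h8]
      exact abs_add_le _ _
    have h7 : |q - c9 ^ k| * P ≤ ε * P := mul_le_mul_of_nonneg_right h2' hP0
    linarith
  -- sum over the labels
  obtain ⟨LL, hLL⟩ : ∃ LL : Finset (ι → S₀ → F), LL = univ.filter (fun β => LNM V ν S₀ β) :=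
    ⟨_, rfl⟩
  have hfib : ∀ T : (ι → Ei) → Prop,
      (((Fintype.piFinset C).filter fun p => NdP V ν S₀ p ∧ T p).card : ℝ) =
      ∑ β ∈ LL, (((Fintype.piFinset C).filter fun p =>
        (fun i => lb S₀ (p i)) = β ∧ T p).card : ℝ) := by
    intro T
    rw [Finset.card_eq_sum_card_fiberwise (f := fun (p : ι → Ei) (i : ι) => lb S₀ (p i))
      (t := LL) (by
        intro p hp
        rw [Finset.mem_coe, Finset.mem_filter] at hp
        rw [Finset.mem_coe, hLL, Finset.mem_filter]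
        exact ⟨Finset.mem_univ _, ndp_iff.1 hp.2.1⟩)]
    push_cast
    refine Finset.sum_congr rfl fun β hβ => ?_
    rw [hLL, Finset.mem_filter] at hβ
    congr 2
    ext p
    simp only [Finset.mem_filter]
    constructor
    · rintro ⟨⟨h3, h4, h4'⟩, h5⟩
      exact ⟨h3, h5, h4'⟩
    · rintro ⟨h3, h4, h5⟩
      refine ⟨⟨h3, ?_, h5⟩, h4⟩
      rw [ndp_iff, h4]
      exact hβ.2
  have hf1 := hfib fun p => GW (wB W ν w₀ S₀ p) (S₀ ∪ univ.image p)
  have hf2 := hfib fun _ => True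
  simp only [and_true] at hf2
  rw [hf1, hf2, Finset.mul_sum, ← Finset.sum_sub_distrib]
  refine (Finset.abs_sum_le_sum_abs _ _).trans ?_
  refine (Finset.sum_le_sum fun β hβ => h1 β (by
    rw [hLL] at hβ
    exact (Finset.mem_filter.1 hβ).2)).trans ?_
  rw [Finset.sum_add_distrib, ← Finset.mul_sum, Finset.sum_const, nsmul_eq_mul]
  have h5 : ((LL.card : ℕ) : ℝ) ≤ 3 ^ (S₀.card * Fintype.card ι) := by
    have h6 : LL.card ≤ Fintype.card (ι → S₀ → F) :=
      Finset.card_le_univ _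
    rw [Fintype.card_fun, Fintype.card_fun, ZMod.card, Fintype.card_coe, ← pow_mul] at h6
    exact_mod_cast h6
  have h6 := mul_le_mul_of_nonneg_right h5 hR0
  rw [pow_add, mul_assoc, ← hR]
  linarith

end Pool.Agent.H451.JB
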