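import Pool.Agent.H451.JB.Stm
import Pool.Graph.R_seed8.Y474.XK.CNT

/-! JB-COL (helper721): few pairs of sets have two large primes in the same block. Adaptation of
`Pool.Agent.Y474.XK.coll_count`. -/

set_option autoImplicit false
set_option linter.unusedVariables false

open scoped Classical

namespace Pool.Agent.H451.JB

open Finset Filter
open Pool.Agent.Y692.QS (Ei)
open Pool.Agent.Y715.T.RecG (Pq)
open Pool.Agent.Y699.E
open Pool.Agent.Y703.XK (SS la bl)
open Pool.Agent.Y703.CX (jj eL zz HH ev_eL HH_ge HH_pos X_pos one_add_log zz_ge)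
open Pool.Agent.Y474.XK (Pr SS_pr mem_QB_of card_le_real lg_le card_int sum_sq exp_jj_le lt_exp_jj
  one_le_nrm)

namespace COL

/-- the sets which contain a given prime -/
theorem one_count {X : ℕ} {π : Ei} (hπ : Pq π) :
    (((SS X).filter fun S => π ∈ S).card : ℝ) ≤ 16 * (X / (nrm π : ℝ)) := by
  have h4 : (0 : ℝ) < nrm π := by exact_mod_cast one_le_nrm hπ
  have h1 : (((SS X).filter fun S => π ∈ S).image fun S => S.erase π).card =
      ((SS X).filter fun S => π ∈ S).card := by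
    apply card_image_of_injOn
    intro S hS T hT hST
    rw [mem_coe, mem_filter] at hS hT
    have hST' : S.erase π = T.erase π := hST
    rw [← insert_erase hS.2, ← insert_erase hT.2, hST']
  rw [← h1]
  apply card_le_real _ (by positivity)
  intro T hT
  rw [mem_image] at hT
  obtain ⟨S, hS, rfl⟩ := hT
  rw [mem_filter] at hS
  obtain ⟨hP, hSX⟩ := SS_pr hS.1
  refine ⟨fun σ hσ => hP σ (mem_of_mem_erase hσ), ?_⟩
  rw [le_div_iff₀ (by positivity)]
  have h2 : nrm π * ∏ σ ∈ S.erase π, nrm σ = ∏ σ ∈ S, nrm σ := mul_prod_erase S nrm hS.2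
  have h3 := (Nat.cast_le (α := ℝ)).2 (h2.le.trans hSX)
  rw [Nat.cast_mul] at h3
  linarith

/-- two norms in the same block -/
theorem in_block {H : ℕ} (hH : 1 ≤ H) (p q : ℕ) (hp : 1 ≤ p) (hpq : p ≤ q) (hj : jj H p = jj H q) :
    q ∈ Icc p (p + 2 * p / H) := by
  have hH1 : (1 : ℝ) ≤ H := by exact_mod_cast hH
  have hH' : (0 : ℝ) < H := by linarith
  have h1 := exp_jj_le hH hp
  have h2 := lt_exp_jj hH (hp.trans hpq)
  rw [← hj, add_div, Real.exp_add] at h2
  have h3 : (q : ℝ) < p * Real.exp (1 / H) :=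
    h2.trans_le (mul_le_mul_of_nonneg_right h1 (Real.exp_pos _).le)
  have h5 : Real.exp (1 / H) ≤ 1 + 2 / H := by
    have h6 := Real.abs_exp_sub_one_le (x := 1 / H) (by
      rw [abs_of_pos (by positivity), div_le_one (by linarith)]
      exact hH1)
    rw [abs_of_pos (show (0 : ℝ) < 1 / H by positivity)] at h6
    have h7 := (le_abs_self _).trans h6
    have h8 : 2 * (1 / (H : ℝ)) = 2 / H := by ring
    linarith
  have hp0 : (0 : ℝ) ≤ p := Nat.cast_nonneg _
  have h6 : (q : ℝ) ≤ p + 2 * p / H := by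
    have := mul_le_mul_of_nonneg_left h5 hp0
    have e : (p : ℝ) * (1 + 2 / H) = p + 2 * p / H := by ring
    linarith
  rw [mem_Icc]
  refine ⟨hpq, ?_⟩
  have h7 : q - p ≤ 2 * p / H := by
    rw [Nat.le_div_iff_mul_le (by omega)]
    have h8 : ((q : ℝ) - p) * H ≤ 2 * p := by
      rw [← le_div_iff₀ hH']
      linarith
    have h9 : (((q - p) * H : ℕ) : ℝ) ≤ ((2 * p : ℕ) : ℝ) := by
      push_cast [Nat.cast_sub hpq]
      exact h8
    exact_mod_cast h9
  omega

/-- the pairs of sets with two large primes in the same block -/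
theorem coll_pairs {X z H : ℕ} (hz : 1 ≤ z) (hH : 1 ≤ H) :
    (((SS X ×ˢ SS X).filter fun p => ∃ π ∈ la z p.1, ∃ π' ∈ la z p.2, bl H π = bl H π').card : ℝ) ≤
      2048 * (X : ℝ) ^ 2 / H * (32 * lg X) + 1024 * (X : ℝ) ^ 2 * (2 / z) := by
  have hH1 : (1 : ℝ) ≤ H := by exact_mod_cast hH
  have hH' : (0 : ℝ) < H := by linarith
  have hX' : (0 : ℝ) ≤ X := Nat.cast_nonneg _
  set A : Finset Ei := (QB X).filter (fun π => z < nrm π) with hA
  set B : Ei → Finset Ei := fun π => (QB X).filter fun ρ =>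
    nrm ρ ∈ Icc (nrm π) (nrm π + 2 * nrm π / H) with hB
  set D : Ei → Finset (Finset Ei) := fun π => (SS X).filter fun S => π ∈ S with hD
  have h1 : ((SS X ×ˢ SS X).filter fun p => ∃ π ∈ la z p.1, ∃ π' ∈ la z p.2, bl H π = bl H π') ⊆
      A.biUnion fun π => (B π).biUnion fun ρ => (D π ×ˢ D ρ) ∪ (D ρ ×ˢ D π) := by
    rintro ⟨S, T⟩ hST
    rw [mem_filter, mem_product] at hST
    obtain ⟨⟨hS1, hT1⟩, π, hπ, ρ, hρ, hj⟩ := hST
    dsimp only at hS1 hT1 hπ hρ
    obtain ⟨hPS, hSX⟩ := SS_pr hS1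
    obtain ⟨hPT, hTX⟩ := SS_pr hT1
    unfold la at hπ hρ
    rw [mem_filter] at hπ hρ
    have hj' : jj H (nrm π) = jj H (nrm ρ) := hj
    have hπQ := mem_QB_of hPS hSX hπ.1
    have hρQ := mem_QB_of hPT hTX hρ.1
    have hDπ : S ∈ D π := mem_filter.2 ⟨hS1, hπ.1⟩
    have hDρ : T ∈ D ρ := mem_filter.2 ⟨hT1, hρ.1⟩
    rcases le_total (nrm π) (nrm ρ) with h | h
    · rw [mem_biUnion]
      refine ⟨π, mem_filter.2 ⟨hπQ, not_le.1 hπ.2⟩, ?_⟩
      rw [mem_biUnion]
      refine ⟨ρ, mem_filter.2 ⟨hρQ, in_block hH _ _ (one_le_nrm (hPS π hπ.1)) h hj'⟩, ?_⟩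
      exact mem_union_left _ (mem_product.2 ⟨hDπ, hDρ⟩)
    · rw [mem_biUnion]
      refine ⟨ρ, mem_filter.2 ⟨hρQ, not_le.1 hρ.2⟩, ?_⟩
      rw [mem_biUnion]
      refine ⟨π, mem_filter.2 ⟨hπQ, in_block hH _ _ (one_le_nrm (hPT ρ hρ.1)) h hj'.symm⟩, ?_⟩
      exact mem_union_right _ (mem_product.2 ⟨hDπ, hDρ⟩)
  have h2 : (((SS X ×ˢ SS X).filter fun p => ∃ π ∈ la z p.1, ∃ π' ∈ la z p.2,
      bl H π = bl H π').card : ℝ) ≤
      ∑ π ∈ A, ∑ ρ ∈ B π, (((D π ×ˢ D ρ) ∪ (D ρ ×ˢ D π)).card : ℝ) := by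
    have h3 := (card_le_card h1).trans (card_biUnion_le.trans
      (sum_le_sum fun p _ => card_biUnion_le))
    exact_mod_cast h3
  refine h2.trans ?_
  have h3 : ∀ π ∈ A, ∑ ρ ∈ B π, (((D π ×ˢ D ρ) ∪ (D ρ ×ˢ D π)).card : ℝ) ≤
      2048 * (X : ℝ) ^ 2 / H * (1 / nrm π) + 1024 * (X : ℝ) ^ 2 * (1 / (nrm π : ℝ) ^ 2) := by
    intro π hπ
    rw [hA, mem_filter, mem_QB] at hπ
    have hp0 : (0 : ℝ) < nrm π := by exact_mod_cast one_le_nrm hπ.1.2
    have h4 : ∀ ρ ∈ B π, (((D π ×ˢ D ρ) ∪ (D ρ ×ˢ D π)).card : ℝ) ≤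
        512 * (X : ℝ) ^ 2 / (nrm π : ℝ) ^ 2 := by
      intro ρ hρ
      have hρ' := mem_filter.1 hρ
      obtain ⟨h6, h8⟩ := hρ'
      rw [mem_QB] at h6
      rw [mem_Icc] at h8
      have h5 : (nrm π : ℝ) ≤ nrm ρ := by exact_mod_cast h8.1
      have g1 : ((D π).card : ℝ) ≤ 16 * (X / (nrm π : ℝ)) := one_count hπ.1.2
      have g2 : ((D ρ).card : ℝ) ≤ 16 * (X / (nrm π : ℝ)) := by
        refine (one_count h6.2).trans ?_
        gcongr
      have g3 : ((D π).card : ℝ) * (D ρ).card ≤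
          (16 * (X / (nrm π : ℝ))) * (16 * (X / (nrm π : ℝ))) :=
        mul_le_mul g1 g2 (Nat.cast_nonneg _) (by positivity)
      have g4 : (((D π ×ˢ D ρ) ∪ (D ρ ×ˢ D π)).card : ℝ) ≤
          (D π).card * (D ρ).card + (D ρ).card * (D π).card := by
        have := card_union_le (D π ×ˢ D ρ) (D ρ ×ˢ D π)
        rw [card_product, card_product] at this
        exact_mod_cast this
      have g5 : (512 : ℝ) * (X : ℝ) ^ 2 / (nrm π : ℝ) ^ 2 =
          2 * ((16 * (X / (nrm π : ℝ))) * (16 * (X / (nrm π : ℝ)))) := by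
        field_simp
        ring
      rw [g5]
      linarith
    refine (sum_le_sum h4).trans ?_
    rw [sum_const, nsmul_eq_mul]
    have h5 : ((B π).card : ℝ) ≤ 2 * (2 * nrm π / H + 1) := by
      have h6 : (B π).card ≤ 2 * (Icc (nrm π) (nrm π + 2 * nrm π / H)).card := by
        apply card_int
        · intro ρ hρ
          exact (mem_QB.1 (mem_filter.1 hρ).1).2
        · intro ρ hρ
          exact (mem_filter.1 hρ).2
      rw [Nat.card_Icc] at h6
      have h7 : nrm π + 2 * nrm π / H + 1 - nrm π = 2 * nrm π / H + 1 := by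
        rw [Nat.add_assoc, Nat.add_sub_cancel_left]
      rw [h7] at h6
      have h8 : ((2 * nrm π / H : ℕ) : ℝ) ≤ 2 * nrm π / H := by
        refine Nat.cast_div_le.trans (le_of_eq ?_)
        push_cast
        ring
      have h9 : ((B π).card : ℝ) ≤ 2 * (((2 * nrm π / H : ℕ) : ℝ) + 1) := by
        have := (Nat.cast_le (α := ℝ)).2 h6
        rw [Nat.cast_mul, Nat.cast_add, Nat.cast_one] at this
        exact_mod_cast this
      linarith
    calc ((B π).card : ℝ) * (512 * (X : ℝ) ^ 2 / (nrm π : ℝ) ^ 2) ≤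
          2 * (2 * nrm π / H + 1) * (512 * (X : ℝ) ^ 2 / (nrm π : ℝ) ^ 2) :=
          mul_le_mul_of_nonneg_right h5 (by positivity)
      _ = _ := by
          field_simp
          ring
  refine (sum_le_sum h3).trans ?_
  rw [sum_add_distrib, ← mul_sum, ← mul_sum]
  have h4 : ∑ π ∈ A, (1 : ℝ) / nrm π ≤ 32 * lg X := by
    refine le_trans ?_ (hsum X)
    refine sum_le_sum_of_subset_of_nonneg ?_ fun _ _ _ => by positivity
    intro π hπ
    rw [hA, mem_filter, mem_QB] at hπ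
    exact mem_PB.2 ⟨hπ.1.1, hπ.1.2.three⟩
  have h5 := sum_sq (X := X) hz
  have h6 := mul_le_mul_of_nonneg_left h4 (show (0 : ℝ) ≤ 2048 * (X : ℝ) ^ 2 / H by positivity)
  have h7 := mul_le_mul_of_nonneg_left h5 (show (0 : ℝ) ≤ 1024 * (X : ℝ) ^ 2 by positivity)
  linarith

end COL

/-- JB-COL -/
theorem t_COL : S_COL := by
  intro ε hε
  obtain ⟨X₀, hX₀⟩ := eventually_atTop.1 (ev_eL (max 1 (Real.log (400000 / ε))))
  refine ⟨X₀, fun X hX => ?_⟩
  have hl := hX₀ X hX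
  have hl1 : 1 ≤ eL X := (le_max_left _ _).trans hl
  have hl2 : Real.log (400000 / ε) ≤ eL X := (le_max_right _ _).trans hl
  have h0 : 0 < eL X := by linarith
  obtain ⟨l, hle⟩ : ∃ l : ℝ, l = eL X := ⟨_, rfl⟩
  have hX1 := X_pos h0
  have hzz := zz_ge hl1
  have hzpos : (0 : ℝ) < zz X := lt_of_lt_of_le (by positivity) hzz
  have hz1 : 1 ≤ zz X := by exact_mod_cast hzpos
  have h1 := COL.coll_pairs (X := X) (z := zz X) (H := HH X) hz1 (HH_pos h0)
  refine h1.trans ?_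
  have hH := HH_ge h0
  have hHp : (0 : ℝ) < HH X := lt_of_lt_of_le (Real.exp_pos _) hH
  have hX0 : (0 : ℝ) ≤ (X : ℝ) ^ 2 := by positivity
  rw [← hle] at hl1 hl2 h0 hzz hH
  have hlg : 32 * lg X ≤ 192 * Real.exp l := by
    have g1 := lg_le hX1
    have g2 := one_add_log (X := X) (by rw [← hle]; exact h0)
    rw [← hle] at g2
    linarith
  have hexp : Real.exp (-l) ≤ ε / 400000 := by
    have g1 : 400000 / ε ≤ Real.exp l := by
      rwa [← Real.log_le_iff_le_exp (by positivity)]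
    rw [Real.exp_neg, inv_le_comm₀ (Real.exp_pos _) (by positivity), inv_div]
    exact g1
  have e1 : 2048 * (X : ℝ) ^ 2 / HH X * (32 * lg X) ≤ 393216 * Real.exp (-l) * (X : ℝ) ^ 2 := by
    have g0 : 0 ≤ 32 * lg X := by
      have := one_le_lg X
      linarith
    calc 2048 * (X : ℝ) ^ 2 / HH X * (32 * lg X) ≤
          2048 * (X : ℝ) ^ 2 / Real.exp (3 * l) * (192 * Real.exp l) := by
          gcongr
      _ = 393216 * Real.exp (-(2 * l)) * (X : ℝ) ^ 2 := by
          have g2 : Real.exp (-(2 * l)) = Real.exp l / Real.exp (3 * l) := by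
            rw [← Real.exp_sub]
            congr 1
            ring
          rw [g2]
          ring
      _ ≤ 393216 * Real.exp (-l) * (X : ℝ) ^ 2 := by
          gcongr
          linarith
  have e2 : 1024 * (X : ℝ) ^ 2 * (2 / zz X) ≤ 4096 * Real.exp (-l) * (X : ℝ) ^ 2 := by
    have g1 : l ≤ l ^ 3 := by
      nlinarith [sq_nonneg l, sq_nonneg (l - 1)]
    have g2 : 2 / (zz X : ℝ) ≤ 4 * Real.exp (-l) := by
      rw [div_le_iff₀ hzpos]
      have g3 : Real.exp l ≤ Real.exp (l ^ 3) := Real.exp_le_exp.2 g1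
      have g4 : Real.exp (-l) * Real.exp l = 1 := by
        rw [← Real.exp_add, neg_add_cancel, Real.exp_zero]
      have g5 : Real.exp l / 2 ≤ zz X := by linarith
      calc (2 : ℝ) = 4 * Real.exp (-l) * (Real.exp l / 2) := by linear_combination -2 * g4
        _ ≤ 4 * Real.exp (-l) * zz X := mul_le_mul_of_nonneg_left g5 (by positivity)
    calc 1024 * (X : ℝ) ^ 2 * (2 / zz X) ≤ 1024 * (X : ℝ) ^ 2 * (4 * Real.exp (-l)) :=
          mul_le_mul_of_nonneg_left g2 (by positivity)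
      _ = _ := by ring
  calc 2048 * (X : ℝ) ^ 2 / HH X * (32 * lg X) + 1024 * (X : ℝ) ^ 2 * (2 / zz X) ≤
        400000 * Real.exp (-l) * (X : ℝ) ^ 2 := by
        have : 0 ≤ Real.exp (-l) * (X : ℝ) ^ 2 := by positivity
        linarith
    _ ≤ 400000 * (ε / 400000) * (X : ℝ) ^ 2 := by gcongr
    _ = ε * (X : ℝ) ^ 2 := by ring

end Pool.Agent.H451.JB
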