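import Mathlib
import Pool.Agent.H451.JLM.Stm2
import Pool.Graph.R_seed8.Y703.CX.Asy

/-!
# Project JB (helper451): the joint law for tuples of independent sets in a box

`M` sets `S 0, …, S (M - 1)` of primary primes run independently through `SS X` (so the `M` squarefree
elements `a_m = ∏_{π ∈ S m} π` have norm at most `X` each, they need not be coprime). There are `k`
weighted Laplacians with the weights `wT W S j π = ∑_{m, π ∈ S m} W j m`. If the rows of the table `W` are
not proportional to each other then the probability that all `k` systems have only the trivial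
solutions tends to `c9 ^ k`.

The small primes (norm at most `z = zz X`) may be shared by several of the sets, the large ones are, up to few
exceptions, in different blocks, and the large primes of `S m` play the role of the primes with the
mark `m` in the project JLM (`Pool/Agent/H451/JLM`), whose proofs are to be adapted.
-/

set_option autoImplicit false
set_option linter.unusedVariables false

open scoped Classical

namespace Pool.Agent.H451.JB

open Finset
open Pool.Agent.Y692.QS (Ei w nr toC)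
open Pool.Agent.Y715.T.Rec (cs)
open Pool.Agent.Y715.T.RecG (Pq)
open Pool.Agent.Y699.E (ez nrm QB)
open Pool.Agent.Y703.XK (Nd SS RR HB prs ext c9 sm la bl S_BIL S_EQ S_C9 S_CNT)
open Pool.Agent.Y703.CX (XX kk zz HH)
open Pool.Agent.H451.JL (F sw nW GW)
open Pool.Agent.H451.JLM (NP)

/-- the union of the sets of a tuple -/
noncomputable def UN {M : ℕ} (S : Fin M → Finset Ei) : Finset Ei := univ.biUnion S

/-- the weights of a tuple -/
noncomputable def wT {k M : ℕ} (W : Fin k → Fin M → F) (S : Fin M → Finset Ei) (j : Fin k)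
    (π : Ei) : F := ∑ m, if π ∈ S m then W j m else 0

/-- the tuples of the box -/
noncomputable def TT (M X : ℕ) : Finset (Fin M → Finset Ei) := Fintype.piFinset fun _ => SS X

/-- all the small primes of a tuple -/
noncomputable def S0 {M : ℕ} (z : ℕ) (S : Fin M → Finset Ei) : Finset Ei := UN fun m => sm z (S m)

/-- the large primes of each set are many compared to all the small primes, and their labels are not
degenerate -/
def NdT {M : ℕ} (V z : ℕ) (S : Fin M → Finset Ei) : Prop :=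
  ∀ m, V * ((S0 z S).card + 1) ≤ (la z (S m)).card ∧ Nd (S0 z S) (la z (S m))

/-- the large primes of different sets are in different blocks -/
def Dj {M : ℕ} (z H : ℕ) (S : Fin M → Finset Ei) : Prop :=
  ∀ m m' : Fin M, m ≠ m' → ∀ π ∈ la z (S m), ∀ π' ∈ la z (S m'), bl H π ≠ bl H π'

/-- the regular tuples -/
noncomputable def RT (M X z H K : ℕ) : Finset (Fin M → Finset Ei) :=
  (Fintype.piFinset fun _ : Fin M => RR X z H K 0).filter (Dj z H)

/-- the norms modulo `9` -/
def CondT {M : ℕ} (R : Set (Fin M → ℕ)) (S : Fin M → Finset Ei) : Prop :=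
  (fun m => (∏ π ∈ S m, nrm π) % 9) ∈ R

/-- the nondegeneracy for a tuple of primes with the marks `ν` -/
def NdP {ι : Type} [Fintype ι] {M : ℕ} (V : ℕ) (ν : ι → Fin M) (S₀ : Finset Ei) (p : ι → Ei) :
    Prop :=
  ∀ m, V * (S₀.card + 1) ≤ (univ.filter fun i => ν i = m).card ∧
    ∀ v : Ei → F, (∃ u ∈ S₀, v u ≠ 0) → ∃ i, ν i = m ∧ ∑ u ∈ S₀, v u * cs u (p i) ≠ 0

/-- the weights of a tuple of primes: arbitrary ones `w₀` on the small primes `S₀`, `W j (ν i)` on `p i` -/
noncomputable def wB {ι : Type} [Fintype ι] {k M : ℕ} (W : Fin k → Fin M → F) (ν : ι → Fin M)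
    (w₀ : Fin k → Ei → F) (S₀ : Finset Ei) (p : ι → Ei) (j : Fin k) (π : Ei) : F :=
  if π ∈ S₀ then w₀ j π else ∑ i, if p i = π then W j (ν i) else 0

/-- the count in a box -/
def BXT {k M : ℕ} (W : Fin k → Fin M → F) (V : ℕ) (ε : ℝ) : Prop :=
  ∀ (ι : Type) [Fintype ι] [LinearOrder ι]
  (C : ι → Finset Ei) (ν : ι → Fin M) (X : ι → ℕ) (κ : ℝ) (S₀ : Finset Ei) (w₀ : Fin k → Ei → F),
  0 ≤ κ → (∀ i, (C i).card ≤ X i) → HB C X κ → (∀ u ∈ S₀, Pq u) →
  (∀ i, ∀ π ∈ C i, Pq π ∧ π ∉ S₀) → (∀ i l, i ≠ l → Disjoint (C i) (C l)) →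
  |(((Fintype.piFinset C).filter fun p => NdP V ν S₀ p ∧
        GW (wB W ν w₀ S₀ p) (S₀ ∪ univ.image p)).card : ℝ) -
      c9 ^ k * (((Fintype.piFinset C).filter fun p => NdP V ν S₀ p).card : ℝ)| ≤
    ε * (((Fintype.piFinset C).filter fun p => NdP V ν S₀ p).card : ℝ) +
    3 ^ (S₀.card * Fintype.card ι + (prs ι).card) * (κ * ∏ j, (X j : ℝ))

/-- JB-BOX: the count in a box.

Proof. This is `Pool.Agent.H451.JLM.t_BOX` (`Pool/Agent/H451/JLM/BOX.lean`, 450 lines, to be copied and
adapted) with two changes: the marks are given by `ν` only (there is no function `μ` on `Ei`), and the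
weights on `S₀` are arbitrary. `V = max N 1` with the `N` of `Pool.Agent.H451.JLM.S_SYS`
(`Pool.Agent.H451.JLM.t_SYS Pool.Agent.H451.JLM.t_JLM'` in `JLM/Asm.lean`) and
`Pool.Agent.Y703.XK.S_EQ` (`Pool.Agent.Y710.XK.t_EQ`). For a tuple `p` of the box (injective, `p i ∉ S₀`) the
weight `ω = wB W ν w₀ S₀ p j` is `w₀ j` on `S₀` and `ω (p i) = W j (ν i)`; `nW_eqM` (for `ω`) gives
`nW ω (S₀ ∪ univ.image p) = nAw …` with the unknowns `sw ω S₀ = sw (w₀ j) S₀` (adapt `nW_eqM` so that the
right side is written with `w₀ j`, e.g. by a hypothesis that `ω` and `ω₀` agree on `S₀`; or replace first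
`ω` by a weight which agrees on the set, `nW_congr` in `JLM/DQ.lean`). The condition `NdP V ν S₀ p` depends
only on the labels `β i u = cs u (p i)`, `u ∈ S₀` (it is `LNM V ν S₀ β` there), and for fixed labels so
does the system. -/
def S_BOX : Prop := ∀ (k M : ℕ) (W : Fin k → Fin M → F), NP W → ∀ ε : ℝ, 0 < ε →
  ∃ V : ℕ, 1 ≤ V ∧ BXT W V ε

/-- the sum over the boxes -/
def KET {k M : ℕ} (W : Fin k → Fin M → F) (R : Set (Fin M → ℕ)) (V : ℕ) (ε : ℝ) : Prop :=
  ∃ C : ℝ, 1 ≤ C ∧
  ∀ (X z H K N : ℕ) (κ : ℝ), 1 ≤ X → 1 ≤ H → 1 ≤ z → 0 ≤ κ → C ≤ κ ^ 24 * z →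
  (H : ℝ) * Real.log X < N →
  |(((RT M X z H K).filter fun S => (CondT R S ∧ NdT V z S) ∧ GW (wT W S) (UN S)).card : ℝ) -
      c9 ^ k * (((RT M X z H K).filter fun S => CondT R S ∧ NdT V z S).card : ℝ)| ≤
    ε * ((RT M X z H K).card : ℝ) +
    3 ^ (9 * (M * K) ^ 2 + 9 * M) * κ * ((9 * N + 9 : ℝ) ^ K * (X * (1 + Real.log X))) ^ M

/-- JB-KEY: the sum over the boxes.

Proof. Adapt `Pool.Agent.H451.JLM.t_KEY` (`Pool/Agent/H451/JLM/KEY.lean`; tools in
`Pool/Graph/R_seed8/Y696/XL/Key*.lean`, namespace `Pool.Agent.XLK`). `C` is the constant of `S_BIL`. The key of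
a tuple `S ∈ RT` is the family `m ↦ ky z H (S m) = (S₀ m, J m)`, where `J m` is the set of the numbers
`ph H π = 9 * bl H π + nrm π % 9`, `π ∈ la z (S m)`. Sort the tuples by their keys. Fix a key which occurs.
The facts of `key_facts` hold for each `m` (e.g. `∏_{i ∈ J m} XX H (i / 9) * ∏_{S₀ m} nrm ≤ X`, and the
cardinalities are at most `K`); the sets `i / 9`, `i ∈ J m` are disjoint for different `m` (by `Dj`), so the
`J m` are disjoint. Let `J` be the union of the `J m`, `ν i` (for `i ∈ J`) the `m` with `i ∈ J m`,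
`C i = CC z H i` (disjoint for different `i`, see `KEY.lean`), `S₀` the union of the `S₀ m` (its elements have
norm `≤ z`, so they are not in the `C i`). The tuples with this key correspond to the
`p ∈ ∏_{i ∈ J} C i` by `S m = S₀ m ∪ {p i | i ∈ J m}` (for each `m` by `mem_CC`, `sm_fill`, `la_fill`,
`ky_fill`, `mem_RR`, `key_bij`; e.g. take the image of the restriction of `p` to `J m` as in `key_bij`); all of
these tuples are in `RT` (`Dj` depends only on the key). For such a tuple `UN S = S₀ ∪ univ.image p`, and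
`wT W S j` agrees on `UN S` with `wB W ν w₀ S₀ p j`, `w₀ j π = ∑_m if π ∈ S₀ m then W j m else 0` (`GW` depends
only on the weights on the set: `nW_congr`, `GW_congr` in `JLM/DQ.lean`, or prove it again in two lines);
`NdT V z S` is `NdP V ν S₀ p`; `CondT R S` is determined by the key (`ph_mod`, see `cond_iff` in `KEY.lean`).
If `CondT` is false for the key then the contribution is zero. Otherwise apply `BXT` with
`X i = 16 * XX H (i / 9)` (`hb_box`, `card_QB_le`): the main term is
`≤ ε *` (the number of the tuples with this key), the error is at most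
`3 ^ (|S₀| |J| + |prs J|) κ ∏_{i ∈ J} 16 XX H (i / 9) ≤ 3 ^ (9 (M K) ^ 2) κ ∏_m (X / ∏_{S₀ m} nrm)`, as
`|S₀|, |J| ≤ M K`, `|prs J| ≤ (M K) ^ 2`, `16 ^ |J| ≤ 3 ^ (3 M K)`. Sum over the keys: they are families of keys of
`RR X z H K 0`, so (`Finset.prod_univ_sum`) `∑ ∏_m X / ∏_{S₀ m} nrm ≤ (∑_{keys} X / ∏_{S₀} nrm) ^ M`, and the
sum over the keys of `RR X z H K 0` is at most `(9 N + 9) ^ K 3 ^ 9 X (1 + log X)` by `keg_err` (with
`κ = 1`; divide by `3 ^ (9 K ^ 2)`). -/
def S_KEY : Prop := S_BIL → ∀ (k M : ℕ) (W : Fin k → Fin M → F) (R : Set (Fin M → ℕ)) (V : ℕ)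
  (ε : ℝ), 0 ≤ ε → 1 ≤ V → BXT W V ε → KET W R V ε

/-- JB-COL: few pairs of sets have two large primes in the same block.

Proof. Let `z = zz X`, `H = HH X = ⌈(log X) ^ 3⌉`. The number of the `S ∈ SS X` which contain a given prime `π`
is at most `16 X / nrm π` (`card_le_real` in `Pool/Graph/R_seed8/Y474/XK/CNT.lean`, as in `pair_count`
there). So the number of the pairs is at most the sum of `(16 X / nrm π) (16 X / nrm ρ)` over the pairs of
primes of norm in `(z, X]` in the same block; as in `coll_count` there (`h0`, `card_int`, `sum_sq`; now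
`π = ρ` is allowed, and take twice the sum over `nrm π ≤ nrm ρ`) it is at most
`C X ^ 2 ((1 + log X) / H + 1 / z)`, and this is `≤ ε X ^ 2` for large `X` (`HH_ge`, `zz_ge`, `ev_eL` in
`Pool/Graph/R_seed8/Y703/CX/Asy.lean`; compare `sml_coll`). -/
def S_COL : Prop := ∀ ε : ℝ, 0 < ε → ∃ X₀ : ℕ, ∀ X : ℕ, X₀ ≤ X →
  (((SS X ×ˢ SS X).filter fun p => ∃ π ∈ la (zz X) p.1, ∃ π' ∈ la (zz X) p.2,
    bl (HH X) π = bl (HH X) π').card : ℝ) ≤ ε * (X : ℝ) ^ 2

/-- JB-ND: few tuples have labels which are degenerate up to `C (|S₀| + 1)` exceptions.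

Proof. Adapt `Pool.Agent.H451.JLM.t_NDC` (`Pool/Agent/H451/JLM/NDC.lean`: `gw_sum`, `gen4L` and the count
`few_count`, `pair_count`; they use `fiber_le`, `small_sum` of `Pool/Graph/R_seed8/Y433/XK/Few.lean`,
`Gen.lean`). Fix `m` (there are `M` of them) and the small parts `s m' = sm z (S m')` (sets of primes of norm
`≤ z = zz X` with at most `kk X` elements); `S₀ = ⋃ s m'`, `|S₀| ≤ ∑ |s m'|`. Given `v ≠ 0` on `S₀` let `A`, `B` be
the products of the `u ∈ S₀` with `v u = 1`, `v u = -1`, `χ = xab A B`; there are at most `4 ^ |S₀|` pairs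
`(A, B)`, and `nrm A * nrm B ≤ ∏_m' pN (s m')` (each `u ∈ S₀` lies in some `s m'`). The number of the `S m ∈ SS X`
with `sm z (S m) = s m` and at most `C (|S₀| + 1)` primes `π ∈ la z (S m)` with `χ π ≠ 1` is at most
`24 ^ (C (|S₀| + 1)) ∑_{n ∈ SB (X / pN (s m))} mf (gw χ) n`, estimated by `gw_sum` as in `NDC.lean`; for each
`m' ≠ m` the number of the `S m' ∈ SS X` with `sm z (S m') = s m'` is at most `16 X / pN (s m')`. So for given
small parts the number of the tuples is at most
`b (∏_m' a ^ |s m'|) lg (∏_m' pN (s m')) (X ^ M / ∏_m' pN (s m')) (lg (X / pN (s m))) ^ (-1/4)`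
with `a`, `b` depending only on `M`, `C`. Sum over the families of small parts as in `gen4L`: it is a product of
`M` sums, each at most `exp (a ∑_{nrm p ≤ z} 1 / nrm p) ≤ exp (a (2 log log z + C))`, with
`log log z ≤ 3 log ℓ`, `ℓ = eL X = log log X`, `lg (∏ pN) ≤ M 33 ℓ ^ 4`, and the saving `exp (-ℓ / 4)`
(see `gen4L`) wins. -/
def S_ND : Prop := ∀ (M C : ℕ) (ε : ℝ), 0 < ε → ∃ X₀ : ℕ, ∀ X : ℕ, X₀ ≤ X →
  (((TT M X).filter fun S => (∀ m, (S m).card ≤ kk X) ∧ ∃ m, ∃ v : Ei → F,
    (∃ u ∈ S0 (zz X) S, v u ≠ 0) ∧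
    ((la (zz X) (S m)).filter fun π => ∑ u ∈ S0 (zz X) S, v u * cs u π ≠ 0).card ≤
      C * ((S0 (zz X) S).card + 1)).card : ℝ) ≤ ε * (X : ℝ) ^ M

/-- JB-LOW: sets whose norm is `4` or `7` modulo `9` have positive density.

Proof. `Pool.Agent.H451.JLM.t_LOW` for `M = 1` and `R = {fun _ => r}`: the mean `av m₁ S` of a condition which
does not depend on the marks (for `M = 1` there is only one mark function) is `1` or `0`, and
`CondM R μ S` is `(∏ π ∈ S, nrm π) % 9 = r`. -/
def S_LOW : Prop := ∀ r : ℕ, r = 4 ∨ r = 7 → ∃ (c : ℝ) (X₀ : ℕ), 0 < c ∧ ∀ X : ℕ, X₀ ≤ X →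
  c * X ≤ (((SS X).filter fun S => (∏ π ∈ S, nrm π) % 9 = r).card : ℝ)

/-- **JB-DQ**: the joint law for tuples of independent sets.

Proof. Adapt `Pool.Agent.H451.JLM.t_DQ` (`Pool/Agent/H451/JLM/DQ.lean`). First part: let `r ∈ R` with
`r m ∈ {4, 7}`; the tuples with `(∏ π ∈ S m, nrm π) % 9 = r m` for all `m` are a product of `M` sets as in
`S_LOW`. Second part: with `η` small let `V` be from `S_BOX`, then `S_KEY` with `z = zz X`, `H = HH X`,
`K = kk X`, `N = NN X`, `κ = kap C X` as there; the number of all tuples is at most `(D X) ^ M`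
(`CntP.all`), and the error term of `KET` is at most
`3 ^ (9 (M K) ^ 2 + 9 M) κ ((9 N + 9) ^ K X (1 + log X)) ^ M`, which is `≤ η X ^ M` for large `X`, compare
`sml_mainM`: `(9 N + 9) ^ K ≤ exp (55 ℓ ^ 2)`, `κ ≤ 2 C exp (-ℓ ^ 3 / 24)`, `1 + log X ≤ 2 exp ℓ`, where
`ℓ = eL X`. The tuples of `TT M X` with `CondT` which are not in `RT M X z H K` or violate `NdT V z` are
among: (i) those for which some `S m` violates one of the conditions of `RR X z H K 0` except the last one:
`sml_many`, `sml_cut`, `sml_coll` for the coordinate `m`, times `(D X) ^ (M - 1)` for the others; (ii) those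
which violate `Dj`: `S_COL` for two coordinates (`M ^ 2` pairs); (iii) `S_ND` with `C = V + 1`: if `(S m).card ≤ K`
for all `m`, `S₀ ≠ ∅` and the tuple is not counted there then `NdT V z` holds (for the first part of `NdT` take
for `v` the indicator of an element of `S₀`: the number of all `π ∈ la z (S m)` is larger than `C (|S₀| + 1)`);
(iv) `S₀ = ∅`: then `NdT V z` only says `V ≤ |la z (S m)|`, and `sm z (S m) = ∅`, so this is
`Pool.Agent.H451.JLM.S_FEC` for the coordinate `m` with `C = V`. `NdT V z S` with `V ≥ 1` implies the last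
condition `|sm z (S m)| < |la z (S m)|` of `RR X z H K 0`. -/
def S_DQ : Prop := ∀ (k M : ℕ) (W : Fin k → Fin M → F) (R : Set (Fin M → ℕ)), NP W →
  (∃ r ∈ R, ∀ m, r m = 4 ∨ r m = 7) →
  (∃ (c : ℝ) (X₀ : ℕ), 0 < c ∧ ∀ X : ℕ, X₀ ≤ X →
    c * (X : ℝ) ^ M ≤ (((TT M X).filter (CondT R)).card : ℝ)) ∧
  Filter.Tendsto (fun X : ℕ =>
    (((TT M X).filter fun S => CondT R S ∧ GW (wT W S) (UN S)).card : ℝ) /
    (((TT M X).filter (CondT R)).card : ℝ)) Filter.atTop (nhds (c9 ^ k))

end Pool.Agent.H451.JB
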