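import Mathlib
import Pool.Agent.H451.JB.Stm
import Pool.Graph.R_seed8.Y703.XK.Asy

/-!
# Project JB: the asymptotics for tuples
-/

set_option autoImplicit false
set_option linter.unusedVariables false

open scoped Classical
open Finset Filter

namespace Pool.Agent.H451.JB

open Pool.Agent.Y692.QS (Ei w nr toC)
open Pool.Agent.Y715.T.Rec (cs)
open Pool.Agent.Y715.T.RecG (Pq)
open Pool.Agent.Y699.E (nrm QB)
open Pool.Agent.Y703.CX (jj XX eL zz kk eL_tendsto logX_eq rpow_eL HH NN ev_eL one_le_exp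
  HH_ge HH_le HH_pos kk_ge kk_le X_pos one_add_log lin_le zz_ge zz_pos)
open Pool.Agent.Y703.CQ (Sml sml_of sml_add)
open Pool.Agent.Y703.XK (Nd SS RR HB prs ext c9 sm la bl S_BIL S_EQ S_CNT S_C9
  sml_eps sml_many sml_cut sml_coll kap kap_nonneg kap_pow kap_le CntP log_three)
open Pool.Agent.H451.JL (F sw nW GW)
open Pool.Agent.H451.JLM (NP)

namespace DQp

/-- the comparison of the counts -/
theorem cmpG {α : Type} [hdec : DecidableEq α] (G : α → Prop) (T S : Finset α) (hTS : T ⊆ S) (c : ℝ) (hc0 : 0 ≤ c)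
    (hc1 : c ≤ 1) :
    |((S.filter G).card : ℝ) - c * (S.card : ℝ)| ≤
      |((T.filter G).card : ℝ) - c * (T.card : ℝ)| + ((S \ T).card : ℝ) := by
  have e1 : ((S.filter G).card : ℝ) = (T.filter G).card + ((S \ T).filter G).card := by
    rw [← Nat.cast_add, ← card_union_of_disjoint, ← filter_union, union_sdiff_of_subset hTS]
    exact disjoint_filter_filter (disjoint_sdiff)
  have e2 : (S.card : ℝ) = T.card + (S \ T).card := by
    rw [← Nat.cast_add, ← card_union_of_disjoint disjoint_sdiff, union_sdiff_of_subset hTS]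
  have h1 : |(((S \ T).filter G).card : ℝ) - c * ((S \ T).card : ℝ)| ≤ ((S \ T).card : ℝ) := by
    have h2 : (((S \ T).filter G).card : ℝ) ≤ ((S \ T).card : ℝ) := by
      exact_mod_cast card_filter_le _ _
    have h3 : (0 : ℝ) ≤ ((S \ T).card : ℝ) := Nat.cast_nonneg _
    exact Pool.Agent.Y703.CX.abs_sub_le_of (Nat.cast_nonneg _) h2 (mul_nonneg hc0 h3)
      (mul_le_of_le_one_left h3 hc1)
  have e3 : ((S.filter G).card : ℝ) - c * (S.card : ℝ) =
      (((T.filter G).card : ℝ) - c * (T.card : ℝ)) +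
      ((((S \ T).filter G).card : ℝ) - c * ((S \ T).card : ℝ)) := by
    rw [e1, e2]; ring
  rw [e3]
  exact (abs_add_le _ _).trans (add_le_add le_rfl h1)

/-- tuples with a condition on one coordinate -/
theorem card_one {M : ℕ} (X : ℕ) (P : Finset Ei → Prop) {hd : DecidablePred P} (m : Fin M) :
    ((TT M X).filter fun S => P (S m)).card ≤
      (@Finset.filter _ P hd (SS X)).card * (SS X).card ^ (M - 1) := by
  have h1 : ((TT M X).filter fun S => P (S m)) ⊆
      Fintype.piFinset (fun i => if i = m then (SS X).filter P else SS X) := by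
    intro S hS
    rw [mem_filter] at hS
    unfold TT at hS
    rw [Fintype.mem_piFinset] at hS ⊢
    intro i
    by_cases h : i = m
    · rw [if_pos h, mem_filter, h]
      exact ⟨hS.1 m, hS.2⟩
    · rw [if_neg h]
      exact hS.1 i
  refine (card_le_card h1).trans (le_of_eq ?_)
  rw [Fintype.card_piFinset, ← mul_prod_erase univ _ (mem_univ m), if_pos rfl]
  congr 1
  rw [prod_congr rfl (g := fun _ => (SS X).card)
    (fun i hi => by rw [if_neg (ne_of_mem_erase hi)]), prod_const,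
    card_erase_of_mem (mem_univ m), card_univ, Fintype.card_fin]

/-- tuples with a condition on two coordinates -/
theorem card_two {M : ℕ} (X : ℕ) (Q : Finset Ei → Finset Ei → Prop)
    {hd : DecidablePred fun p : Finset Ei × Finset Ei => Q p.1 p.2} (m m' : Fin M)
    (hmm : m ≠ m') : ((TT M X).filter fun S => Q (S m) (S m')).card ≤
      (@Finset.filter _ (fun p : Finset Ei × Finset Ei => Q p.1 p.2) hd (SS X ×ˢ SS X)).card *
        (SS X).card ^ (M - 2) := by
  have hmap : ∀ S ∈ (TT M X).filter (fun S => Q (S m) (S m')),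
      (S m, S m') ∈ @Finset.filter _ (fun p : Finset Ei × Finset Ei => Q p.1 p.2) hd
        (SS X ×ˢ SS X) := by
    intro S hS
    rw [mem_filter] at hS
    unfold TT at hS
    rw [Fintype.mem_piFinset] at hS
    rw [mem_filter, mem_product]
    exact ⟨⟨hS.1 m, hS.1 m'⟩, hS.2⟩
  rw [card_eq_sum_card_fiberwise (f := fun S : Fin M → Finset Ei => (S m, S m')) hmap]
  refine (sum_le_card_nsmul _ _ ((SS X).card ^ (M - 2)) ?_).trans (le_of_eq (smul_eq_mul _ _))
  rintro ⟨s, s'⟩ hp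
  have h1 : (((TT M X).filter (fun S => Q (S m) (S m'))).filter
      fun S => (S m, S m') = (s, s')) ⊆
      Fintype.piFinset (fun i => if i = m then {s} else if i = m' then {s'} else SS X) := by
    intro S hS
    rw [mem_filter, mem_filter] at hS
    obtain ⟨⟨hS1, -⟩, hS2⟩ := hS
    unfold TT at hS1
    rw [Fintype.mem_piFinset] at hS1 ⊢
    intro i
    by_cases h : i = m
    · rw [if_pos h, mem_singleton, h]
      exact congrArg Prod.fst hS2
    · rw [if_neg h]
      by_cases h' : i = m'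
      · rw [if_pos h', mem_singleton, h']
        exact congrArg Prod.snd hS2
      · rw [if_neg h']
        exact hS1 i
  refine (card_le_card h1).trans (le_of_eq ?_)
  have hm' : m' ∈ univ.erase m := mem_erase.2 ⟨hmm.symm, mem_univ _⟩
  rw [Fintype.card_piFinset, ← mul_prod_erase univ _ (mem_univ m), if_pos rfl, card_singleton,
    one_mul, ← mul_prod_erase _ _ hm', if_neg hmm.symm, if_pos rfl, card_singleton, one_mul,
    prod_congr rfl (g := fun _ => (SS X).card)
    (fun i hi => by rw [if_neg (ne_of_mem_erase (mem_of_mem_erase hi)),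
      if_neg (ne_of_mem_erase hi)]), prod_const,
    card_erase_of_mem hm', card_erase_of_mem (mem_univ m), card_univ, Fintype.card_fin]
  rw [Nat.sub_sub]

theorem card_TT {M : ℕ} (X : ℕ) : (TT M X).card = (SS X).card ^ M := by
  unfold TT
  rw [Fintype.card_piFinset, prod_const, card_univ, Fintype.card_fin]

/-- the bound for a condition on some coordinate -/
theorem bd_one {M : ℕ} {X : ℕ} (P : Finset Ei → Prop) {hd1 : DecidablePred P}
    {hd2 : DecidablePred fun S : Fin M → Finset Ei => ∃ m, P (S m)}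
    {β δ : ℝ} (hβ : ((SS X).card : ℝ) ≤ β)
    (hδ : 0 ≤ δ) (hP : ((@Finset.filter _ P hd1 (SS X)).card : ℝ) ≤ δ * β) :
    ((@Finset.filter _ (fun S : Fin M → Finset Ei => ∃ m, P (S m)) hd2 (TT M X)).card : ℝ) ≤
      M * (δ * β ^ M) := by
  have h1 : (@Finset.filter _ (fun S : Fin M → Finset Ei => ∃ m, P (S m)) hd2 (TT M X)) ⊆
      (univ : Finset (Fin M)).biUnion fun m => (TT M X).filter fun S => P (S m) := by
    intro S hS
    rw [mem_filter] at hS
    obtain ⟨hS1, m, hm⟩ := hS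
    exact mem_biUnion.2 ⟨m, mem_univ m, mem_filter.2 ⟨hS1, hm⟩⟩
  have h2 := (card_le_card h1).trans card_biUnion_le
  have h3 : ∀ m : Fin M, (((TT M X).filter fun S => P (S m)).card : ℝ) ≤ δ * β ^ M := by
    intro m
    have h4 : (((TT M X).filter fun S => P (S m)).card : ℝ) ≤
        ((@Finset.filter _ P hd1 (SS X)).card : ℝ) * ((SS X).card : ℝ) ^ (M - 1) := by
      exact_mod_cast card_one X P m
    have hM : M ≠ 0 := by
      intro h
      exact absurd m.2 (by omega)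
    have hβ0 : 0 ≤ β := (Nat.cast_nonneg _).trans hβ
    calc _ ≤ ((@Finset.filter _ P hd1 (SS X)).card : ℝ) * ((SS X).card : ℝ) ^ (M - 1) := h4
      _ ≤ (δ * β) * β ^ (M - 1) := by gcongr
      _ = δ * β ^ M := by rw [mul_assoc, mul_pow_sub_one hM]
  calc _ ≤ ((∑ m : Fin M, ((TT M X).filter fun S => P (S m)).card : ℕ) : ℝ) := by
        exact_mod_cast h2
    _ = ∑ m : Fin M, (((TT M X).filter fun S => P (S m)).card : ℝ) := by push_cast; rfl
    _ ≤ ∑ m : Fin M, δ * β ^ M := sum_le_sum fun m _ => h3 m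
    _ = M * (δ * β ^ M) := by rw [sum_const, card_univ, Fintype.card_fin, nsmul_eq_mul]

/-- the bound for a condition on some pair of coordinates -/
theorem bd_two {M : ℕ} {X : ℕ} (Q : Finset Ei → Finset Ei → Prop)
    {hd1 : DecidablePred fun p : Finset Ei × Finset Ei => Q p.1 p.2}
    {hd2 : DecidablePred fun S : Fin M → Finset Ei => ∃ m m', m ≠ m' ∧ Q (S m) (S m')} {β δ : ℝ}
    (hβ : ((SS X).card : ℝ) ≤ β) (hδ : 0 ≤ δ)
    (hP : ((@Finset.filter _ (fun p : Finset Ei × Finset Ei => Q p.1 p.2) hd1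
      (SS X ×ˢ SS X)).card : ℝ) ≤ δ * β ^ 2) :
    ((@Finset.filter _ (fun S : Fin M → Finset Ei => ∃ m m', m ≠ m' ∧ Q (S m) (S m')) hd2
      (TT M X)).card : ℝ) ≤ M * (M * (δ * β ^ M)) := by
  have h1 : (@Finset.filter _ (fun S : Fin M → Finset Ei => ∃ m m', m ≠ m' ∧ Q (S m) (S m')) hd2
      (TT M X)) ⊆
      (univ : Finset (Fin M)).biUnion fun m => (univ : Finset (Fin M)).biUnion fun m' =>
        (TT M X).filter fun S => m ≠ m' ∧ Q (S m) (S m') := by
    intro S hS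
    rw [mem_filter] at hS
    obtain ⟨hS1, m, m', hm⟩ := hS
    exact mem_biUnion.2 ⟨m, mem_univ m, mem_biUnion.2 ⟨m', mem_univ m', mem_filter.2 ⟨hS1, hm⟩⟩⟩
  have h2 := ((card_le_card h1).trans card_biUnion_le).trans (sum_le_sum fun m _ => card_biUnion_le)
  have hβ0 : 0 ≤ β := (Nat.cast_nonneg _).trans hβ
  have h3 : ∀ m m' : Fin M,
      (((TT M X).filter fun S => m ≠ m' ∧ Q (S m) (S m')).card : ℝ) ≤ δ * β ^ M := by
    intro m m'
    by_cases hmm : m = m'
    · rw [filter_false_of_mem (fun S _ h => h.1 hmm)]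
      simp only [card_empty, Nat.cast_zero]
      positivity
    have h5 : ((TT M X).filter fun S => m ≠ m' ∧ Q (S m) (S m')) ⊆
        (TT M X).filter fun S => Q (S m) (S m') := by
      intro S hS
      rw [mem_filter] at hS ⊢
      exact ⟨hS.1, hS.2.2⟩
    have h4 : (((TT M X).filter fun S => m ≠ m' ∧ Q (S m) (S m')).card : ℝ) ≤
        ((@Finset.filter _ (fun p : Finset Ei × Finset Ei => Q p.1 p.2) hd1
          (SS X ×ˢ SS X)).card : ℝ) * ((SS X).card : ℝ) ^ (M - 2) := by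
      exact_mod_cast (card_le_card h5).trans (card_two X Q m m' hmm)
    have hM : 2 ≤ M := by
      by_contra hlt
      have e1 := m.2
      have e2 := m'.2
      exact hmm (Fin.ext (by omega))
    calc _ ≤ ((@Finset.filter _ (fun p : Finset Ei × Finset Ei => Q p.1 p.2) hd1
          (SS X ×ˢ SS X)).card : ℝ) * ((SS X).card : ℝ) ^ (M - 2) := h4
      _ ≤ (δ * β ^ 2) * β ^ (M - 2) := by gcongr
      _ = δ * β ^ M := by rw [mul_assoc, ← pow_add, Nat.add_sub_cancel' hM]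
  calc _ ≤ ((∑ m : Fin M, ∑ m' : Fin M,
          ((TT M X).filter fun S => m ≠ m' ∧ Q (S m) (S m')).card : ℕ) : ℝ) := by
        exact_mod_cast h2
    _ = ∑ m : Fin M, ∑ m' : Fin M,
          (((TT M X).filter fun S => m ≠ m' ∧ Q (S m) (S m')).card : ℝ) := by push_cast; rfl
    _ ≤ ∑ m : Fin M, ∑ m' : Fin M, δ * β ^ M := sum_le_sum fun m _ => sum_le_sum fun m' _ => h3 m m'
    _ = M * (M * (δ * β ^ M)) := by
        simp only [sum_const, card_univ, Fintype.card_fin, nsmul_eq_mul]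

/-- the main error term -/
theorem main_err {C : ℝ} (hC : 1 ≤ C) (M : ℕ) {δ : ℝ} (hδ : 0 < δ) : ∀ᶠ X : ℕ in atTop,
    3 ^ (9 * (M * kk X) ^ 2 + 9 * M) * kap C X *
      ((9 * (NN X : ℝ) + 9) ^ kk X * (X * (1 + Real.log X))) ^ M ≤ δ * (X : ℝ) ^ M := by
  filter_upwards [ev_eL (40000 * ((M : ℝ) + 1) ^ 2), ev_eL (Real.log (2 * C / δ))] with X hX hXδ
  set l := eL X with hl
  have hM0 : (0 : ℝ) ≤ M := Nat.cast_nonneg M
  have hM1 : (1 : ℝ) ≤ ((M : ℝ) + 1) ^ 2 := by nlinarith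
  have hX4 : 40000 ≤ l := by nlinarith
  have h0 : 0 < eL X := by linarith
  have h1 : 1 ≤ eL X := by linarith
  have hX0 : (0 : ℝ) ≤ X := Nat.cast_nonneg _
  have hN : 9 * (NN X : ℝ) + 9 ≤ Real.exp (5 * l) := by
    have h2 : (NN X : ℝ) ≤ HH X * Real.log X + 1 := by
      unfold NN
      push_cast
      have := Nat.floor_le (a := (HH X : ℝ) * Real.log X)
        (mul_nonneg (Nat.cast_nonneg _) (Real.log_natCast_nonneg X))
      linarith
    have h3 : (HH X : ℝ) * Real.log X ≤ 2 * Real.exp (4 * l) := by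
      rw [logX_eq h0]
      calc (HH X : ℝ) * Real.exp (eL X) ≤ 2 * Real.exp (3 * eL X) * Real.exp (eL X) :=
            mul_le_mul_of_nonneg_right (HH_le h0) (Real.exp_pos _).le
        _ = 2 * Real.exp (4 * l) := by
            rw [mul_assoc, ← Real.exp_add]
            congr 2
            rw [hl]
            ring
    have h4 : 1 ≤ Real.exp (4 * l) := one_le_exp (by linarith)
    have h5 : (36 : ℝ) ≤ Real.exp l := by
      have := Real.add_one_le_exp l
      linarith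
    have h6 : Real.exp (5 * l) = Real.exp (4 * l) * Real.exp l := by
      rw [← Real.exp_add]; congr 1; ring
    rw [h6]
    nlinarith
  have hkk := kk_le h1
  have hkk0 : (0 : ℝ) ≤ kk X := Nat.cast_nonneg _
  have hA : (9 * (NN X : ℝ) + 9) ^ kk X ≤ Real.exp (55 * l ^ 2) := by
    calc (9 * (NN X : ℝ) + 9) ^ kk X ≤ (Real.exp (5 * l)) ^ kk X := by gcongr
      _ = Real.exp (kk X * (5 * l)) := (Real.exp_nat_mul _ _).symm
      _ ≤ Real.exp (55 * l ^ 2) := by
          apply Real.exp_le_exp.2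
          nlinarith
  have hLg : 1 + Real.log X ≤ Real.exp (2 * l) := by
    have h2 := one_add_log h0
    have h3 : (2 : ℝ) ≤ Real.exp l := by
      have := Real.add_one_le_exp l
      linarith
    have h4 : Real.exp (2 * l) = Real.exp l * Real.exp l := by
      rw [← Real.exp_add]; congr 1; ring
    rw [h4]
    refine h2.trans ?_
    exact mul_le_mul_of_nonneg_right h3 (Real.exp_pos _).le
  have hLg0 : 0 ≤ 1 + Real.log X := by
    have := Real.log_natCast_nonneg X
    linarith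
  have hAM : ((9 * (NN X : ℝ) + 9) ^ kk X * (X * (1 + Real.log X))) ^ M ≤
      Real.exp (M * (55 * l ^ 2 + 2 * l)) * (X : ℝ) ^ M := by
    calc ((9 * (NN X : ℝ) + 9) ^ kk X * (X * (1 + Real.log X))) ^ M
        ≤ (Real.exp (55 * l ^ 2) * (X * Real.exp (2 * l))) ^ M := by gcongr
      _ = (Real.exp (55 * l ^ 2 + 2 * l)) ^ M * (X : ℝ) ^ M := by
          rw [Real.exp_add, ← mul_pow]
          congr 1
          ring
      _ = Real.exp (M * (55 * l ^ 2 + 2 * l)) * (X : ℝ) ^ M := by rw [← Real.exp_nat_mul]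
  have hB : (3 : ℝ) ^ (9 * (M * kk X) ^ 2 + 9 * M) ≤
      Real.exp (1200 * ((M : ℝ) ^ 2 * l ^ 2) + 10 * M) := by
    have e : (3 : ℝ) ^ (9 * (M * kk X) ^ 2 + 9 * M) =
        Real.exp ((9 * ((M : ℝ) * kk X) ^ 2 + 9 * M) * Real.log 3) := by
      rw [mul_comm (9 * ((M : ℝ) * kk X) ^ 2 + 9 * M) (Real.log 3), Real.exp_mul,
        Real.exp_log (by norm_num)]
      rw [← Real.rpow_natCast]
      congr 1
      push_cast
      ring
    rw [e]
    apply Real.exp_le_exp.2
    have h2 := log_three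
    have h3 : ((M : ℝ) * kk X) ^ 2 ≤ 121 * ((M : ℝ) ^ 2 * l ^ 2) := by
      have h4 : (M : ℝ) * kk X ≤ M * (11 * l) := mul_le_mul_of_nonneg_left hkk hM0
      calc ((M : ℝ) * kk X) ^ 2 ≤ (M * (11 * l)) ^ 2 :=
            pow_le_pow_left₀ (mul_nonneg hM0 hkk0) h4 2
        _ = 121 * ((M : ℝ) ^ 2 * l ^ 2) := by ring
    have h4 : 0 ≤ ((M : ℝ) * kk X) ^ 2 := sq_nonneg _
    have h5 : 0 ≤ (M : ℝ) ^ 2 * l ^ 2 := by positivity
    calc (9 * ((M : ℝ) * kk X) ^ 2 + 9 * M) * Real.log 3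
        ≤ (9 * ((M : ℝ) * kk X) ^ 2 + 9 * M) * 1.1 := by gcongr
      _ ≤ (9 * (121 * ((M : ℝ) ^ 2 * l ^ 2)) + 9 * M) * 1.1 := by gcongr
      _ ≤ 1200 * ((M : ℝ) ^ 2 * l ^ 2) + 10 * M := by linarith
  have hK := kap_le hC h1
  have hK0 := kap_nonneg hC X
  have hmain : 3 ^ (9 * (M * kk X) ^ 2 + 9 * M) * kap C X *
      ((9 * (NN X : ℝ) + 9) ^ kk X * (X * (1 + Real.log X))) ^ M ≤
      Real.exp (1200 * ((M : ℝ) ^ 2 * l ^ 2) + 10 * M) * (2 * C * Real.exp (-l ^ 3 / 24)) *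
        (Real.exp (M * (55 * l ^ 2 + 2 * l)) * (X : ℝ) ^ M) := by
    gcongr
  refine hmain.trans ?_
  have e : Real.exp (1200 * ((M : ℝ) ^ 2 * l ^ 2) + 10 * M) * (2 * C * Real.exp (-l ^ 3 / 24)) *
        (Real.exp (M * (55 * l ^ 2 + 2 * l)) * (X : ℝ) ^ M) =
      2 * C * Real.exp ((1200 * ((M : ℝ) ^ 2 * l ^ 2) + 10 * M) + -l ^ 3 / 24 +
        M * (55 * l ^ 2 + 2 * l)) * (X : ℝ) ^ M := by
    rw [Real.exp_add ((1200 * ((M : ℝ) ^ 2 * l ^ 2) + 10 * M) + -l ^ 3 / 24),
      Real.exp_add (1200 * ((M : ℝ) ^ 2 * l ^ 2) + 10 * M) (-l ^ 3 / 24)]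
    ring
  rw [e]
  have h9 : (1200 * ((M : ℝ) ^ 2 * l ^ 2) + 10 * M) + -l ^ 3 / 24 + M * (55 * l ^ 2 + 2 * l) ≤
      -l := by
    set q := ((M : ℝ) + 1) ^ 2 * l ^ 2 with hq
    have q1 : (M : ℝ) ^ 2 * l ^ 2 ≤ q := by
      rw [hq]
      have : (M : ℝ) ^ 2 ≤ ((M : ℝ) + 1) ^ 2 := by nlinarith
      gcongr
    have q2 : (M : ℝ) * l ^ 2 ≤ q := by
      rw [hq]
      have : (M : ℝ) ≤ ((M : ℝ) + 1) ^ 2 := by nlinarith
      gcongr
    have hl1 : (1 : ℝ) ≤ l ^ 2 := by nlinarith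
    have hll : l ≤ l ^ 2 := by nlinarith
    have q3 : (M : ℝ) ≤ q := by
      have : (M : ℝ) * 1 ≤ M * l ^ 2 := mul_le_mul_of_nonneg_left hl1 hM0
      linarith
    have q4 : (M : ℝ) * l ≤ q := by
      have : (M : ℝ) * l ≤ M * l ^ 2 := mul_le_mul_of_nonneg_left hll hM0
      linarith
    have q5 : l ≤ q := by
      have : 1 * l ^ 2 ≤ ((M : ℝ) + 1) ^ 2 * l ^ 2 :=
        mul_le_mul_of_nonneg_right hM1 (by positivity)
      rw [hq]
      linarith
    have q6 : 40000 * q ≤ l ^ 3 := by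
      have : l ^ 3 = l * l ^ 2 := by ring
      rw [this, hq, ← mul_assoc]
      exact mul_le_mul_of_nonneg_right hX (sq_nonneg l)
    have e1 : (M : ℝ) * (55 * l ^ 2 + 2 * l) = 55 * (M * l ^ 2) + 2 * (M * l) := by ring
    rw [e1]
    linarith
  have h10 : Real.exp (-l) ≤ δ / (2 * C) := by
    have h11 : 0 < 2 * C / δ := by positivity
    calc Real.exp (-l) ≤ Real.exp (-(Real.log (2 * C / δ))) := by
          apply Real.exp_le_exp.2
          linarith
      _ = δ / (2 * C) := by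
          rw [Real.exp_neg, Real.exp_log h11, inv_div]
  have h12 := (Real.exp_le_exp.2 h9).trans h10
  calc 2 * C * Real.exp ((1200 * ((M : ℝ) ^ 2 * l ^ 2) + 10 * M) + -l ^ 3 / 24 +
        M * (55 * l ^ 2 + 2 * l)) * (X : ℝ) ^ M ≤ 2 * C * (δ / (2 * C)) * (X : ℝ) ^ M := by gcongr
    _ = δ * (X : ℝ) ^ M := by
        have : 2 * C ≠ 0 := by positivity
        rw [mul_div_cancel₀ _ this]

theorem card_six {α : Type} {hdec : DecidableEq α} {s o1 o2 o3 o4 o5 o6 : Finset α}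
    (h : s ⊆ ((((o1 ∪ o2) ∪ o3) ∪ o4) ∪ o5) ∪ o6) :
    (s.card : ℝ) ≤ (o1.card : ℝ) + o2.card + o3.card + o4.card + o5.card + o6.card := by
  have g := card_le_card h
  have g2 := g.trans ((card_union_le _ _).trans (Nat.add_le_add_right ((card_union_le _ _).trans
      (Nat.add_le_add_right ((card_union_le _ _).trans (Nat.add_le_add_right
        ((card_union_le _ _).trans (Nat.add_le_add_right (card_union_le _ _) _)) _)) _)) _))
  exact_mod_cast g2

/-- the tuples outside the regular part -/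
theorem out_sub {M : ℕ} (R : Set (Fin M → ℕ)) (X z H K V : ℕ) (hV : 1 ≤ V) :
    ((TT M X).filter (CondT R)) \ ((RT M X z H K).filter fun S => CondT R S ∧ NdT V z S) ⊆
      (((((((TT M X).filter fun S => ∃ m, K < (S m).card) ∪
      ((TT M X).filter fun S => ∃ m, (S m).card ≤ K ∧
        X < (∏ π ∈ sm z (S m), nrm π) * ∏ π ∈ la z (S m), XX H (bl H π))) ∪
      ((TT M X).filter fun S => ∃ m, ¬ Set.InjOn (bl H) (la z (S m) : Set Ei))) ∪
      ((TT M X).filter fun S => ∃ m, (S m).card ≤ K ∧ (la z (S m)).card ≤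
        V * ((sm z (S m)).card + 1))) ∪
      ((TT M X).filter fun S => ∃ m m', m ≠ m' ∧ ∃ π ∈ la z (S m), ∃ π' ∈ la z (S m'),
        bl H π = bl H π')) ∪
      ((TT M X).filter fun S => (∀ m, (S m).card ≤ K) ∧ ∃ m, ∃ v : Ei → F,
        (∃ u ∈ S0 z S, v u ≠ 0) ∧
        ((la z (S m)).filter fun π => ∑ u ∈ S0 z S, v u * cs u π ≠ 0).card ≤
          V * ((S0 z S).card + 1))) := by
  intro S hS
  rw [Finset.mem_sdiff, Finset.mem_filter, Finset.mem_filter] at hS
  obtain ⟨⟨h1, hc⟩, h2⟩ := hS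
  by_contra ho
  apply h2
  simp only [mem_union, mem_filter] at ho
  push Not at ho
  obtain ⟨⟨⟨⟨⟨c1, c2⟩, c3⟩, c4⟩, c5⟩, c6⟩ := ho
  have d1 : ∀ m, (S m).card ≤ K := c1 h1
  have d2 : ∀ m, _ := fun m => c2 h1 m (d1 m)
  have d3 : ∀ m, Set.InjOn (bl H) (la z (S m) : Set Ei) := c3 h1
  have d4 : ∀ m, V * ((sm z (S m)).card + 1) < (la z (S m)).card := fun m => c4 h1 m (d1 m)
  have d5 := c5 h1
  have d6 := c6 h1 d1
  have h1' : ∀ m, S m ∈ SS X := by
    unfold TT at h1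
    rwa [Fintype.mem_piFinset] at h1
  refine ⟨?_, hc, ?_⟩
  · unfold RT
    rw [mem_filter, Fintype.mem_piFinset]
    refine ⟨fun m => ?_, ?_⟩
    · unfold RR
      rw [mem_filter]
      refine ⟨h1' m, d3 m, d1 m, d2 m, ?_⟩
      have := d4 m
      nlinarith
    · intro m m' hmm π hπ π' hπ'
      exact d5 m m' hmm π hπ π' hπ'
  · intro m
    refine ⟨?_, ?_⟩
    · rcases (S0 z S).eq_empty_or_nonempty with h0 | ⟨u₀, hu₀⟩
      · have h3 := d4 m
        rw [h0, card_empty]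
        nlinarith
      · have h3 := d6 m (fun _ => 1) ⟨u₀, hu₀, one_ne_zero⟩
        exact h3.le.trans (card_filter_le _ _)
    · intro v hv
      have h3 := d6 m v hv
      have h4 : 0 < ((la z (S m)).filter fun π => ∑ u ∈ S0 z S, v u * cs u π ≠ 0).card :=
        lt_of_le_of_lt (Nat.zero_le _) h3
      obtain ⟨π, hπ⟩ := card_pos.1 h4
      rw [mem_filter] at hπ
      exact ⟨π, hπ.1, hπ.2⟩

/-- the lower bound -/
theorem low {M : ℕ} (hLo : S_LOW) (R : Set (Fin M → ℕ)) (hR : ∃ r ∈ R, ∀ m, r m = 4 ∨ r m = 7) :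
    ∃ (c : ℝ) (X₀ : ℕ), 0 < c ∧ ∀ X : ℕ, X₀ ≤ X →
      c * (X : ℝ) ^ M ≤ (((TT M X).filter (CondT R)).card : ℝ) := by
  obtain ⟨r, hr, hrm⟩ := hR
  choose c X₀ hc hlow using fun m => hLo (r m) (hrm m)
  refine ⟨∏ m, c m, ∑ m, X₀ m, prod_pos fun m _ => hc m, fun X hX => ?_⟩
  have h1 : Fintype.piFinset (fun m => (SS X).filter fun S => (∏ π ∈ S, nrm π) % 9 = r m) ⊆
      (TT M X).filter (CondT R) := by
    intro S hS
    rw [Fintype.mem_piFinset] at hS
    have hS' : ∀ m, S m ∈ SS X ∧ (∏ π ∈ S m, nrm π) % 9 = r m := fun m => by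
      have := hS m
      rwa [mem_filter] at this
    rw [mem_filter]
    refine ⟨?_, ?_⟩
    · unfold TT
      rw [Fintype.mem_piFinset]
      exact fun m => (hS' m).1
    · unfold CondT
      have e : (fun m => (∏ π ∈ S m, nrm π) % 9) = r := funext fun m => (hS' m).2
      rw [e]
      exact hr
  have h2 : ((Fintype.piFinset (fun m => (SS X).filter
      fun S => (∏ π ∈ S, nrm π) % 9 = r m)).card : ℝ) ≤
      (((TT M X).filter (CondT R)).card : ℝ) := by exact_mod_cast card_le_card h1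
  refine le_trans ?_ h2
  rw [Fintype.card_piFinset, Nat.cast_prod]
  calc (∏ m, c m) * (X : ℝ) ^ M = ∏ m, c m * (X : ℝ) := by
        rw [prod_mul_distrib, prod_const, card_univ, Fintype.card_fin]
    _ ≤ _ := prod_le_prod (fun m _ => mul_nonneg (hc m).le (Nat.cast_nonneg _)) fun m _ =>
        hlow m X (le_trans (single_le_sum (f := X₀) (fun _ _ => Nat.zero_le _) (mem_univ m)) hX)

end DQp

open DQp in
theorem t_DQ (hBIL : S_BIL) (hKEY : S_KEY) (hBOX : S_BOX) (hCNT : S_CNT) (hCOL : S_COL)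
    (hND : S_ND) (hFEC : Pool.Agent.H451.JLM.S_FEC) (hLo : S_LOW) (hc9 : S_C9) : S_DQ := by
  intro k M W R hNP hR
  obtain ⟨c, X₀, hc, hlow⟩ := low hLo R hR
  refine ⟨⟨c, X₀, hc, hlow⟩, ?_⟩
  obtain ⟨D, hD⟩ := hCNT
  have hD1 := hD.one
  rw [Metric.tendsto_nhds]
  intro ε hε
  have hDM : 0 < D ^ M := by positivity
  obtain ⟨η, hη⟩ : ∃ η : ℝ, η = c * ε / (4 * D ^ M) := ⟨_, rfl⟩
  have hη0 : 0 < η := by rw [hη]; positivity
  obtain ⟨V, hV1, hV⟩ := hBOX k M W hNP η hη0
  obtain ⟨C, hC1, hkey⟩ := hKEY hBIL k M W R V η hη0.le hV1 hV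
  obtain ⟨δ, hδ⟩ : ∃ δ : ℝ, δ = c * ε / (4 * D ^ M * (4 * M + M * M + 1)) := ⟨_, rfl⟩
  have hM0 : (0 : ℝ) ≤ M := Nat.cast_nonneg M
  have hδ0 : 0 < δ := by rw [hδ]; positivity
  have s1 := sml_many hD δ hδ0
  have s2 := sml_cut hD δ hδ0
  have s3 := sml_coll hD δ hδ0
  have s4 := sml_eps (hFEC V) δ hδ0
  obtain ⟨X₁, s5⟩ := hCOL δ hδ0
  obtain ⟨X₂, s6⟩ := hND M V δ hδ0
  have s7 := main_err hC1 M (δ := c * ε / 4) (by positivity)
  filter_upwards [s1, s2, s3, s4, s7, ev_eL 1, eventually_ge_atTop X₀, eventually_ge_atTop X₁,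
    eventually_ge_atTop X₂] with X t1 t2 t3 t4 t7 hl hX0 hX1 hX2
  rw [neg_zero, zero_mul, Real.exp_zero, mul_one] at t1 t2 t3 t4
  have t5 := s5 X hX1
  have t6 := s6 X hX2
  have hl0 : 0 < eL X := by linarith
  have hlo := hlow X hX0
  have hXp := X_pos hl0
  have hXp' : (0 : ℝ) < X := by exact_mod_cast hXp
  have hN : (HH X : ℝ) * Real.log X < NN X := by
    unfold NN
    push_cast
    exact Nat.lt_floor_add_one _
  have hSSc : ((SS X).card : ℝ) ≤ D * X := hD.all X hXp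
  have hXD : (X : ℝ) ≤ D * X := by nlinarith
  have hXM : 0 < (X : ℝ) ^ M := by positivity
  have hβM : (D * (X : ℝ)) ^ M = D ^ M * (X : ℝ) ^ M := mul_pow _ _ _
  have hRTc : ((RT M X (zz X) (HH X) (kk X)).card : ℝ) ≤ (D * X) ^ M := by
    have h1 : RT M X (zz X) (HH X) (kk X) ⊆ TT M X := by
      intro S hS
      unfold RT at hS
      rw [mem_filter, Fintype.mem_piFinset] at hS
      unfold TT
      rw [Fintype.mem_piFinset]
      intro m
      have h2 := hS.1 m
      unfold RR at h2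
      rw [mem_filter] at h2
      exact h2.1
    calc ((RT M X (zz X) (HH X) (kk X)).card : ℝ) ≤ ((TT M X).card : ℝ) := by
          exact_mod_cast card_le_card h1
      _ = ((SS X).card : ℝ) ^ M := by rw [card_TT]; push_cast; rfl
      _ ≤ (D * X) ^ M := by gcongr
  have hc0 : (0 : ℝ) ≤ c9 ^ k := pow_nonneg hc9.2.1.le _
  have hc1 : c9 ^ k ≤ 1 := pow_le_one₀ hc9.2.1.le hc9.2.2.1.le
  have hmain := hkey X (zz X) (HH X) (kk X) (NN X) (kap C X) hXp (HH_pos hl0) (zz_pos hl)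
    (kap_nonneg hC1 X) (kap_pow hC1 hl) hN
  set A := (TT M X).filter (CondT R) with hA
  set B := (RT M X (zz X) (HH X) (kk X)).filter fun S => CondT R S ∧ NdT V (zz X) S with hB
  have hBG : (RT M X (zz X) (HH X) (kk X)).filter
      (fun S => (CondT R S ∧ NdT V (zz X) S) ∧ GW (wT W S) (UN S)) =
      B.filter fun S => GW (wT W S) (UN S) := by
    rw [hB, filter_filter]
  rw [hBG] at hmain
  have hBA : B ⊆ A := by
    intro S hS
    rw [hB, mem_filter] at hS
    rw [hA, mem_filter]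
    refine ⟨?_, hS.2.1⟩
    have h1 := hS.1
    unfold RT at h1
    rw [mem_filter, Fintype.mem_piFinset] at h1
    unfold TT
    rw [Fintype.mem_piFinset]
    intro m
    have h2 := h1.1 m
    unfold RR at h2
    rw [mem_filter] at h2
    exact h2.1
  have hcmp := cmpG (fun S => GW (wT W S) (UN S)) B A hBA (c9 ^ k) hc0 hc1
  have hMG : ((TT M X).filter fun S => CondT R S ∧ GW (wT W S) (UN S)) =
      A.filter fun S => GW (wT W S) (UN S) := by
    rw [hA, filter_filter]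
  -- the exceptional tuples
  have hβ0 : 0 ≤ D * (X : ℝ) := by positivity
  have hδβ : δ * X ≤ δ * (D * X) := mul_le_mul_of_nonneg_left hXD hδ0.le
  have hX2 : δ * (X : ℝ) ^ 2 ≤ δ * (D * X) ^ 2 := by gcongr
  have b6 : δ * (X : ℝ) ^ M ≤ δ * (D * X) ^ M := by gcongr
  have hout : ((A \ B).card : ℝ) ≤ (4 * M + M * M + 1) * (δ * (D * X) ^ M) := by
    refine (card_six (out_sub R X (zz X) (HH X) (kk X) V hV1)).trans ?_
    have e : (4 * (M : ℝ) + M * M + 1) * (δ * (D * X) ^ M) =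
        M * (δ * (D * X) ^ M) + M * (δ * (D * X) ^ M) + M * (δ * (D * X) ^ M) +
        M * (δ * (D * X) ^ M) + M * (M * (δ * (D * X) ^ M)) + δ * (D * X) ^ M := by ring
    rw [e]
    exact add_le_add (add_le_add (add_le_add (add_le_add (add_le_add
      (bd_one (fun s => kk X < s.card) hSSc hδ0.le (t1.trans hδβ))
      (bd_one (fun s => s.card ≤ kk X ∧
        X < (∏ π ∈ sm (zz X) s, nrm π) * ∏ π ∈ la (zz X) s, XX (HH X) (bl (HH X) π))
        hSSc hδ0.le (t2.trans hδβ)))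
      (bd_one (fun s => ¬ Set.InjOn (bl (HH X)) (la (zz X) s : Set Ei))
        hSSc hδ0.le (t3.trans hδβ)))
      (bd_one (fun s => s.card ≤ kk X ∧ (la (zz X) s).card ≤
        V * ((sm (zz X) s).card + 1)) hSSc hδ0.le (t4.trans hδβ)))
      (bd_two (fun s s' => ∃ π ∈ la (zz X) s, ∃ π' ∈ la (zz X) s',
        bl (HH X) π = bl (HH X) π') hSSc hδ0.le (t5.trans hX2)))
      (t6.trans b6)
  have hKc : (0 : ℝ) < 4 * M + M * M + 1 := by positivity
  have hout2 : ((A \ B).card : ℝ) ≤ c * ε / 4 * (X : ℝ) ^ M := by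
    refine hout.trans (le_of_eq ?_)
    rw [hδ, hβM]
    field_simp
  have hη2 : η * ((RT M X (zz X) (HH X) (kk X)).card : ℝ) ≤ c * ε / 4 * (X : ℝ) ^ M := by
    refine (mul_le_mul_of_nonneg_left hRTc hη0.le).trans (le_of_eq ?_)
    rw [hη, hβM]
    field_simp
  rw [Real.dist_eq, hMG]
  have hApos : (0 : ℝ) < (A.card : ℝ) := lt_of_lt_of_le (by positivity) hlo
  have e3 : ((A.filter fun S => GW (wT W S) (UN S)).card : ℝ) / (A.card : ℝ) - c9 ^ k =
      (((A.filter fun S => GW (wT W S) (UN S)).card : ℝ) - c9 ^ k * (A.card : ℝ)) /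
        (A.card : ℝ) := by
    field_simp
  rw [e3, abs_div, abs_of_pos hApos, div_lt_iff₀ hApos]
  have g4 : ε / 4 * (c * (X : ℝ) ^ M) ≤ ε / 4 * (A.card : ℝ) :=
    mul_le_mul_of_nonneg_left hlo (by positivity)
  have g5 : 0 < ε * (A.card : ℝ) := by positivity
  have g6 : c * ε / 4 * (X : ℝ) ^ M = ε / 4 * (c * (X : ℝ) ^ M) := by ring
  rw [g6] at hout2 hη2 t7
  linarith

end Pool.Agent.H451.JB
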