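import Mathlib
import Pool.Agent.H451.JB.Stm
import Pool.Graph.R_seed8.Y696.XL.Key3

/-!
# Project JB: the sum over the boxes for tuples of sets (adaptation of `Pool.Agent.H451.JLM.t_KEY`)
-/

set_option autoImplicit false

namespace Pool.Agent.H451.JB.KEY

open Finset
open Pool.Agent.Y692.QS (Ei w nr toC)
open Pool.Agent.Y715.T.Rec (cs)
open Pool.Agent.Y715.T.RecG (Pq)
open Pool.Agent.Y699.E (ez nrm QB mem_QB pq_nrm_two nrm_prod PS_prod PD SB mem_SB card_SB_le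
  hsum_SB lg)
open Pool.Agent.Y703.CX (jj XX)
open Pool.Agent.Y703.XK (Nd SS RR HB prs ext c9 sm la bl S_BIL S_EQ S_C9 S_CNT)
open Pool.Agent.XLK
open Pool.Agent.H451.JL (F sw nW GW)
open scoped Classical

/-- the statement for the boxes with the decidability of equality as a variable -/
theorem bxt_dec {k M : ℕ} {W : Fin k → Fin M → F} {V : ℕ} {ε : ℝ}
    (hB : BXT W V ε) (ι : Type) [Fintype ι] [inst : DecidableEq ι]
    (lo : LinearOrder ι) (C : ι → Finset Ei) (ν : ι → Fin M) (X : ι → ℕ) (κ : ℝ)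
    (S₀ : Finset Ei) (w₀ : Fin k → Ei → F) (h1 : 0 ≤ κ)
    (h2 : ∀ i, (C i).card ≤ X i) (h3 : HB C X κ) (h4 : ∀ u ∈ S₀, Pq u)
    (h5 : ∀ i, ∀ π ∈ C i, Pq π ∧ π ∉ S₀)
    (h6 : ∀ i l, i ≠ l → Disjoint (C i) (C l)) :
    |(((Fintype.piFinset C).filter fun p => NdP V ν S₀ p ∧
        GW (wB W ν w₀ S₀ p) (S₀ ∪ univ.image p)).card : ℝ) -
      c9 ^ k * (((Fintype.piFinset C).filter fun p => NdP V ν S₀ p).card : ℝ)| ≤
    ε * (((Fintype.piFinset C).filter fun p => NdP V ν S₀ p).card : ℝ) +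
    3 ^ (S₀.card * Fintype.card ι + (prs ι).card) * (κ * ∏ j, (X j : ℝ)) := by
  have h := hB ι C ν X κ S₀ w₀ h1 h2 h3 h4 h5 h6
  have e : inst = fun a b => lo.toDecidableEq a b := Subsingleton.elim _ _
  subst e
  exact h

/-! ### one set -/

section one
variable {X z H K V : ℕ} {S₀ : Finset Ei} {J : Finset ℕ}

theorem p_inj (hH : 1 ≤ H) {p : J → Ei} (hp : ∀ i : J, p i ∈ CC z H i) :
    Function.Injective p := by
  intro i j hij
  have h1 := ((mem_CC hH).1 (hp i)).2.2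
  have h2 := ((mem_CC hH).1 (hp j)).2.2
  rw [hij] at h1
  exact Subtype.ext (h1.symm.trans h2)

theorem fill_mem (hH : 1 ≤ H) (hkey : (S₀, J) ∈ (RR X z H K V).image (ky z H)) {p : J → Ei}
    (hp : ∀ i : J, p i ∈ CC z H i) : S₀ ∪ univ.image p ∈ RR X z H K V := by
  obtain ⟨h₀O, h₀, hJi, hCd, hJf⟩ := key_facts hH hkey
  have hk := ky_fill hH h₀ hp
  rw [mem_RR hH, hk]
  refine ⟨?_, ?_, hCd⟩
  · intro q hq
    rw [Finset.mem_union, Finset.mem_image] at hq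
    rcases hq with hq | ⟨i, -, rfl⟩
    · exact h₀O q hq
    · exact ((mem_CC hH).1 (hp i)).1
  · rw [la_fill hH h₀ hp]
    intro a ha b hb hab
    rw [Finset.mem_coe, Finset.mem_image] at ha hb
    obtain ⟨i, -, rfl⟩ := ha
    obtain ⟨j, -, rfl⟩ := hb
    have h1 := ((mem_CC hH).1 (hp i)).2.2
    have h2 := ((mem_CC hH).1 (hp j)).2.2
    have h3 : i.1 / 9 = j.1 / 9 := by
      rw [← h1, ← h2, ph_div, ph_div]
      exact hab
    have h4 : i = j := Subtype.ext (hJi (Finset.mem_coe.2 i.2) (Finset.mem_coe.2 j.2) h3)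
    rw [h4]

theorem fill_inj (hH : 1 ≤ H) (h₀ : ∀ q ∈ S₀, nrm q ≤ z) {p p' : J → Ei}
    (hp : ∀ i : J, p i ∈ CC z H i) (hp' : ∀ i : J, p' i ∈ CC z H i)
    (h : S₀ ∪ univ.image p = S₀ ∪ univ.image p') : p = p' := by
  have h1 := la_fill hH h₀ hp
  rw [h, la_fill hH h₀ hp'] at h1
  funext i
  have h2 : p i ∈ univ.image p' := by
    rw [h1]
    exact Finset.mem_image_of_mem _ (Finset.mem_univ _)
  rw [Finset.mem_image] at h2
  obtain ⟨j, -, hj⟩ := h2
  have h3 := ((mem_CC hH).1 (hp i)).2.2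
  have h4 := ((mem_CC hH).1 (hp' j)).2.2
  rw [hj, h3] at h4
  rw [← hj, Subtype.ext h4]

theorem fill_surj (hH : 1 ≤ H) {S : Finset Ei} (hS : S ∈ RR X z H K V)
    (hSk : ky z H S = (S₀, J)) :
    ∃ p : J → Ei, (∀ i : J, p i ∈ CC z H i) ∧ S₀ ∪ univ.image p = S := by
  rw [mem_RR hH] at hS
  obtain ⟨hSO, hSI, -⟩ := hS
  have hk1 : sm z S = S₀ := congrArg Prod.fst hSk
  have hk2 : (la z S).image (ph H) = J := congrArg Prod.snd hSk
  have hex : ∀ i : J, ∃ q ∈ la z S, ph H q = i := by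
    rintro ⟨i, hi⟩
    rw [← hk2, Finset.mem_image] at hi
    exact hi
  choose p hp1 hp2 using hex
  have him : univ.image p = la z S := by
    ext q
    rw [Finset.mem_image]
    constructor
    · rintro ⟨i, -, rfl⟩
      exact hp1 i
    · intro hq
      have hjq : ph H q ∈ J := by
        rw [← hk2]
        exact Finset.mem_image_of_mem _ hq
      exact ⟨⟨ph H q, hjq⟩, Finset.mem_univ _, ph_inj hSI (Finset.mem_coe.2 (hp1 _))
        (Finset.mem_coe.2 hq) (hp2 ⟨ph H q, hjq⟩)⟩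
  refine ⟨p, fun i => (mem_CC hH).2 ⟨hSO _ (Finset.mem_filter.1 (hp1 i)).1,
    not_le.1 (Finset.mem_filter.1 (hp1 i)).2, hp2 i⟩, ?_⟩
  rw [him, ← hk1, sm_union]

/-- the norm of a filled set modulo `9` -/
theorem prod_fill (hH : 1 ≤ H) (h₀ : ∀ q ∈ S₀, nrm q ≤ z) {p : J → Ei}
    (hp : ∀ i : J, p i ∈ CC z H i) :
    (∏ π ∈ S₀ ∪ univ.image p, nrm π) % 9 = ((∏ π ∈ S₀, nrm π) * ∏ i ∈ J, i) % 9 := by
  rw [prod_split z (S₀ ∪ univ.image p), sm_fill hH h₀ hp, la_fill hH h₀ hp, Nat.mul_mod,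
    prod_mod (univ.image p) H, ← Nat.mul_mod, Finset.prod_image fun a _ b _ h => p_inj hH hp h]
  congr 2
  rw [← Finset.prod_coe_sort J (fun i => i)]
  exact Finset.prod_congr rfl fun i _ => ((mem_CC hH).1 (hp i)).2.2

end one

/-! ### tuples -/

/-- the key of a tuple -/
noncomputable def KY {M : ℕ} (z H : ℕ) (S : Fin M → Finset Ei) :
    Fin M → Finset Ei × Finset ℕ := fun m => ky z H (S m)

/-- the indices of a key -/
abbrev Ix {M : ℕ} (kk : Fin M → Finset Ei × Finset ℕ) : Type := Σ m : Fin M, ↥(kk m).2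

/-- the tuple with a given key and given large primes -/
noncomputable def fill {M : ℕ} (kk : Fin M → Finset Ei × Finset ℕ) (p : Ix kk → Ei) (m : Fin M) :
    Finset Ei := (kk m).1 ∪ univ.image fun i : (kk m).2 => p ⟨m, i⟩

/-- all the small primes of a key -/
noncomputable def U0 {M : ℕ} (kk : Fin M → Finset Ei × Finset ℕ) : Finset Ei :=
  UN fun m => (kk m).1

theorem mem_UN {M : ℕ} {S : Fin M → Finset Ei} {π : Ei} : π ∈ UN S ↔ ∃ m, π ∈ S m := by
  unfold UN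
  simp

theorem mem_RT {M X z H K : ℕ} {S : Fin M → Finset Ei} :
    S ∈ RT M X z H K ↔ (∀ m, S m ∈ RR X z H K 0) ∧ Dj z H S := by
  unfold RT
  rw [Finset.mem_filter, Fintype.mem_piFinset]

/-- the blocks of different sets of a key are different -/
def DjK {M : ℕ} (kk : Fin M → Finset Ei × Finset ℕ) : Prop :=
  ∀ m m' : Fin M, m ≠ m' → ∀ i ∈ (kk m).2, ∀ i' ∈ (kk m').2, i / 9 ≠ i' / 9

section tup
variable {M X z H K V : ℕ} {kk : Fin M → Finset Ei × Finset ℕ}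

theorem key_m (hkey : kk ∈ (RT M X z H K).image (KY z H)) (m : Fin M) :
    ((kk m).1, (kk m).2) ∈ (RR X z H K 0).image (ky z H) := by
  rw [Finset.mem_image] at hkey
  obtain ⟨S, hS, rfl⟩ := hkey
  rw [mem_RT] at hS
  exact Finset.mem_image_of_mem _ (hS.1 m)

theorem key_dj (hkey : kk ∈ (RT M X z H K).image (KY z H)) : DjK kk := by
  rw [Finset.mem_image] at hkey
  obtain ⟨S, hS, rfl⟩ := hkey
  rw [mem_RT] at hS
  intro m m' hm i hi i' hi'
  have h1 : i ∈ (la z (S m)).image (ph H) := hi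
  have h2 : i' ∈ (la z (S m')).image (ph H) := hi'
  rw [Finset.mem_image] at h1 h2
  obtain ⟨q, hq, rfl⟩ := h1
  obtain ⟨q', hq', rfl⟩ := h2
  rw [ph_div, ph_div]
  exact hS.2 m m' hm q hq q' hq'

theorem val_inj (hd : DjK kk) : Function.Injective fun i : Ix kk => (i.2 : ℕ) := by
  rintro ⟨m, i⟩ ⟨m', i'⟩ h
  have h' : (i : ℕ) = i' := h
  by_cases hm : m = m'
  · subst hm
    rw [Subtype.ext h']
  · exact absurd (by rw [h']) (hd m m' hm i i.2 i' i'.2)

theorem ix_inj (hH : 1 ≤ H) (hd : DjK kk) {p : Ix kk → Ei} (hp : ∀ i, p i ∈ CC z H i.2) :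
    Function.Injective p := by
  intro i j hij
  have h1 := ((mem_CC hH).1 (hp i)).2.2
  have h2 := ((mem_CC hH).1 (hp j)).2.2
  rw [hij] at h1
  exact val_inj hd (h1.symm.trans h2)

theorem ky_fillT (hH : 1 ≤ H) (h₀ : ∀ m, ∀ q ∈ (kk m).1, nrm q ≤ z) {p : Ix kk → Ei}
    (hp : ∀ i, p i ∈ CC z H i.2) : KY z H (fill kk p) = kk := by
  funext m
  exact ky_fill hH (h₀ m) fun i => hp ⟨m, i⟩

theorem dj_fill (hH : 1 ≤ H) (h₀ : ∀ m, ∀ q ∈ (kk m).1, nrm q ≤ z) (hd : DjK kk)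
    {p : Ix kk → Ei} (hp : ∀ i, p i ∈ CC z H i.2) : Dj z H (fill kk p) := by
  intro m m' hm q hq q' hq'
  unfold fill at hq hq'
  rw [la_fill hH (h₀ m) fun i => hp ⟨m, i⟩, Finset.mem_image] at hq
  rw [la_fill hH (h₀ m') fun i => hp ⟨m', i⟩, Finset.mem_image] at hq'
  obtain ⟨i, -, rfl⟩ := hq
  obtain ⟨i', -, rfl⟩ := hq'
  rw [← ph_div, ← ph_div H (p ⟨m', i'⟩), ((mem_CC hH).1 (hp ⟨m, i⟩)).2.2,
    ((mem_CC hH).1 (hp ⟨m', i'⟩)).2.2]
  exact hd m m' hm i i.2 i' i'.2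

theorem key_bijT (hH : 1 ≤ H) (hkey : kk ∈ (RT M X z H K).image (KY z H))
    (P : (Fin M → Finset Ei) → Prop) :
    ((Fintype.piFinset fun i : Ix kk => CC z H i.2).filter fun p => P (fill kk p)).card =
      ((RT M X z H K).filter fun S => KY z H S = kk ∧ P S).card := by
  have hf := fun m => key_facts hH (key_m hkey m)
  have h₀ : ∀ m, ∀ q ∈ (kk m).1, nrm q ≤ z := fun m => (hf m).2.1
  have hd := key_dj hkey
  apply Finset.card_bij (fun (p : Ix kk → Ei) _ => fill kk p)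
  · intro p hp
    rw [Finset.mem_filter, Fintype.mem_piFinset] at hp
    obtain ⟨hp, hP⟩ := hp
    rw [Finset.mem_filter, mem_RT]
    exact ⟨⟨fun m => fill_mem hH (key_m hkey m) fun i => hp ⟨m, i⟩, dj_fill hH h₀ hd hp⟩,
      ky_fillT hH h₀ hp, hP⟩
  · intro p hp p' hp' h
    rw [Finset.mem_filter, Fintype.mem_piFinset] at hp hp'
    funext ⟨m, i⟩
    have h1 := congrFun h m
    have h2 := fill_inj hH (h₀ m) (fun i => hp.1 ⟨m, i⟩) (fun i => hp'.1 ⟨m, i⟩) h1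
    exact congrFun h2 i
  · intro S hS
    rw [Finset.mem_filter, mem_RT] at hS
    obtain ⟨⟨hSR, -⟩, hSk, hSP⟩ := hS
    have hex : ∀ m, ∃ p : (kk m).2 → Ei, (∀ i : (kk m).2, p i ∈ CC z H i) ∧
        (kk m).1 ∪ univ.image p = S m := fun m =>
      fill_surj hH (hSR m) (congrFun hSk m)
    choose p hp1 hp2 using hex
    have hSe : fill kk (fun i => p i.1 i.2) = S := funext fun m => hp2 m
    refine ⟨fun i => p i.1 i.2, ?_, hSe⟩
    rw [Finset.mem_filter, Fintype.mem_piFinset, hSe]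
    exact ⟨fun i => hp1 i.1 i.2, hSP⟩

theorem un_fill {p : Ix kk → Ei} : UN (fill kk p) = U0 kk ∪ univ.image p := by
  ext π
  unfold U0
  rw [mem_UN, Finset.mem_union, mem_UN, Finset.mem_image]
  constructor
  · rintro ⟨m, hm⟩
    unfold fill at hm
    rw [Finset.mem_union, Finset.mem_image] at hm
    rcases hm with hm | ⟨i, -, rfl⟩
    · exact Or.inl ⟨m, hm⟩
    · exact Or.inr ⟨⟨m, i⟩, Finset.mem_univ _, rfl⟩
  · rintro (⟨m, hm⟩ | ⟨⟨m, i⟩, -, rfl⟩)
    · exact ⟨m, Finset.mem_union_left _ hm⟩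
    · exact ⟨m, Finset.mem_union_right _ (Finset.mem_image_of_mem _ (Finset.mem_univ i))⟩

theorem s0_fill (hH : 1 ≤ H) (h₀ : ∀ m, ∀ q ∈ (kk m).1, nrm q ≤ z) {p : Ix kk → Ei}
    (hp : ∀ i, p i ∈ CC z H i.2) : S0 z (fill kk p) = U0 kk := by
  unfold S0 U0
  congr 1
  funext m
  exact sm_fill hH (h₀ m) fun i => hp ⟨m, i⟩

theorem ndT_fill (hH : 1 ≤ H) (h₀ : ∀ m, ∀ q ∈ (kk m).1, nrm q ≤ z) {p : Ix kk → Ei}
    (hp : ∀ i, p i ∈ CC z H i.2) (V : ℕ) :
    NdT V z (fill kk p) ↔ NdP V (fun i : Ix kk => i.1) (U0 kk) p := by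
  unfold NdT NdP
  rw [s0_fill hH h₀ hp]
  refine forall_congr' fun m => ?_
  have e1 : la z (fill kk p m) = univ.image fun i : (kk m).2 => p ⟨m, i⟩ :=
    la_fill hH (h₀ m) fun i => hp ⟨m, i⟩
  have e2 : (la z (fill kk p m)).card = (univ.filter fun i : Ix kk => i.1 = m).card := by
    rw [e1, Finset.card_image_of_injective _ (p_inj hH fun i => hp ⟨m, i⟩)]
    have e3 : (univ.filter fun i : Ix kk => i.1 = m) =
        (univ : Finset (kk m).2).image fun i => (⟨m, i⟩ : Ix kk) := by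
      ext ⟨m', i⟩
      rw [Finset.mem_filter, Finset.mem_image]
      constructor
      · rintro ⟨-, h⟩
        have h' : m' = m := h
        subst h'
        exact ⟨i, Finset.mem_univ _, rfl⟩
      · rintro ⟨i', -, h⟩
        exact ⟨Finset.mem_univ _, (congrArg Sigma.fst h).symm⟩
    rw [e3, Finset.card_image_of_injective _ sigma_mk_injective]
  rw [e2]
  refine and_congr Iff.rfl ?_
  unfold Nd
  refine forall_congr' fun v => imp_congr Iff.rfl ?_
  rw [e1]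
  constructor
  · rintro ⟨π, hπ, h⟩
    rw [Finset.mem_image] at hπ
    obtain ⟨i, -, rfl⟩ := hπ
    exact ⟨⟨m, i⟩, rfl, h⟩
  · rintro ⟨⟨m', i⟩, h', h⟩
    have h'' : m' = m := h'
    subst h''
    exact ⟨_, Finset.mem_image_of_mem _ (Finset.mem_univ i), h⟩

theorem wT_fill {k : ℕ} (hH : 1 ≤ H) (h₀ : ∀ m, ∀ q ∈ (kk m).1, nrm q ≤ z)
    {p : Ix kk → Ei} (hp : ∀ i, p i ∈ CC z H i.2) (W : Fin k → Fin M → F) :
    wT W (fill kk p) = wB W (fun i : Ix kk => i.1) (wT W fun m => (kk m).1) (U0 kk) p := by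
  funext j π
  unfold wB
  by_cases hπ : π ∈ U0 kk
  · rw [if_pos hπ]
    unfold wT
    refine Finset.sum_congr rfl fun m _ => ?_
    have e : π ∈ fill kk p m ↔ π ∈ (kk m).1 := by
      unfold fill
      rw [Finset.mem_union, Finset.mem_image]
      constructor
      · rintro (h | ⟨i, -, rfl⟩)
        · exact h
        · exfalso
          unfold U0 at hπ
          rw [mem_UN] at hπ
          obtain ⟨m', hm'⟩ := hπ
          have h1 := h₀ m' _ hm'
          have h2 := ((mem_CC hH).1 (hp ⟨m, i⟩)).2.1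
          omega
      · exact Or.inl
    simp only [e]
  · rw [if_neg hπ]
    unfold wT
    rw [Fintype.sum_sigma]
    refine Finset.sum_congr rfl fun m _ => ?_
    have hπm : π ∉ (kk m).1 := fun h => hπ (by unfold U0; exact mem_UN.2 ⟨m, h⟩)
    have hinj := p_inj hH fun i => hp ⟨m, i⟩
    by_cases h : ∃ i : (kk m).2, p ⟨m, i⟩ = π
    · obtain ⟨i, hi⟩ := h
      have e : π ∈ fill kk p m := by
        unfold fill
        rw [Finset.mem_union, Finset.mem_image]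
        exact Or.inr ⟨i, Finset.mem_univ _, hi⟩
      rw [if_pos e, Finset.sum_eq_single i]
      · rw [if_pos hi]
      · intro i' _ hne
        rw [if_neg]
        intro h'
        exact hne (hinj (h'.trans hi.symm))
      · intro h'
        exact absurd (Finset.mem_univ _) h'
    · have e : π ∉ fill kk p m := by
        unfold fill
        rw [Finset.mem_union, Finset.mem_image]
        rintro (h' | ⟨i, -, hi⟩)
        · exact hπm h'
        · exact h ⟨i, hi⟩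
      rw [if_neg e]
      symm
      refine Finset.sum_eq_zero fun i _ => ?_
      rw [if_neg fun h' => h ⟨i, h'⟩]

/-- the residues of a key -/
def ResT (R : Set (Fin M → ℕ)) (kk : Fin M → Finset Ei × Finset ℕ) : Prop :=
  (fun m => ((∏ π ∈ (kk m).1, nrm π) * ∏ i ∈ (kk m).2, i) % 9) ∈ R

theorem cond_fill (hH : 1 ≤ H) (h₀ : ∀ m, ∀ q ∈ (kk m).1, nrm q ≤ z) {p : Ix kk → Ei}
    (hp : ∀ i, p i ∈ CC z H i.2) (R : Set (Fin M → ℕ)) : CondT R (fill kk p) ↔ ResT R kk := by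
  unfold CondT ResT
  have e : (fun m => (∏ π ∈ fill kk p m, nrm π) % 9) =
      fun m => ((∏ π ∈ (kk m).1, nrm π) * ∏ i ∈ (kk m).2, i) % 9 :=
    funext fun m => prod_fill hH (h₀ m) fun i => hp ⟨m, i⟩
  rw [e]

end tup

/-- the error of a key -/
theorem err_key {M X z H K : ℕ} (hH : 1 ≤ H) {κ : ℝ} (hκ : 0 ≤ κ)
    {kk : Fin M → Finset Ei × Finset ℕ} (hkey : kk ∈ (RT M X z H K).image (KY z H)) {m₀ : ℕ}
    (hm₀ : m₀ ≤ Fintype.card (Ix kk) * Fintype.card (Ix kk)) :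
    (3 : ℝ) ^ ((U0 kk).card * Fintype.card (Ix kk) + m₀) *
      (κ * ∏ j : Ix kk, ((16 * XX H ((j.2 : ℕ) / 9) : ℕ) : ℝ)) ≤
      (3 ^ (9 * (M * K) ^ 2) * κ) *
        ∏ m, ((X : ℝ) * (1 / ((∏ p ∈ (kk m).1, nrm p : ℕ) : ℝ))) := by
  have hf := fun m => key_facts hH (key_m hkey m)
  have hN0 : ∀ m, (0 : ℝ) < ((∏ p ∈ (kk m).1, nrm p : ℕ) : ℝ) := fun m => by
    exact_mod_cast Finset.prod_pos fun p hp => nrm_one_le ((hf m).1 p hp)
  have hcI : Fintype.card (Ix kk) = ∑ m, (kk m).2.card := by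
    rw [Fintype.card_sigma]
    exact Finset.sum_congr rfl fun m _ => Fintype.card_coe _
  have hI : Fintype.card (Ix kk) ≤ M * K := by
    rw [hcI]
    refine (Finset.sum_le_card_nsmul univ _ K fun m _ => ?_).trans ?_
    · have := (hf m).2.2.2.1.2.1
      omega
    · rw [Finset.card_univ, Fintype.card_fin, smul_eq_mul]
  have hU : (U0 kk).card ≤ M * K := by
    unfold U0 UN
    refine Finset.card_biUnion_le.trans ?_
    refine (Finset.sum_le_card_nsmul univ _ K fun m _ => ?_).trans ?_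
    · have := (hf m).2.2.2.1.2.1
      omega
    · rw [Finset.card_univ, Fintype.card_fin, smul_eq_mul]
  set c := Fintype.card (Ix kk) with hc
  have hpr : m₀ ≤ (M * K) * (M * K) := hm₀.trans (Nat.mul_le_mul hI hI)
  have hPr0 : (0 : ℝ) ≤ ∏ m, ((X : ℝ) * (1 / ((∏ p ∈ (kk m).1, nrm p : ℕ) : ℝ))) :=
    Finset.prod_nonneg fun m _ => by
      have := hN0 m
      positivity
  have hprod : ∏ j : Ix kk, ((16 * XX H ((j.2 : ℕ) / 9) : ℕ) : ℝ) ≤
      3 ^ (3 * (M * K)) * ∏ m, ((X : ℝ) * (1 / ((∏ p ∈ (kk m).1, nrm p : ℕ) : ℝ))) := by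
    have h5 : ∏ j : Ix kk, ((16 * XX H ((j.2 : ℕ) / 9) : ℕ) : ℝ) =
        16 ^ c * ∏ m, ((∏ i ∈ (kk m).2, XX H (i / 9) : ℕ) : ℝ) := by
      push_cast
      rw [Finset.prod_mul_distrib, Finset.prod_const, Finset.card_univ, ← hc,
        Fintype.prod_sigma]
      congr 1
      refine Finset.prod_congr rfl fun m _ => ?_
      exact Finset.prod_coe_sort (kk m).2 (fun i => ((XX H (i / 9) : ℕ) : ℝ))
    have h6 : ∏ m, ((∏ i ∈ (kk m).2, XX H (i / 9) : ℕ) : ℝ) ≤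
        ∏ m, ((X : ℝ) * (1 / ((∏ p ∈ (kk m).1, nrm p : ℕ) : ℝ))) := by
      refine Finset.prod_le_prod (fun m _ => Nat.cast_nonneg _) fun m _ => ?_
      rw [mul_one_div, le_div_iff₀ (hN0 m), mul_comm]
      exact_mod_cast (hf m).2.2.2.1.2.2.1
    have h7 : (16 : ℝ) ^ c ≤ 3 ^ (3 * (M * K)) := by
      calc (16 : ℝ) ^ c ≤ 27 ^ c := pow_le_pow_left₀ (by norm_num) (by norm_num) _
        _ = 3 ^ (3 * c) := by rw [pow_mul]; norm_num
        _ ≤ 3 ^ (3 * (M * K)) := pow_le_pow_right₀ (by norm_num) (by omega)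
    rw [h5]
    gcongr
  have hpw : (3 : ℝ) ^ ((U0 kk).card * c + m₀) * 3 ^ (3 * (M * K)) ≤
      3 ^ (9 * (M * K) ^ 2) := by
    rw [← pow_add]
    apply pow_le_pow_right₀ (by norm_num)
    have h5 : (U0 kk).card * c ≤ (M * K) * (M * K) := Nat.mul_le_mul hU hI
    have h6 : M * K ≤ (M * K) * (M * K) := by
      rcases Nat.eq_zero_or_pos (M * K) with h | h
      · rw [h]
      · exact Nat.le_mul_of_pos_left _ h
    nlinarith
  calc (3 : ℝ) ^ ((U0 kk).card * c + m₀) *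
      (κ * ∏ j : Ix kk, ((16 * XX H ((j.2 : ℕ) / 9) : ℕ) : ℝ)) ≤
      3 ^ ((U0 kk).card * c + m₀) *
        (κ * (3 ^ (3 * (M * K)) *
          ∏ m, ((X : ℝ) * (1 / ((∏ p ∈ (kk m).1, nrm p : ℕ) : ℝ))))) := by gcongr
    _ = (3 ^ ((U0 kk).card * c + m₀) * 3 ^ (3 * (M * K))) *
        (κ * ∏ m, ((X : ℝ) * (1 / ((∏ p ∈ (kk m).1, nrm p : ℕ) : ℝ)))) := by ring
    _ ≤ 3 ^ (9 * (M * K) ^ 2) *
        (κ * ∏ m, ((X : ℝ) * (1 / ((∏ p ∈ (kk m).1, nrm p : ℕ) : ℝ)))) := by gcongr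
    _ = _ := by ring

theorem per_keyT {k M : ℕ} {W : Fin k → Fin M → F} {R : Set (Fin M → ℕ)} {V : ℕ} {ε : ℝ}
    (hB : BXT W V ε) (hε : 0 ≤ ε) {C₁ : ℝ}
    (hb1 : ∀ (P Q : Finset Ei) (A B z : ℕ) (c d : Ei → ℂ) (a : ZMod 3),
      (∀ π ∈ P, Pq π ∧ nrm π ≤ A) → (∀ ρ ∈ Q, Pq ρ ∧ nrm ρ ≤ B) → Disjoint P Q → a ≠ 0 →
      1 ≤ z → z ≤ A → z ≤ B → (∀ π, ‖c π‖ ≤ 1) → (∀ ρ, ‖d ρ‖ ≤ 1) →
      ‖∑ π ∈ P, ∑ ρ ∈ Q, c π * d ρ * ez (a * cs π ρ)‖ ^ 24 * z ≤ C₁ * ((A : ℝ) * B) ^ 24)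
    {X z H K : ℕ} {κ : ℝ} (hH : 1 ≤ H) (hz : 1 ≤ z) (hκ : 0 ≤ κ)
    (h1 : C₁ ≤ κ ^ 24 * z)
    {kk : Fin M → Finset Ei × Finset ℕ} (hkey : kk ∈ (RT M X z H K).image (KY z H)) :
    |(((RT M X z H K).filter fun S => KY z H S = kk ∧
        ((CondT R S ∧ NdT V z S) ∧ GW (wT W S) (UN S))).card : ℝ) -
      c9 ^ k * (((RT M X z H K).filter fun S => KY z H S = kk ∧
        (CondT R S ∧ NdT V z S)).card : ℝ)| ≤
    ε * (((RT M X z H K).filter fun S => KY z H S = kk ∧ True).card : ℝ) +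
      (3 ^ (9 * (M * K) ^ 2) * κ) *
        ∏ m, ((X : ℝ) * (1 / ((∏ p ∈ (kk m).1, nrm p : ℕ) : ℝ))) := by
  have hf := fun m => key_facts hH (key_m hkey m)
  have h₀O : ∀ m, ∀ q ∈ (kk m).1, Pq q := fun m => (hf m).1
  have h₀ : ∀ m, ∀ q ∈ (kk m).1, nrm q ≤ z := fun m => (hf m).2.1
  have hd := key_dj hkey
  have hN0 : ∀ m, (0 : ℝ) < ((∏ p ∈ (kk m).1, nrm p : ℕ) : ℝ) := fun m => by
    exact_mod_cast Finset.prod_pos fun p hp => nrm_one_le (h₀O m p hp)
  have hCmem : ∀ i : Ix kk, ∀ p ∈ CC z H i.2, Pq p ∧ z < nrm p ∧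
      nrm p ≤ XX H ((i.2 : ℕ) / 9) := by
    intro i p hp
    obtain ⟨k1, k2, k3⟩ := (mem_CC hH).1 hp
    refine ⟨k1, k2, ?_⟩
    unfold CC at hp
    rw [Finset.mem_filter, mem_QB] at hp
    exact hp.1.1
  have hdis : ∀ i l : Ix kk, i ≠ l → Disjoint (CC z H (i.2 : ℕ)) (CC z H (l.2 : ℕ)) := by
    intro i l hil
    rw [Finset.disjoint_left]
    intro p hp hp'
    have h5 := ((mem_CC hH).1 hp).2.2
    have h6 := ((mem_CC hH).1 hp').2.2
    exact hil (val_inj hd (h5.symm.trans h6))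
  have hzX : ∀ i : Ix kk, z ≤ XX H ((i.2 : ℕ) / 9) := fun i =>
    ((hf i.1).2.2.2.2 i.2 i.2.2).1
  have hP0 : (0 : ℝ) ≤ ∏ m, ((X : ℝ) * (1 / ((∏ p ∈ (kk m).1, nrm p : ℕ) : ℝ))) :=
    Finset.prod_nonneg fun m _ => by
      have := hN0 m
      positivity
  have hE0 : (0 : ℝ) ≤ (3 ^ (9 * (M * K) ^ 2) * κ) *
      ∏ m, ((X : ℝ) * (1 / ((∏ p ∈ (kk m).1, nrm p : ℕ) : ℝ))) := by positivity
  -- the counts
  have e1 : ((RT M X z H K).filter fun S => KY z H S = kk ∧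
      ((CondT R S ∧ NdT V z S) ∧ GW (wT W S) (UN S))).card =
      ((Fintype.piFinset fun i : Ix kk => CC z H i.2).filter fun p =>
        ResT R kk ∧ (NdP V (fun i : Ix kk => i.1) (U0 kk) p ∧
          GW (wB W (fun i : Ix kk => i.1) (wT W fun m => (kk m).1) (U0 kk) p)
            (U0 kk ∪ univ.image p))).card := by
    refine ((fcc fun _ _ => Iff.rfl).trans (key_bijT hH hkey (fun S => (CondT R S ∧
      NdT V z S) ∧ GW (wT W S) (UN S))).symm).trans ?_
    refine fcc ?_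
    intro p hp
    rw [Fintype.mem_piFinset] at hp
    rw [cond_fill hH h₀ hp, ndT_fill hH h₀ hp, wT_fill hH h₀ hp, un_fill]
    tauto
  have e2 : ((RT M X z H K).filter fun S => KY z H S = kk ∧
      (CondT R S ∧ NdT V z S)).card =
      ((Fintype.piFinset fun i : Ix kk => CC z H i.2).filter fun p =>
        ResT R kk ∧ NdP V (fun i : Ix kk => i.1) (U0 kk) p).card := by
    refine ((fcc fun _ _ => Iff.rfl).trans (key_bijT hH hkey (fun S => CondT R S ∧
      NdT V z S)).symm).trans ?_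
    refine fcc ?_
    intro p hp
    rw [Fintype.mem_piFinset] at hp
    rw [cond_fill hH h₀ hp, ndT_fill hH h₀ hp]
  have e3 : (((RT M X z H K).filter fun S => KY z H S = kk ∧
      (CondT R S ∧ NdT V z S)).card : ℝ) ≤
      (((RT M X z H K).filter fun S => KY z H S = kk ∧ True).card : ℝ) := by
    have : (RT M X z H K).filter (fun S => KY z H S = kk ∧ (CondT R S ∧ NdT V z S)) ⊆
        (RT M X z H K).filter fun S => KY z H S = kk ∧ True := by
      intro S hS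
      rw [Finset.mem_filter] at hS ⊢
      exact ⟨hS.1, hS.2.1, trivial⟩
    exact_mod_cast Finset.card_le_card this
  rw [e1, e2]
  rw [e2] at e3
  by_cases hr : ResT R kk
  · have hHB : HB (fun i : Ix kk => CC z H i.2)
        (fun i : Ix kk => 16 * XX H ((i.2 : ℕ) / 9)) κ :=
      hb_box hb1 _ _ hz hκ h1 (fun i => by have := hzX i; omega)
        (fun i p hp => by
          obtain ⟨k1, k2, k3⟩ := hCmem i p hp
          exact ⟨k1, by omega⟩) hdis
    have hcard : ∀ i : Ix kk, (CC z H (i.2 : ℕ)).card ≤ 16 * XX H ((i.2 : ℕ) / 9) := by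
      intro i
      refine (Finset.card_filter_le _ _).trans (card_QB_le ?_)
      have := hzX i
      omega
    let lo : LinearOrder (Ix kk) := LinearOrder.lift' (fun i : Ix kk => (i.2 : ℕ)) (val_inj hd)
    have hbox := bxt_dec hB (Ix kk) lo (fun i : Ix kk => CC z H i.2)
      (fun i : Ix kk => i.1) (fun i : Ix kk => 16 * XX H ((i.2 : ℕ) / 9)) κ (U0 kk)
      (wT W fun m => (kk m).1) hκ hcard hHB (fun u hu => by
        unfold U0 at hu
        rw [mem_UN] at hu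
        obtain ⟨m, hm⟩ := hu
        exact h₀O m u hm) (fun i p hp => by
        obtain ⟨k1, k2, k3⟩ := hCmem i p hp
        refine ⟨k1, fun h => ?_⟩
        unfold U0 at h
        rw [mem_UN] at h
        obtain ⟨m, hm⟩ := h
        have := h₀ m p hm
        omega) hdis
    have hErr := err_key hH hκ hkey (prs_card (Ix kk))
    have f1 : ((Fintype.piFinset fun i : Ix kk => CC z H i.2).filter fun p =>
        ResT R kk ∧ (NdP V (fun i : Ix kk => i.1) (U0 kk) p ∧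
          GW (wB W (fun i : Ix kk => i.1) (wT W fun m => (kk m).1) (U0 kk) p)
            (U0 kk ∪ univ.image p))).card =
        ((Fintype.piFinset fun i : Ix kk => CC z H i.2).filter fun p =>
        NdP V (fun i : Ix kk => i.1) (U0 kk) p ∧
          GW (wB W (fun i : Ix kk => i.1) (wT W fun m => (kk m).1) (U0 kk) p)
            (U0 kk ∪ univ.image p)).card :=
      fcc fun p _ => ⟨fun h => h.2, fun h => ⟨hr, h⟩⟩
    have f2 : ((Fintype.piFinset fun i : Ix kk => CC z H i.2).filter fun p =>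
        ResT R kk ∧ NdP V (fun i : Ix kk => i.1) (U0 kk) p).card =
        ((Fintype.piFinset fun i : Ix kk => CC z H i.2).filter fun p =>
        NdP V (fun i : Ix kk => i.1) (U0 kk) p).card :=
      fcc fun p _ => ⟨fun h => h.2, fun h => ⟨hr, h⟩⟩
    rw [f1, f2]
    rw [f2] at e3
    refine hbox.trans (add_le_add (mul_le_mul_of_nonneg_left e3 hε) hErr)
  · have f1 : (Fintype.piFinset fun i : Ix kk => CC z H i.2).filter (fun p =>
        ResT R kk ∧ (NdP V (fun i : Ix kk => i.1) (U0 kk) p ∧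
          GW (wB W (fun i : Ix kk => i.1) (wT W fun m => (kk m).1) (U0 kk) p)
            (U0 kk ∪ univ.image p))) = ∅ := by
      rw [Finset.filter_eq_empty_iff]
      rintro p - ⟨h2, -⟩
      exact hr h2
    have f2 : (Fintype.piFinset fun i : Ix kk => CC z H i.2).filter (fun p =>
        ResT R kk ∧ NdP V (fun i : Ix kk => i.1) (U0 kk) p) = ∅ := by
      rw [Finset.filter_eq_empty_iff]
      rintro p - ⟨h2, -⟩
      exact hr h2
    rw [f1, f2, Finset.card_empty, Nat.cast_zero, mul_zero, sub_zero, abs_zero]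
    have : (0 : ℝ) ≤ ε * (((RT M X z H K).filter fun S => KY z H S = kk ∧ True).card : ℝ) :=
      mul_nonneg hε (Nat.cast_nonneg _)
    linarith

/-- the sum of the errors over the keys -/
theorem sum_err {M X z H K N : ℕ} (hX : 1 ≤ X) (hH : 1 ≤ H) (hz : 1 ≤ z)
    (hN : (H : ℝ) * Real.log X < N) :
    ∑ kk ∈ (RT M X z H K).image (KY z H),
      ∏ m, ((X : ℝ) * (1 / ((∏ p ∈ (kk m).1, nrm p : ℕ) : ℝ))) ≤
    3 ^ (9 * M) * ((9 * N + 9 : ℝ) ^ K * (X * (1 + Real.log X))) ^ M := by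
  set T₁ := (RR X z H K 0).image (ky z H) with hT₁
  set f : Finset Ei × Finset ℕ → ℝ := fun k' => X * (1 / ((∏ p ∈ k'.1, nrm p : ℕ) : ℝ))
    with hf
  have hf0 : ∀ k', 0 ≤ f k' := fun k' => by
    rw [hf]
    positivity
  have hsub : (RT M X z H K).image (KY z H) ⊆ Fintype.piFinset fun _ : Fin M => T₁ := by
    intro kk hk
    rw [Fintype.mem_piFinset]
    exact fun m => key_m hk m
  have h1 : ∑ kk ∈ (RT M X z H K).image (KY z H), ∏ m, f (kk m) ≤
      ∑ kk ∈ Fintype.piFinset fun _ : Fin M => T₁, ∏ m, f (kk m) :=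
    Finset.sum_le_sum_of_subset_of_nonneg hsub fun kk _ _ =>
      Finset.prod_nonneg fun m _ => hf0 _
  have h2 : ∑ kk ∈ Fintype.piFinset (fun _ : Fin M => T₁), ∏ m, f (kk m) =
      (∑ k' ∈ T₁, f k') ^ M := by
    rw [← Finset.prod_univ_sum, Finset.prod_const, Finset.card_univ, Fintype.card_fin]
  have h3 : ∑ k' ∈ T₁, f k' ≤ 3 ^ 9 * ((9 * N + 9 : ℝ) ^ K * (X * (1 + Real.log X))) := by
    have h4 := keg_err (V := 0) (k := K) (κ := 1) hX hH hz zero_le_one hN (T := T₁)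
      (fun k' hk => hk)
    rw [← Finset.mul_sum] at h4
    have h5 : (0 : ℝ) < 3 ^ (9 * K ^ 2) := by positivity
    have h6 : (3 : ℝ) ^ (9 * K ^ 2) * ∑ k' ∈ T₁, f k' ≤ 3 ^ (9 * K ^ 2) *
        (3 ^ 9 * ((9 * N + 9 : ℝ) ^ K * (X * (1 + Real.log X)))) := by
      calc (3 : ℝ) ^ (9 * K ^ 2) * ∑ k' ∈ T₁, f k' =
          3 ^ (9 * K ^ 2) * 1 * ∑ k' ∈ T₁, f k' := by rw [mul_one]
        _ ≤ (9 * N + 9 : ℝ) ^ K * (3 ^ (9 * K ^ 2 + 9) * 1) * (X * (1 + Real.log X)) := h4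
        _ = 3 ^ (9 * K ^ 2) * (3 ^ 9 * ((9 * N + 9 : ℝ) ^ K * (X * (1 + Real.log X)))) := by
          rw [pow_add]
          ring
    exact le_of_mul_le_mul_left h6 h5
  have h7 : (0 : ℝ) ≤ ∑ k' ∈ T₁, f k' := Finset.sum_nonneg fun k' _ => hf0 k'
  calc ∑ kk ∈ (RT M X z H K).image (KY z H), ∏ m, f (kk m) ≤ (∑ k' ∈ T₁, f k') ^ M :=
      h1.trans h2.le
    _ ≤ (3 ^ 9 * ((9 * N + 9 : ℝ) ^ K * (X * (1 + Real.log X)))) ^ M :=
      pow_le_pow_left₀ h7 h3 M
    _ = 3 ^ (9 * M) * ((9 * N + 9 : ℝ) ^ K * (X * (1 + Real.log X))) ^ M := by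
      rw [mul_pow, ← pow_mul]

end Pool.Agent.H451.JB.KEY

namespace Pool.Agent.H451.JB

open Finset KEY
open Pool.Agent.Y692.QS (Ei w nr toC)
open Pool.Agent.Y703.XK (S_BIL c9)
open Pool.Agent.XLK (fcc)
open Pool.Agent.H451.JL (F GW)
open scoped Classical

/-- **JB-KEY.** -/
theorem t_KEY : S_KEY := by
  rintro ⟨C₁, hC₁, hb1⟩ k M W R V ε hε hV hB
  refine ⟨C₁, hC₁, ?_⟩
  intro X z H K N κ hX hH hz hκ h1 hN
  set T := (RT M X z H K).image (KY z H) with hT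
  have hfib : ∀ P : (Fin M → Finset Ei) → Prop,
      (((RT M X z H K).filter fun S => P S).card : ℝ) =
      ∑ k' ∈ T, (((RT M X z H K).filter fun S => KY z H S = k' ∧ P S).card : ℝ) := by
    intro P
    rw [Finset.card_eq_sum_card_fiberwise (f := KY z H) (t := T) (by
      intro S hS
      rw [Finset.mem_coe, Finset.mem_filter] at hS
      exact Finset.mem_coe.2 (Finset.mem_image_of_mem _ hS.1))]
    push_cast
    refine Finset.sum_congr rfl fun k' _ => ?_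
    congr 2
    ext S
    simp only [Finset.mem_filter]
    tauto
  have hall : ((RT M X z H K).card : ℝ) =
      ∑ k' ∈ T, (((RT M X z H K).filter fun S => KY z H S = k' ∧ True).card : ℝ) := by
    rw [Finset.card_eq_sum_card_fiberwise (f := KY z H) (t := T) (by
      intro S hS
      exact Finset.mem_coe.2 (Finset.mem_image_of_mem _ hS))]
    push_cast
    exact Finset.sum_congr rfl fun k' _ => congrArg _ (fcc fun _ _ => by tauto)
  have q1 : (((RT M X z H K).filter fun S => (CondT R S ∧ NdT V z S) ∧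
      GW (wT W S) (UN S)).card : ℝ) =
      ∑ k' ∈ T, (((RT M X z H K).filter fun S => KY z H S = k' ∧
        ((CondT R S ∧ NdT V z S) ∧ GW (wT W S) (UN S))).card : ℝ) :=
    (congrArg _ (fcc fun _ _ => Iff.rfl)).trans ((hfib fun S => (CondT R S ∧
      NdT V z S) ∧ GW (wT W S) (UN S)).trans
      (Finset.sum_congr rfl fun k' _ => congrArg _ (fcc fun _ _ => Iff.rfl)))
  have q2 : (((RT M X z H K).filter fun S => CondT R S ∧ NdT V z S).card : ℝ) =
      ∑ k' ∈ T, (((RT M X z H K).filter fun S => KY z H S = k' ∧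
        (CondT R S ∧ NdT V z S)).card : ℝ) :=
    (congrArg _ (fcc fun _ _ => Iff.rfl)).trans ((hfib fun S => CondT R S ∧
      NdT V z S).trans
      (Finset.sum_congr rfl fun k' _ => congrArg _ (fcc fun _ _ => Iff.rfl)))
  rw [q1, q2, Finset.mul_sum, ← Finset.sum_sub_distrib, hall, Finset.mul_sum]
  refine (Finset.abs_sum_le_sum_abs _ _).trans ?_
  have h3 : ∑ k' ∈ T, |(((RT M X z H K).filter fun S => KY z H S = k' ∧
      ((CondT R S ∧ NdT V z S) ∧ GW (wT W S) (UN S))).card : ℝ) -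
      c9 ^ k * (((RT M X z H K).filter fun S =>
      KY z H S = k' ∧ (CondT R S ∧ NdT V z S)).card : ℝ)| ≤
      ∑ k' ∈ T, (ε * (((RT M X z H K).filter fun S =>
      KY z H S = k' ∧ True).card : ℝ) +
      (3 ^ (9 * (M * K) ^ 2) * κ) *
        ∏ m, ((X : ℝ) * (1 / ((∏ p ∈ (k' m).1, Pool.Agent.Y699.E.nrm p : ℕ) : ℝ)))) := by
    refine Finset.sum_le_sum fun k' hk => ?_
    exact per_keyT hB hε hb1 hH hz hκ h1 hk
  refine h3.trans ?_
  rw [Finset.sum_add_distrib, ← Finset.mul_sum (f := fun k' : Fin M → Finset Ei × Finset ℕ =>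
    ∏ m, ((X : ℝ) * (1 / ((∏ p ∈ (k' m).1, Pool.Agent.Y699.E.nrm p : ℕ) : ℝ))))]
  refine add_le_add (le_refl _) ?_
  have h4 := sum_err (M := M) (K := K) hX hH hz hN
  have h5 : (0 : ℝ) ≤ 3 ^ (9 * (M * K) ^ 2) * κ := by positivity
  refine (mul_le_mul_of_nonneg_left h4 h5).trans (le_of_eq ?_)
  rw [pow_add]
  ring

end Pool.Agent.H451.JB
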