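import Pool.Agent.H451.JB.Stm
import Pool.Agent.H451.JLM.LOW

/-!
# Project JB (helper451), part LOW (helper376)
-/

set_option autoImplicit false

open scoped Classical

namespace Pool.Agent.H451.JB

open Finset
open Pool.Agent.Y692.QS (Ei)
open Pool.Agent.Y699.E (nrm)
open Pool.Agent.Y703.XK (SS)
open Pool.Agent.H451.JLM (CondM)

theorem t_LOW : S_LOW := by
  intro r hr
  obtain ⟨g, hg, h4, hi⟩ := Pool.Agent.H451.JLM.LOWM.exists_seq
  obtain ⟨c, X₀, hc, h⟩ := Pool.Agent.H451.JLM.LOWM.fixed (M := 1) (R := {fun _ => r})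
    (r := fun _ => r) (Set.mem_singleton _) (fun _ => Or.inr hr) (by
      rw [Fin.prod_univ_one]
      rcases hr with rfl | rfl <;> norm_num) g hg h4 hi
  refine ⟨c, X₀, hc, fun X hX => ?_⟩
  have h1 := h X hX (fun _ => 0) fun m => ⟨Subsingleton.elim _ _, Subsingleton.elim _ _⟩
  have h2 : (SS X).filter (CondM {fun _ => r} (fun _ : Ei => (0 : Fin 1))) =
      (SS X).filter fun S => (∏ π ∈ S, nrm π) % 9 = r := by
    refine filter_congr fun S _ => ?_
    have h3 : (fun m : Fin 1 => (∏ π ∈ S.filter (fun _ : Ei => (0 : Fin 1) = m), nrm π) % 9) =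
        fun _ => (∏ π ∈ S, nrm π) % 9 := by
      funext m
      rw [filter_true_of_mem fun _ _ => Subsingleton.elim _ _]
    show (fun m : Fin 1 => (∏ π ∈ S.filter (fun _ : Ei => (0 : Fin 1) = m), nrm π) % 9) ∈
      ({fun _ => r} : Set (Fin 1 → ℕ)) ↔ _
    rw [h3, Set.mem_singleton_iff]
    constructor
    · intro h4
      exact congrFun h4 0
    · intro h4
      funext _
      exact h4
  rw [h2] at h1
  exact h1

end Pool.Agent.H451.JB
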