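import Pool.Agent.H451.JB.Stm
import Pool.Agent.H451.JLM.NDC

/-! JB-ND (helper721): few tuples have almost degenerate labels. Adaptation of
`Pool.Agent.H451.JLM.t_NDC`. -/

set_option autoImplicit false
set_option linter.unusedVariables false

open scoped Classical

namespace Pool.Agent.H451.JB

open Finset Filter
open Pool.Agent.Y692.QS (Ei)
open Pool.Agent.Y715.T.Rec (cs)
open Pool.Agent.Y715.T.RecG (Pq)
open Pool.Agent.Y699.E
open Pool.Agent.Y703.CX (eL zz kk)
open Pool.Agent.Y703.XK (SS sm la)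
open Pool.Agent.Y433.XK (pN pN_pos eulerE M_le small_sum fiber_le)
open Pool.Agent.Y495.CX.Few (eL_tendsto log_small zz_ge loglog_zz rpow_eq)
open Pool.Agent.H451.JL (F)
open Pool.Agent.H451.JL.FewJ (gw gw_nonneg gw_le ez_eq_one xab_val)

namespace ND

/-- the sets with given small part -/
theorem all_count (X z : ℕ) (S₀ : Finset Ei) (hS₀ : ∀ u ∈ S₀, Pq u) (G : Finset (Finset Ei))
    (hG : ∀ S ∈ G, S ∈ SS X ∧ sm z S = S₀) : (G.card : ℝ) ≤ 16 * ((X / pN S₀ : ℕ) : ℝ) := by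
  have h := fiber_le X z S₀ hS₀ G hG (fun _ => 1) (fun _ => zero_le_one) 1
    (fun S _ => by rw [prod_const_one])
  rw [mul_one] at h
  refine h.trans ?_
  rcases Nat.eq_zero_or_pos (X / pN S₀) with h0 | h0
  · rw [SB_empty h0, sum_empty]
    positivity
  · refine (sum_le_sum fun n _ => mf_le_one (fun _ => zero_le_one) (fun _ => le_rfl) n).trans ?_
    rw [sum_const, nsmul_eq_mul, mul_one]
    exact card_SB_le h0

/-- the sets with given small part and given label set `U` and function `v` -/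
theorem pair_count : ∃ K : ℝ, 0 ≤ K ∧ ∀ (X z : ℕ) (S₀ U : Finset Ei) (t : ℕ),
    (∀ u ∈ S₀, Pq u) → (∀ u ∈ U, Pq u ∧ nrm u ≤ z) → ∀ v : Ei → ZMod 3, (∃ u ∈ U, v u ≠ 0) →
    ∀ G : Finset (Finset Ei), (∀ S ∈ G, (S ∈ SS X ∧ sm z S = S₀) ∧
      ((la z S).filter fun π => ∑ u ∈ U, v u * cs u π ≠ 0).card ≤ t) →
    (G.card : ℝ) ≤ K * 24 ^ t * lg (pN U) * (((X / pN S₀ : ℕ) : ℝ) *
      (lg (X / pN S₀)) ^ (-(1 / 4) : ℝ)) := by
  obtain ⟨C, hC0, hC⟩ := Pool.Agent.H451.JLM.NDC.gw_sum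
  refine ⟨C, hC0, fun X z S₀ U t hS₀ hU v hv G hG => ?_⟩
  obtain ⟨a1, a2⟩ := PS_prod (S := U.filter (fun u => v u = 1)) fun u hu =>
    (hU u (filter_subset _ _ hu)).1
  obtain ⟨b1, b2⟩ := PS_prod (S := U.filter (fun u => v u = 2)) fun u hu =>
    (hU u (filter_subset _ _ hu)).1
  have hval := fun π (h1 : Pq π) (h2 : ¬ nrm π ≤ z) =>
    xab_val U v (fun u hu => (hU u hu).1) (z := z) (fun u hu => (hU u hu).2) h1 h2
  have hnn : nrm (∏ u ∈ U.filter (fun u => v u = 1), u) *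
      nrm (∏ u ∈ U.filter (fun u => v u = 2), u) ≤ pN U := by
    rw [nrm_prod, nrm_prod, ← prod_union]
    · exact prod_le_prod_of_subset_of_one_le' (union_subset (filter_subset _ _)
        (filter_subset _ _)) fun u hu _ => nrm_pos' (pq_ne (hU u hu).1)
    · rw [disjoint_filter]
      intro u _ h1 h2
      rw [h1] at h2
      exact absurd h2 (by decide)
  set A := ∏ u ∈ U.filter (fun u => v u = 1), u with hA
  set B := ∏ u ∈ U.filter (fun u => v u = 2), u with hB
  have hAB : A ≠ B := by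
    intro h
    have heq : U.filter (fun u => v u = 1) = U.filter (fun u => v u = 2) := by
      rw [← a2, ← b2, h]
    obtain ⟨u, hu, hu0⟩ := hv
    have key : ∀ c : ZMod 3, c ≠ 0 → c = 1 ∨ c = 2 := by decide
    rcases key (v u) hu0 with h1 | h1
    · have : u ∈ U.filter fun u => v u = 2 := by
        rw [← heq, mem_filter]
        exact ⟨hu, h1⟩
      rw [mem_filter, h1] at this
      exact absurd this.2 (by decide)
    · have : u ∈ U.filter fun u => v u = 1 := by
        rw [heq, mem_filter]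
        exact ⟨hu, h1⟩
      rw [mem_filter, h1] at this
      exact absurd this.2 (by decide)
  have h := fiber_le X z S₀ hS₀
    G (fun S hS => (hG S hS).1) (gw (xab A B)) (gw_nonneg _)
    ((1 / 24) ^ t) (fun S hS => by
        obtain ⟨⟨h1, h4⟩, h3⟩ := hG S hS
        have hP : ∀ π ∈ la z S, Pq π ∧ ¬ nrm π ≤ z := by
          intro π hπ
          unfold la at hπ
          rw [mem_filter] at hπ
          unfold SS at h1
          rw [mem_filter] at h1
          exact ⟨h1.2.1.1 π hπ.1, hπ.2⟩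
        have e1 : ∏ π ∈ la z S, gw (xab A B) π = (1 / 24) ^
            ((la z S).filter fun π => ∑ u ∈ U, v u * cs u π ≠ 0).card := by
          rw [← prod_const, prod_filter]
          refine prod_congr rfl fun π hπ => ?_
          unfold gw
          rw [hval π (hP π hπ).1 (hP π hπ).2]
          by_cases h0 : ∑ u ∈ U, v u * cs u π = 0
          · rw [h0, ez_zero, if_pos rfl, if_neg (by simp)]
          · rw [if_neg fun h5 => h0 (ez_eq_one h5), if_pos h0]
        rw [e1]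
        exact pow_le_pow_of_le_one (by norm_num) (by norm_num) h3)
  have h2 := h.trans (hC A B a1 b1 hAB (X / pN S₀))
  set c := (G.card : ℝ) with hcdef
  have h3 : (24 : ℝ) ^ t * (1 / 24) ^ t = 1 := by
    rw [← mul_pow]
    norm_num
  have hTl : 0 ≤ ((X / pN S₀ : ℕ) : ℝ) * (lg (X / pN S₀)) ^ (-(1 / 4) : ℝ) :=
    mul_nonneg (Nat.cast_nonneg _) (Real.rpow_nonneg (zero_le_one.trans (one_le_lg _)) _)
  have h5 : lg (nrm A * nrm B) ≤ lg (pN U) := lg_mono hnn
  calc c = (24 : ℝ) ^ t * (c * (1 / 24) ^ t) := by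
        linear_combination (-c) * h3
    _ ≤ (24 : ℝ) ^ t * (C * lg (nrm A * nrm B) * (((X / pN S₀ : ℕ) : ℝ) *
          (lg (X / pN S₀)) ^ (-(1 / 4) : ℝ))) := mul_le_mul_of_nonneg_left h2 (by positivity)
    _ ≤ (24 : ℝ) ^ t * (C * lg (pN U) * (((X / pN S₀ : ℕ) : ℝ) *
          (lg (X / pN S₀)) ^ (-(1 / 4) : ℝ))) := by
        gcongr
    _ = _ := by ring

/-- the condition for a set, with the label set `U` -/
def BadU (C z : ℕ) (U S : Finset Ei) : Prop := ∃ v : Ei → ZMod 3, (∃ u ∈ U, v u ≠ 0) ∧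
  ((la z S).filter fun π => ∑ u ∈ U, v u * cs u π ≠ 0).card ≤ C * (U.card + 1)

/-- the sets with given small part -/
theorem few_count (C : ℕ) : ∃ b : ℝ, 0 ≤ b ∧
    ∀ (X z : ℕ) (S₀ U : Finset Ei), (∀ u ∈ S₀, Pq u) → (∀ u ∈ U, Pq u ∧ nrm u ≤ z) →
      ∀ G : Finset (Finset Ei),
      (∀ S ∈ G, (S ∈ SS X ∧ sm z S = S₀) ∧ BadU C z U S) → (G.card : ℝ) ≤
        b * (3 * 24 ^ C) ^ U.card * lg (pN U) * (((X / pN S₀ : ℕ) : ℝ) *
          (lg (X / pN S₀)) ^ (-(1 / 4) : ℝ)) := by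
  obtain ⟨K, hK0, hK⟩ := pair_count
  refine ⟨K * 24 ^ C, by positivity, fun X z S₀ U hS₀ hU G hG => ?_⟩
  -- the functions on `U`, extended by zero
  set e : (U → ZMod 3) → Ei → ZMod 3 := fun f u => if h : u ∈ U then f ⟨u, h⟩ else 0 with he
  have hTl : 0 ≤ ((X / pN S₀ : ℕ) : ℝ) * (lg (X / pN S₀)) ^ (-(1 / 4) : ℝ) :=
    mul_nonneg (Nat.cast_nonneg _) (Real.rpow_nonneg (zero_le_one.trans (one_le_lg _)) _)
  have hlg := lg_pos (pN U)
  set t := C * (U.card + 1) with ht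
  set P : Finset (U → ZMod 3) := univ.filter fun f => ∃ u ∈ U, e f u ≠ 0 with hP
  have hsub : G ⊆ P.biUnion fun f => G.filter fun S =>
      ((la z S).filter fun π => ∑ u ∈ U, e f u * cs u π ≠ 0).card ≤ t := by
    intro S hS
    obtain ⟨h1, v, ⟨u, hu, hu0⟩, hv⟩ := hG S hS
    have hev : ∀ u ∈ U, e (fun x => v x.1) u = v u := by
      intro u hu
      simp only [he, dif_pos hu]
    rw [mem_biUnion]
    refine ⟨fun x => v x.1, ?_, ?_⟩
    · rw [hP, mem_filter]
      exact ⟨mem_univ _, u, hu, by rw [hev u hu]; exact hu0⟩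
    · rw [mem_filter]
      refine ⟨hS, ?_⟩
      have : ((la z S).filter fun π => ∑ u ∈ U, e (fun x => v x.1) u * cs u π ≠ 0) =
          ((la z S).filter fun π => ∑ u ∈ U, v u * cs u π ≠ 0) := by
        refine filter_congr fun π _ => ?_
        rw [sum_congr rfl fun u hu => by rw [hev u hu]]
      rw [this]
      exact hv
  have h1 : (G.card : ℝ) ≤ ∑ f ∈ P, ((G.filter fun S =>
      ((la z S).filter fun π => ∑ u ∈ U, e f u * cs u π ≠ 0).card ≤ t).card : ℝ) := by
    exact_mod_cast (card_le_card hsub).trans card_biUnion_le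
  have h2 : ∀ f ∈ P, ((G.filter fun S =>
      ((la z S).filter fun π => ∑ u ∈ U, e f u * cs u π ≠ 0).card ≤ t).card : ℝ) ≤
      K * 24 ^ t * lg (pN U) * (((X / pN S₀ : ℕ) : ℝ) *
        (lg (X / pN S₀)) ^ (-(1 / 4) : ℝ)) := by
    intro f hf
    rw [hP, mem_filter] at hf
    refine hK X z S₀ U t hS₀ hU (e f) hf.2 _ fun S hS => ?_
    rw [mem_filter] at hS
    exact ⟨(hG S hS.1).1, hS.2⟩
  have h3 : (P.card : ℝ) ≤ 3 ^ U.card := by
    have : P.card ≤ 3 ^ U.card := by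
      refine (card_filter_le _ _).trans (le_of_eq ?_)
      rw [card_univ, Fintype.card_fun, ZMod.card, Fintype.card_coe]
    exact_mod_cast this
  calc (G.card : ℝ) ≤ ∑ f ∈ P, K * 24 ^ t * lg (pN U) * (((X / pN S₀ : ℕ) : ℝ) *
        (lg (X / pN S₀)) ^ (-(1 / 4) : ℝ)) := h1.trans (sum_le_sum h2)
    _ = P.card * (K * 24 ^ t * lg (pN U) * (((X / pN S₀ : ℕ) : ℝ) *
        (lg (X / pN S₀)) ^ (-(1 / 4) : ℝ))) := by rw [sum_const, nsmul_eq_mul]
    _ ≤ 3 ^ U.card * (K * 24 ^ t * lg (pN U) * (((X / pN S₀ : ℕ) : ℝ) *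
        (lg (X / pN S₀)) ^ (-(1 / 4) : ℝ))) :=
        mul_le_mul_of_nonneg_right h3 (by positivity)
    _ = _ := by
        rw [ht, mul_add, mul_one, pow_add, mul_pow, pow_mul]
        ring

/-- the tuples with given small parts -/
theorem tuple_count (C : ℕ) : ∃ b : ℝ, 0 ≤ b ∧
    ∀ (M X z : ℕ) (m : Fin M) (s : Fin M → Finset Ei), (∀ m', ∀ u ∈ s m', Pq u ∧ nrm u ≤ z) →
      ∀ G : Finset (Fin M → Finset Ei),
      (∀ S ∈ G, (∀ m', S m' ∈ SS X ∧ sm z (S m') = s m') ∧ BadU C z (univ.biUnion s) (S m)) →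
      (G.card : ℝ) ≤ (b * lg (pN (univ.biUnion s)) * (lg (X / pN (s m))) ^ (-(1 / 4) : ℝ)) *
        ((16 * X : ℝ) ^ M * ∏ m', ((3 * 24 ^ C : ℝ) ^ (s m').card * (1 / (pN (s m') : ℝ)))) := by
  obtain ⟨b, hb0, hb⟩ := few_count C
  refine ⟨b, hb0, fun M X z m s hs G hG => ?_⟩
  set U := univ.biUnion s with hU
  have hUp : ∀ u ∈ U, Pq u ∧ nrm u ≤ z := by
    intro u hu
    rw [hU, mem_biUnion] at hu
    obtain ⟨m', -, hu⟩ := hu
    exact hs m' u hu
  set E : Fin M → Finset (Finset Ei) := fun m' => (SS X).filter fun T => sm z T = s m' ∧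
    (m' = m → BadU C z U T) with hE
  have hsub : G ⊆ Fintype.piFinset E := by
    intro S hS
    obtain ⟨h1, h2⟩ := hG S hS
    rw [Fintype.mem_piFinset]
    intro m'
    simp only [hE]
    rw [mem_filter]
    refine ⟨(h1 m').1, (h1 m').2, ?_⟩
    rintro rfl
    exact h2
  have hcard : (G.card : ℝ) ≤ ∏ m', ((E m').card : ℝ) := by
    have := card_le_card hsub
    rw [Fintype.card_piFinset] at this
    exact_mod_cast this
  set κ : ℝ := b * (3 * 24 ^ C : ℝ) ^ U.card * lg (pN U) * (lg (X / pN (s m))) ^ (-(1 / 4) : ℝ)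
    with hκ
  have hlg := lg_pos (pN U)
  have hrp : 0 ≤ (lg (X / pN (s m))) ^ (-(1 / 4) : ℝ) :=
    Real.rpow_nonneg (zero_le_one.trans (one_le_lg _)) _
  have hκ0 : 0 ≤ κ := by
    rw [hκ]
    positivity
  have hE1 : ∀ m', ((E m').card : ℝ) ≤ (16 * X * (1 / (pN (s m') : ℝ))) *
      (if m' = m then κ else 1) := by
    intro m'
    have hdiv : ((X / pN (s m') : ℕ) : ℝ) ≤ X * (1 / (pN (s m') : ℝ)) := by
      rw [mul_one_div]
      exact Nat.cast_div_le
    have hpos : 0 ≤ (X : ℝ) * (1 / (pN (s m') : ℝ)) := by positivity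
    by_cases hm : m' = m
    · rw [if_pos hm]
      subst hm
      have h1 := hb X z (s m') U (fun u hu => (hs m' u hu).1) hUp (E m') (fun T hT => by
        simp only [hE] at hT
        rw [mem_filter] at hT
        exact ⟨⟨hT.1, hT.2.1⟩, hT.2.2 trivial⟩)
      refine h1.trans ?_
      calc b * (3 * 24 ^ C) ^ U.card * lg (pN U) * (((X / pN (s m') : ℕ) : ℝ) *
            (lg (X / pN (s m'))) ^ (-(1 / 4) : ℝ)) = κ * ((X / pN (s m') : ℕ) : ℝ) := by
            rw [hκ]
            ring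
        _ ≤ κ * (X * (1 / (pN (s m') : ℝ))) := mul_le_mul_of_nonneg_left hdiv hκ0
        _ ≤ 16 * (κ * (X * (1 / (pN (s m') : ℝ)))) := by
            have := mul_nonneg hκ0 hpos
            linarith
        _ = _ := by ring
    · rw [if_neg hm, mul_one]
      have h1 := all_count X z (s m') (fun u hu => (hs m' u hu).1) (E m') (fun T hT => by
        simp only [hE] at hT
        rw [mem_filter] at hT
        exact ⟨hT.1, hT.2.1⟩)
      refine h1.trans ?_
      rw [mul_assoc]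
      exact mul_le_mul_of_nonneg_left hdiv (by norm_num)
  have hprod : ∏ m', ((E m').card : ℝ) ≤ ((16 * X : ℝ) ^ M * ∏ m', (1 / (pN (s m') : ℝ))) * κ := by
    refine (prod_le_prod (fun _ _ => Nat.cast_nonneg _) fun m' _ => hE1 m').trans (le_of_eq ?_)
    rw [prod_mul_distrib, prod_mul_distrib, prod_const, card_univ, Fintype.card_fin,
      prod_ite_eq' univ m, if_pos (mem_univ m)]
  have hpow : (3 * 24 ^ C : ℝ) ^ U.card ≤ ∏ m', (3 * 24 ^ C : ℝ) ^ (s m').card := by
    rw [prod_pow_eq_pow_sum]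
    apply pow_le_pow_right₀
    · have : (1 : ℝ) ≤ 24 ^ C := one_le_pow₀ (by norm_num)
      linarith
    · exact card_biUnion_le
  have hP0 : 0 ≤ ∏ m', (1 / (pN (s m') : ℝ)) := prod_nonneg fun _ _ => by positivity
  calc (G.card : ℝ) ≤ ((16 * X : ℝ) ^ M * ∏ m', (1 / (pN (s m') : ℝ))) * κ := hcard.trans hprod
    _ = (b * lg (pN U) * (lg (X / pN (s m))) ^ (-(1 / 4) : ℝ) * (16 * X : ℝ) ^ M *
        ∏ m', (1 / (pN (s m') : ℝ))) * (3 * 24 ^ C : ℝ) ^ U.card := by
        rw [hκ]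
        ring
    _ ≤ (b * lg (pN U) * (lg (X / pN (s m))) ^ (-(1 / 4) : ℝ) * (16 * X : ℝ) ^ M *
        ∏ m', (1 / (pN (s m') : ℝ))) * ∏ m', (3 * 24 ^ C : ℝ) ^ (s m').card :=
        mul_le_mul_of_nonneg_left hpow (by positivity)
    _ = _ := by
        rw [prod_mul_distrib]
        ring

/-- one coordinate -/
theorem fixm (M C : ℕ) (m : Fin M) : ∀ ε : ℝ, 0 < ε → ∃ X₀ : ℕ, ∀ X : ℕ, X₀ ≤ X →
    ∀ G : Finset (Fin M → Finset Ei), (∀ S ∈ G, (∀ m', S m' ∈ SS X ∧ (S m').card ≤ kk X) ∧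
      BadU C (zz X) (S0 (zz X) S) (S m)) → (G.card : ℝ) ≤ ε * (X : ℝ) ^ M := by
  intro ε hε
  obtain ⟨C₂, hC0, hC⟩ := M_le
  obtain ⟨b, hb0, hb⟩ := tuple_count C
  obtain ⟨a, ha'⟩ : ∃ a : ℝ, a = 3 * 24 ^ C := ⟨_, rfl⟩
  have ha : 0 ≤ a := by
    rw [ha']
    positivity
  have hM1 : 1 ≤ M := by
    rcases Nat.eq_zero_or_pos M with h | h
    · subst h
      exact m.elim0
    · exact h
  have hMr : (1 : ℝ) ≤ M := by exact_mod_cast hM1
  -- the final comparison
  obtain ⟨Q, hQ⟩ : ∃ Q : ℝ, Q = 99 * b * M * 16 ^ M * Real.exp (a * C₂) ^ M := ⟨_, rfl⟩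
  have hQ0 : 0 ≤ Q := by
    rw [hQ]
    positivity
  have hlim : Tendsto (fun l : ℝ => Q * Real.exp (-(1 / 8) * l)) atTop (nhds 0) := by
    have h1 : Tendsto (fun l : ℝ => Real.exp (-(1 / 8) * l)) atTop (nhds 0) := by
      refine Real.tendsto_exp_atBot.comp ?_
      exact tendsto_id.const_mul_atTop_of_neg (by norm_num)
    have := h1.const_mul Q
    rwa [mul_zero] at this
  have hpow : ∀ᶠ l : ℝ in atTop, 33 * l ^ 4 + 3 ≤ Real.exp l := by
    have h1 := (Real.isLittleO_pow_exp_atTop (n := 4)).bound (show (0:ℝ) < 1 / 66 by norm_num)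
    filter_upwards [h1, eventually_ge_atTop (2:ℝ)] with l hl hl2
    rw [Real.norm_of_nonneg (by positivity), Real.norm_of_nonneg (Real.exp_pos _).le] at hl
    have h2 : (16:ℝ) ≤ l ^ 4 := by
      have := pow_le_pow_left₀ (by norm_num : (0:ℝ) ≤ 2) hl2 4
      linarith
    linarith
  have hev := (((eL_tendsto.eventually (log_small (4 + 6 * a * M) (1 / 8) (by norm_num))).and
    (eL_tendsto.eventually (eventually_ge_atTop 2))).and
    (eL_tendsto.eventually (hlim.eventually (gt_mem_nhds hε)))).and (eL_tendsto.eventually hpow)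
  obtain ⟨X₀, hX₀⟩ := eventually_atTop.1 hev
  refine ⟨max X₀ 3, fun X hX G hG => ?_⟩
  obtain ⟨⟨⟨k1, k2⟩, k3⟩, k4⟩ := hX₀ X ((le_max_left _ _).trans hX)
  have hX3 : 3 ≤ X := (le_max_right _ _).trans hX
  set ℓ : ℝ := eL X with hℓ
  set z : ℕ := zz X with hz
  set k : ℕ := kk X with hk
  have hl0 : 0 < ℓ := by linarith
  have hlX : Real.log X = Real.exp ℓ := by
    have := rpow_eq (X := X) k2 1
    rwa [Real.rpow_one, one_mul] at this
  have hX0 : (0 : ℝ) < X := by exact_mod_cast (by omega : 0 < X)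
  have hk11 : (k : ℝ) ≤ 11 * ℓ := by
    have h := Nat.ceil_lt_add_one (show (0 : ℝ) ≤ 10 * eL X by rw [← hℓ]; positivity)
    have h' : (k : ℝ) < 10 * ℓ + 1 := h
    linarith
  have hz3 : 3 ≤ z := zz_ge k2
  have hz0 : (0 : ℝ) < z := by exact_mod_cast (by omega : 0 < z)
  have hzlog : Real.log z ≤ ℓ ^ 3 := by
    rw [Real.log_le_iff_le_exp hz0]
    exact Nat.floor_le (Real.exp_pos _).le
  have hzlog0 : 0 < Real.log z := Real.log_pos (by exact_mod_cast (by omega : 1 < z))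
  have hl4 : (1 : ℝ) ≤ ℓ ^ 4 := one_le_pow₀ (by linarith)
  -- logarithms of norms
  have hlogN : ∀ (T : Finset Ei), (∀ u ∈ T, Pq u ∧ nrm u ≤ z) → ∀ c : ℝ, (T.card : ℝ) ≤ c →
      Real.log (pN T) ≤ c * ℓ ^ 3 := by
    intro T hT c hc
    have e1 : Real.log (pN T : ℝ) = ∑ p ∈ T, Real.log (nrm p) := by
      unfold pN
      push_cast
      rw [Real.log_prod]
      intro p hp
      have := nrm_ne (pq_ne (hT p hp).1)
      exact_mod_cast this
    rw [e1]
    calc ∑ p ∈ T, Real.log (nrm p) ≤ ∑ _p ∈ T, Real.log z := by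
          refine sum_le_sum fun p hp => ?_
          exact Real.log_le_log (by exact_mod_cast nrm_pos' (pq_ne (hT p hp).1))
            (by exact_mod_cast (hT p hp).2)
      _ = T.card * Real.log z := by rw [sum_const, nsmul_eq_mul]
      _ ≤ c * ℓ ^ 3 := mul_le_mul hc hzlog hzlog0.le ((Nat.cast_nonneg _).trans hc)
  set W : Finset (Finset Ei) := (QB z).powerset.filter fun S => S.card ≤ k with hW
  have hmaps : ∀ S ∈ G, (fun m' => sm z (S m')) ∈ Fintype.piFinset fun _ : Fin M => W := by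
    intro S hS
    rw [Fintype.mem_piFinset]
    intro m'
    have hS' := (hG S hS).1 m'
    rw [hW, mem_filter, mem_powerset]
    refine ⟨?_, (card_le_card (filter_subset _ _)).trans hS'.2⟩
    intro π hπ
    unfold sm at hπ
    rw [mem_filter] at hπ
    have h1 := hS'.1
    unfold SS at h1
    rw [mem_filter] at h1
    rw [mem_QB]
    exact ⟨hπ.2, h1.2.1.1 π hπ.1⟩
  have hcard : (G.card : ℝ) = ∑ s ∈ Fintype.piFinset fun _ : Fin M => W,
      ((G.filter fun S => (fun m' => sm z (S m')) = s).card : ℝ) := by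
    have := card_eq_sum_card_fiberwise hmaps
    exact_mod_cast this
  have hone : ∀ s ∈ Fintype.piFinset fun _ : Fin M => W,
      ((G.filter fun S => (fun m' => sm z (S m')) = s).card : ℝ) ≤
      (∏ m', (a ^ (s m').card * (1 / (pN (s m') : ℝ)))) *
        (99 * b * M * ℓ ^ 4 * Real.exp (-(1 / 4) * ℓ) * (16 * X) ^ M) := by
    intro s hs
    rw [Fintype.mem_piFinset] at hs
    have hsW : ∀ m', (∀ u ∈ s m', Pq u ∧ nrm u ≤ z) ∧ (s m').card ≤ k := by
      intro m'
      have h := hs m'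
      rw [hW, mem_filter, mem_powerset] at h
      refine ⟨fun u hu => ?_, h.2⟩
      have := h.1 hu
      rw [mem_QB] at this
      exact ⟨this.2, this.1⟩
    have h1 := hb M X z m s (fun m' => (hsW m').1)
      (G.filter fun S => (fun m' => sm z (S m')) = s) (fun S hS => by
        rw [mem_filter] at hS
        obtain ⟨hS1, hS2⟩ := hS
        obtain ⟨h2, h3⟩ := hG S hS1
        have h4 : ∀ m', sm z (S m') = s m' := fun m' => congrFun hS2 m'
        refine ⟨fun m' => ⟨(h2 m').1, h4 m'⟩, ?_⟩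
        have h5 : S0 z S = univ.biUnion s := by
          unfold S0 UN
          rw [hS2]
        rwa [h5] at h3)
    rw [← ha'] at h1
    refine h1.trans ?_
    set U := univ.biUnion s with hU
    have hUp : ∀ u ∈ U, Pq u ∧ nrm u ≤ z := by
      intro u hu
      rw [hU, mem_biUnion] at hu
      obtain ⟨m', -, hu⟩ := hu
      exact (hsW m').1 u hu
    have hUc : (U.card : ℝ) ≤ M * (11 * ℓ) := by
      have h2 : U.card ≤ M * k := by
        refine card_biUnion_le.trans ((sum_le_sum fun m' _ => (hsW m').2).trans (le_of_eq ?_))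
        rw [sum_const, card_univ, Fintype.card_fin, smul_eq_mul]
      have h3 : (U.card : ℝ) ≤ M * k := by exact_mod_cast h2
      exact h3.trans (mul_le_mul_of_nonneg_left hk11 (by positivity))
    have hlgU : lg (pN U) ≤ 33 * M * ℓ ^ 4 := by
      have h33 : (1 : ℝ) ≤ 33 * M * ℓ ^ 4 := by nlinarith
      rcases Nat.lt_or_ge (pN U) 2 with h | h
      · have hp := pN_pos (S := U) fun u hu => (hUp u hu).1
        have : pN U = 1 := by omega
        rw [this]
        have : lg 1 = 1 := by unfold lg; simp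
        rw [this]
        exact h33
      · have h2 := lg_le_log h
        have h3 := hlogN U hUp _ hUc
        have h4 : (M : ℝ) * (11 * ℓ) * ℓ ^ 3 = 11 * M * ℓ ^ 4 := by ring
        rw [h4] at h3
        linarith
    set N := pN (s m) with hN
    have hN0 : 0 < N := pN_pos fun u hu => ((hsW m).1 u hu).1
    have hN0' : (0 : ℝ) < N := by exact_mod_cast hN0
    have hlN : Real.log N ≤ 11 * ℓ ^ 4 := by
      have h2 := hlogN (s m) (hsW m).1 (11 * ℓ)
        (le_trans (by exact_mod_cast (hsW m).2) hk11)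
      have h3 : 11 * ℓ * ℓ ^ 3 = 11 * ℓ ^ 4 := by ring
      rwa [h3] at h2
    have hYge : Real.exp (Real.log X / 3) ≤ ((X / N : ℕ) : ℝ) := by
      have e1 : (X : ℝ) / N < ((X / N : ℕ) : ℝ) + 1 := by
        rw [div_lt_iff₀ hN0']
        have := Nat.lt_mul_div_succ X hN0
        have h' : ((X : ℕ) : ℝ) < ((N * (X / N + 1) : ℕ) : ℝ) := by exact_mod_cast this
        rw [Nat.cast_mul, Nat.cast_add, Nat.cast_one] at h'
        linarith
      have e2 : Real.exp (Real.log X - Real.log N) = (X : ℝ) / N := by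
        rw [Real.exp_sub, Real.exp_log hX0, Real.exp_log hN0']
      have e3 : Real.exp (Real.log X / 3 + 1) ≤ (X : ℝ) / N := by
        rw [← e2]
        apply Real.exp_le_exp.2
        rw [← hlX] at k4
        linarith
      rw [Real.exp_add] at e3
      have e4 : (2 : ℝ) ≤ Real.exp 1 := by have := Real.exp_one_gt_d9; linarith
      have e5 : (1 : ℝ) ≤ Real.exp (Real.log X / 3) := by
        apply Real.one_le_exp
        rw [hlX]
        positivity
      nlinarith
    have hY1 : 1 ≤ X / N := by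
      have : (0:ℝ) < ((X / N : ℕ) : ℝ) := lt_of_lt_of_le (Real.exp_pos _) hYge
      exact_mod_cast this
    have hlgY : Real.exp ℓ / 3 ≤ lg (X / N) := by
      refine le_trans ?_ (log_le_lg hY1)
      rw [← hlX, Real.le_log_iff_exp_le (by exact_mod_cast hY1)]
      exact hYge
    have hrp : (lg (X / N)) ^ (-(1 / 4) : ℝ) ≤ 3 * Real.exp (-(1 / 4) * ℓ) := by
      have e1 : (lg (X / N)) ^ (-(1 / 4) : ℝ) ≤ (Real.exp ℓ / 3) ^ (-(1 / 4) : ℝ) :=
        Real.rpow_le_rpow_of_nonpos (by positivity) hlgY (by norm_num)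
      refine e1.trans ?_
      rw [Real.div_rpow (Real.exp_pos _).le (by norm_num), ← Real.exp_mul, div_eq_mul_inv,
        ← Real.rpow_neg (by norm_num), neg_neg, mul_comm ℓ, mul_comm]
      refine mul_le_mul_of_nonneg_right ?_ (Real.exp_pos _).le
      calc (3:ℝ) ^ (1 / 4 : ℝ) ≤ 3 ^ (1:ℝ) :=
            Real.rpow_le_rpow_of_exponent_le (by norm_num) (by norm_num)
        _ = 3 := Real.rpow_one _
    have hlg0 : 0 ≤ lg (pN U) := (zero_le_one.trans (one_le_lg _))
    have hrp0 : 0 ≤ (lg (X / N)) ^ (-(1 / 4) : ℝ) :=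
      Real.rpow_nonneg (zero_le_one.trans (one_le_lg _)) _
    have hP0 : 0 ≤ ∏ m', (a ^ (s m').card * (1 / (pN (s m') : ℝ))) :=
      prod_nonneg fun _ _ => by positivity
    calc b * lg (pN U) * (lg (X / N)) ^ (-(1 / 4) : ℝ) * ((16 * X : ℝ) ^ M *
          ∏ m', (a ^ (s m').card * (1 / (pN (s m') : ℝ))))
        ≤ b * (33 * M * ℓ ^ 4) * (3 * Real.exp (-(1 / 4) * ℓ)) * ((16 * X : ℝ) ^ M *
          ∏ m', (a ^ (s m').card * (1 / (pN (s m') : ℝ)))) := by
          gcongr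
      _ = _ := by ring
  have hprod : ∑ s ∈ Fintype.piFinset fun _ : Fin M => W,
      ∏ m', (a ^ (s m').card * (1 / (pN (s m') : ℝ))) =
      (∑ S ∈ W, a ^ S.card * (1 / (pN S : ℝ))) ^ M := by
    rw [← prod_univ_sum (fun _ : Fin M => W) fun _ S => a ^ S.card * (1 / (pN S : ℝ)), prod_const,
      card_univ, Fintype.card_fin]
  have hWs : ∑ S ∈ W, a ^ S.card * (1 / (pN S : ℝ)) ≤
      Real.exp (a * C₂) * Real.exp (6 * a * Real.log ℓ) := by
    have h1 : ∑ S ∈ W, a ^ S.card * (1 / (pN S : ℝ)) ≤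
        Real.exp (a * ∑ π ∈ QB z, (1 : ℝ) / nrm π) := by
      refine le_trans ?_ (small_sum a ha z)
      refine sum_le_sum_of_subset_of_nonneg (filter_subset _ _) fun S _ _ => by positivity
    refine h1.trans ?_
    rw [← Real.exp_add]
    apply Real.exp_le_exp.2
    have h2 := hC z hz3
    have h3 := loglog_zz k2
    have h4 : ∑ π ∈ QB z, (1 : ℝ) / nrm π ≤ 6 * Real.log ℓ + C₂ := by linarith
    have := mul_le_mul_of_nonneg_left h4 ha
    linarith
  have hWs0 : 0 ≤ ∑ S ∈ W, a ^ S.card * (1 / (pN S : ℝ)) := sum_nonneg fun _ _ => by positivity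
  have hR0 : 0 ≤ 99 * b * M * ℓ ^ 4 * Real.exp (-(1 / 4) * ℓ) * (16 * X : ℝ) ^ M := by positivity
  have hl4' : ℓ ^ 4 = Real.exp (4 * Real.log ℓ) := by
    rw [show (4:ℝ) * Real.log ℓ = Real.log (ℓ ^ 4) by rw [Real.log_pow]; push_cast; ring]
    exact (Real.exp_log (by positivity)).symm
  have hexpM : Real.exp (6 * a * Real.log ℓ) ^ M = Real.exp (6 * a * M * Real.log ℓ) := by
    rw [← Real.exp_nat_mul]
    ring_nf
  calc (G.card : ℝ) ≤ (∑ S ∈ W, a ^ S.card * (1 / (pN S : ℝ))) ^ M *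
        (99 * b * M * ℓ ^ 4 * Real.exp (-(1 / 4) * ℓ) * (16 * X) ^ M) := by
        rw [hcard, ← hprod, sum_mul]
        exact sum_le_sum hone
    _ ≤ (Real.exp (a * C₂) * Real.exp (6 * a * Real.log ℓ)) ^ M *
        (99 * b * M * ℓ ^ 4 * Real.exp (-(1 / 4) * ℓ) * (16 * X) ^ M) :=
        mul_le_mul_of_nonneg_right (pow_le_pow_left₀ hWs0 hWs M) hR0
    _ = Q * Real.exp ((4 + 6 * a * M) * Real.log ℓ - 1 / 4 * ℓ) * (X : ℝ) ^ M := by
        rw [hQ, mul_pow, hexpM, hl4', mul_pow, show (4 + 6 * a * M) * Real.log ℓ - 1 / 4 * ℓ =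
          6 * a * M * Real.log ℓ + 4 * Real.log ℓ + -(1 / 4) * ℓ by ring, Real.exp_add,
          Real.exp_add]
        ring
    _ ≤ Q * Real.exp (-(1 / 8) * ℓ) * (X : ℝ) ^ M := by
        gcongr
        linarith
    _ ≤ ε * (X : ℝ) ^ M := by
        refine mul_le_mul_of_nonneg_right ?_ (by positivity)
        exact le_of_lt k3

end ND

/-- JB-ND -/
theorem t_ND : S_ND := by
  intro M C ε hε
  have hε' : 0 < ε / (M + 1) := by positivity
  choose X₀ hX₀ using fun m : Fin M => ND.fixm M C m (ε / (M + 1)) hε'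
  refine ⟨univ.sup X₀, fun X hX => ?_⟩
  set P := (TT M X).filter fun S => (∀ m, (S m).card ≤ kk X) ∧ ∃ m, ∃ v : Ei → F,
    (∃ u ∈ S0 (zz X) S, v u ≠ 0) ∧
    ((la (zz X) (S m)).filter fun π => ∑ u ∈ S0 (zz X) S, v u * cs u π ≠ 0).card ≤
      C * ((S0 (zz X) S).card + 1) with hP
  have hsub : P ⊆ univ.biUnion fun m : Fin M => (TT M X).filter fun S =>
      (∀ m, (S m).card ≤ kk X) ∧ ND.BadU C (zz X) (S0 (zz X) S) (S m) := by
    intro S hS
    rw [hP, mem_filter] at hS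
    obtain ⟨h1, h2, m, h3⟩ := hS
    rw [mem_biUnion]
    refine ⟨m, mem_univ _, ?_⟩
    rw [mem_filter]
    exact ⟨h1, h2, h3⟩
  have h1 : (P.card : ℝ) ≤ ∑ m : Fin M, (((TT M X).filter fun S =>
      (∀ m, (S m).card ≤ kk X) ∧ ND.BadU C (zz X) (S0 (zz X) S) (S m)).card : ℝ) := by
    exact_mod_cast (card_le_card hsub).trans card_biUnion_le
  refine h1.trans ((sum_le_sum fun m _ => hX₀ m X ((le_sup (mem_univ m)).trans hX) _
    fun S hS => ?_).trans ?_)
  · rw [mem_filter] at hS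
    unfold TT at hS
    rw [Fintype.mem_piFinset] at hS
    exact ⟨fun m' => ⟨hS.1 m', hS.2.1 m'⟩, hS.2.2⟩
  · rw [sum_const, card_univ, Fintype.card_fin, nsmul_eq_mul]
    have h2 : (M : ℝ) * (ε / (M + 1) * (X : ℝ) ^ M) = (M / (M + 1)) * (ε * (X : ℝ) ^ M) := by
      ring
    rw [h2]
    have h3 : (M : ℝ) / (M + 1) ≤ 1 := by
      rw [div_le_one (by positivity)]
      linarith
    have h4 : 0 ≤ ε * (X : ℝ) ^ M := by positivity
    nlinarith

end Pool.Agent.H451.JB
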