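import Mathlib
import Pool.Agent.H451.JLM.Asm
import Pool.Agent.H451.JB.KEY
import Pool.Agent.H451.JB.BOX
import Pool.Agent.H451.JB.COL
import Pool.Agent.H451.JB.ND
import Pool.Agent.H451.JB.LOW
import Pool.Agent.H451.JB.DQ

/-!
# Project JB: assembly
-/

set_option autoImplicit false

namespace Pool.Agent.H451.JB

/-- **the joint law for tuples of independent sets in a box** -/
theorem t_DQ' : S_DQ :=
  t_DQ Pool.Agent.Y363.XK.t_BIL t_KEY
    (t_BOX Pool.Agent.Y710.XK.t_EQ (Pool.Agent.H451.JLM.t_SYS Pool.Agent.H451.JLM.t_JLM'))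
    Pool.Agent.Y474.XK.t_CNT t_COL t_ND Pool.Agent.H451.JLM.t_FEC t_LOW Pool.Agent.Y703.XL.t_C9

end Pool.Agent.H451.JB
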