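import Mathlib
import Pool.Agent.H451.BB.Def3
import Pool.Graph.R_seed8.Y696.XL.SelK

/-!
# The Selmer groups of a diagonal cubic hypersurface
-/

set_option autoImplicit false

namespace Pool.Agent.H451.JB

open NumberField Pool.Agent.H451.CubT

/-- All the Selmer groups of the endomorphism `√-3` of the curves `E_S : y ^ 2 + D_S y = x ^ 3` have order
`3` (they contain the three classes of the torsion points, so they are as small as possible). `SelK D` is
the group of the continuous cocycles of the absolute Galois group of `K` with values in the kernel
`{0, (0, 0), (0, -D)}` which are coboundaries in the curve over every completion of `K`; as the kernel is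
rational these cocycles are homomorphisms, and different ones are not cohomologous. -/
def TrivSel {K : Type} [Field K] [NumberField K] {m : ℕ} (a : Fin m → 𝓞 K) : Prop :=
  ∀ S : Finset (Fin m), S.card = (m - 3) / 2 →
    (Pool.Agent.XL6.SelK ((DS a S : 𝓞 K) : K)).ncard = 3

end Pool.Agent.H451.JB
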