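import Mathlib
import Pool.Agent.H451.BB.Fin4
import Pool.Agent.H451.JB.Stm

/-!
# Project JB: translation to diagonal cubic hypersurfaces
-/

set_option autoImplicit false
set_option linter.unusedVariables false
set_option linter.unusedSectionVars false

namespace Pool.Agent.H451.JB

open NumberField IsDedekindDomain Finset
open scoped Classical

open Pool.Agent.Y692.QS (Ei w toC nr)
open Pool.Agent.Y715.T.RecG (Pq)
open Pool.Agent.Y715.T.Rec (cs)
open Pool.Agent.H451.BB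
open Pool.Agent.H451.CubT
open Pool.Agent.H451.JL (F sw nW GW eD t_BASE)
open Pool.Agent.H451.JLM (NP)
open Pool.Agent.Y699.E (nrm nrm_cast nrm_mul nrm_one)
open Pool.Agent.Y703.XK (SS c9)
open Pool.Agent.Y550.XK.NS (nrm_prod mod_iff)

/-! ### Norms -/

theorem nrm_mod3 {x : Ei} (h : (3 : Ei) ∣ x - 1) : nrm x % 3 = 1 := by
  obtain ⟨y, hy⟩ := h
  have h1 : x = 1 + 3 * y := by rw [← hy]; ring
  have h2 : nr x = 3 * (2 * y.re - y.im + 3 * (y.re ^ 2 - y.re * y.im + y.im ^ 2)) + 1 := by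
    rw [h1]
    unfold nr
    have e0 : (1 + 3 * y : Ei) = 1 + (y + y + y) := by ring
    have e1 : (1 + 3 * y : Ei).re = 1 + 3 * y.re := by
      rw [e0]
      show 1 + (y.re + y.re + y.re) = _
      ring
    have e2 : (1 + 3 * y : Ei).im = 3 * y.im := by
      rw [e0]
      show 0 + (y.im + y.im + y.im) = _
      ring
    rw [e1, e2]
    ring
  have h3 : (nrm x : ℤ) = nr x := nrm_cast x
  omega

theorem nrm_pow (x : Ei) (k : ℕ) : nrm (x ^ k) = nrm x ^ k := by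
  induction k with
  | zero => rw [pow_zero, pow_zero, nrm_one]
  | succ k ih => rw [pow_succ, pow_succ, nrm_mul, ih]

theorem nrm_prodG {ι : Type} (s : Finset ι) (f : ι → Ei) : nrm (∏ i ∈ s, f i) = ∏ i ∈ s, nrm (f i) := by
  induction s using Finset.induction_on with
  | empty => rw [Finset.prod_empty, Finset.prod_empty, nrm_one]
  | insert a S ha ih => rw [Finset.prod_insert ha, Finset.prod_insert ha, nrm_mul, ih]

theorem cube_mod9 {n : ℕ} (h : n % 3 = 1) : n ^ 3 % 9 = 1 := by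
  obtain ⟨k, rfl⟩ : ∃ k, n = 3 * k + 1 := ⟨n / 3, by omega⟩
  have : (3 * k + 1) ^ 3 = 9 * (3 * k ^ 3 + 3 * k ^ 2 + k) + 1 := by ring
  rw [this]
  omega

theorem prod_mod3 {s : Finset Ei} {f : Ei → ℕ} (h : ∀ x ∈ s, f x % 3 = 1) :
    (∏ x ∈ s, f x) % 3 = 1 := by
  rw [Finset.prod_nat_mod, Finset.prod_congr rfl h]
  simp

/-! ### The elements of a tuple -/

section tuple
variable {m k : ℕ} (φ : Fin k → Finset (Fin m)) (S : Fin m → Finset Ei) (i : Fin k)

/-- the exponent of a prime in `D_T` -/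
noncomputable def ex (π : Ei) : ℕ := ∑ l, if π ∈ S l then (if l ∈ φ i then 2 else 1) else 0

theorem ex_cast (π : Ei) : ((ex φ S i π : ℕ) : F) = wT (WT φ) S i π := by
  unfold ex wT WT
  push_cast
  refine Finset.sum_congr rfl fun l _ => ?_
  split_ifs <;> rfl

theorem mem_UN {π : Ei} : π ∈ UN S ↔ ∃ l, π ∈ S l := by
  unfold UN
  rw [Finset.mem_biUnion]
  simp

theorem DD_ex : DD (fun l => ∏ π ∈ S l, π) (φ i) = ∏ π ∈ UN S, π ^ ex φ S i π := by
  unfold DD
  have h1 : (∏ l, ∏ π ∈ S l, π) * ∏ l ∈ φ i, ∏ π ∈ S l, π =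
      ∏ l, ∏ π ∈ S l, π ^ (if l ∈ φ i then 2 else 1) := by
    have h2 : ∏ l ∈ φ i, ∏ π ∈ S l, π = ∏ l, if l ∈ φ i then ∏ π ∈ S l, π else 1 := by
      rw [Finset.prod_ite_mem, Finset.univ_inter]
    rw [h2, ← Finset.prod_mul_distrib]
    refine Finset.prod_congr rfl fun l _ => ?_
    rw [Finset.prod_pow]
    split_ifs
    · rw [sq]
    · rw [pow_one, mul_one]
  rw [h1]
  have h3 : ∀ l, ∏ π ∈ S l, π ^ (if l ∈ φ i then 2 else 1) =
      ∏ π ∈ UN S, π ^ (if π ∈ S l then (if l ∈ φ i then 2 else 1) else 0) := by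
    intro l
    have h4 : S l ⊆ UN S := fun π hπ => (mem_UN S).2 ⟨l, hπ⟩
    rw [← Finset.prod_subset h4 (f := fun π =>
      π ^ (if π ∈ S l then (if l ∈ φ i then 2 else 1) else 0))]
    · refine Finset.prod_congr rfl fun π hπ => ?_
      rw [if_pos hπ]
    · intro π _ hπ
      rw [if_neg hπ, pow_zero]
  rw [Finset.prod_congr rfl fun l _ => h3 l, Finset.prod_comm]
  refine Finset.prod_congr rfl fun π _ => ?_
  unfold ex
  rw [Finset.prod_pow_eq_pow_sum]

theorem eD_all (ω : Ei → F) (U : Finset Ei) : eD 1 ω U = ∏ π ∈ U, π ^ (ω π).val := by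
  unfold eD sw
  rw [Finset.prod_filter]
  refine Finset.prod_congr rfl fun π _ => ?_
  rw [one_mul]
  split_ifs with h
  · rfl
  · push Not at h
    rw [h, ZMod.val_zero, pow_zero]

/-- the cube -/
theorem DD_cube : DD (fun l => ∏ π ∈ S l, π) (φ i) =
    (∏ π ∈ UN S, π ^ (ex φ S i π / 3)) ^ 3 * eD 1 (wT (WT φ) S i) (UN S) := by
  rw [DD_ex, eD_all, ← Finset.prod_pow, ← Finset.prod_mul_distrib]
  refine Finset.prod_congr rfl fun π _ => ?_
  rw [← ex_cast, ZMod.val_natCast, ← pow_mul, ← pow_add]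
  congr 1
  omega

theorem nr_DD (hS : ∀ l, ∀ π ∈ S l, Pq π) :
    (9 : ℤ) ∣ nr (DD (fun l => ∏ π ∈ S l, π) (φ i)) - 1 ↔
      (9 : ℤ) ∣ nr (eD 1 (wT (WT φ) S i) (UN S)) - 1 := by
  rw [mod_iff, mod_iff, DD_cube, nrm_mul, nrm_pow]
  have h1 : nrm (∏ π ∈ UN S, π ^ (ex φ S i π / 3)) % 3 = 1 := by
    rw [nrm_prodG]
    refine prod_mod3 fun π hπ => ?_
    obtain ⟨l, hl⟩ := (mem_UN S).1 hπ
    rw [nrm_pow, Nat.pow_mod, nrm_mod3 (hS l π hl).three, one_pow]
    rfl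
  rw [Nat.mul_mod, cube_mod9 h1, one_mul, Nat.mod_mod]

end tuple

/-! ### Residues -/

theorem condT_iff {m : ℕ} (S : Fin m → Finset Ei) : CondT (RA m) S ↔
    ∀ T : Finset (Fin m), T.card = (m - 3) / 2 →
      ¬ (9 : ℤ) ∣ nr (DD (fun l => ∏ π ∈ S l, π) T) - 1 := by
  unfold CondT RA
  rw [Set.mem_ofPred_eq]
  refine forall_congr' fun T => forall_congr' fun hT => not_congr ?_
  rw [mod_iff]
  have h2 : ∀ s : Finset (Fin m), (∏ i ∈ s, (∏ π ∈ S i, nrm π) % 9) % 9 =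
      nrm (∏ i ∈ s, ∏ π ∈ S i, π) % 9 := by
    intro s
    rw [nrm_prodG, ← Finset.prod_nat_mod]
    congr 1
    exact Finset.prod_congr rfl fun i _ => (nrm_prod _).symm
  unfold DD
  rw [nrm_mul, Nat.mul_mod, h2, h2, ← Nat.mul_mod]

theorem RA_memT {m : ℕ} (hm : m = 3 ∨ m = 5 ∨ m = 7) : ∃ r ∈ RA m, ∀ i, r i = 4 ∨ r i = 7 := by
  have hm0 : 0 < m := by omega
  obtain ⟨z, hz⟩ : ∃ z : Fin m, z = ⟨0, hm0⟩ := ⟨_, rfl⟩
  have h1 : ∀ T : Finset (Fin m), (∏ i ∈ T, (if i = z then 7 else 4)) % 9 =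
      (4 ^ (T.card + if z ∈ T then 1 else 0)) % 9 := by
    intro T
    by_cases hzT : z ∈ T
    · rw [if_pos hzT, ← Finset.mul_prod_erase T _ hzT, if_pos rfl,
        Finset.prod_congr rfl (g := fun _ => 4) (fun i hi => if_neg (Finset.ne_of_mem_erase hi)),
        Finset.prod_const, Finset.card_erase_of_mem hzT]
      have h2 : 0 < T.card := Finset.card_pos.2 ⟨z, hzT⟩
      obtain ⟨n, hn⟩ : ∃ n, T.card = n + 1 := ⟨T.card - 1, by omega⟩
      rw [hn, Nat.add_sub_cancel]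
      have : 4 ^ (n + 1 + 1) = 9 * 4 ^ n + 7 * 4 ^ n := by ring
      rw [this]
      omega
    · rw [if_neg hzT, add_zero,
        Finset.prod_congr rfl (g := fun _ => 4) (fun i hi => if_neg (by rintro rfl; exact hzT hi)),
        Finset.prod_const]
  refine ⟨fun i => if i = z then 7 else 4, ?_, ?_⟩
  · intro T hT
    rw [Nat.mul_mod, h1, h1, if_pos (Finset.mem_univ z), Finset.card_univ, Fintype.card_fin, hT]
    rcases hm with rfl | rfl | rfl <;> split_ifs <;> norm_num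
  · intro i
    by_cases h : i = z
    · right; exact if_pos h
    · left; exact if_neg h

section K
variable {K : Type} [Field K] [NumberField K] [IsCyclotomicExtension {3} ℚ K] (j : Ei ≃+* 𝓞 K)

theorem TT_Pq {m X : ℕ} {S : Fin m → Finset Ei} (h : S ∈ TT m X) : ∀ l, ∀ π ∈ S l, Pq π := by
  unfold TT at h
  rw [Fintype.mem_piFinset] at h
  exact fun l => SS_Pq (h l)

theorem bb_tuple (hj : ∀ z : Ei, Algebra.norm ℤ (j z) = nr z) {m k : ℕ}
    (hm : m = 3 ∨ m = 5 ∨ m = 7) {S : Fin m → Finset Ei} (hS : ∀ l, ∀ π ∈ S l, Pq π)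
    (φ : Fin k → Finset (Fin m))
    (hφ : ∀ T : Finset (Fin m), T.card = (m - 3) / 2 → ∃ i, φ i = T)
    (hc : CondT (RA m) S) (hG : GW (wT (WT φ) S) (UN S)) : BB fun i => j (∏ π ∈ S i, π) := by
  rw [condT_iff] at hc
  have hsymm : (fun i => j.symm (j (∏ π ∈ S i, π))) = fun i => ∏ π ∈ S i, π := by
    funext i
    rw [RingEquiv.symm_apply_apply]
  refine mainE j hj hm _ (fun i => ?_) fun T hT => ?_
  · intro h0
    have h1 : ∏ π ∈ S i, π = 0 := (map_eq_zero_iff j j.injective).1 h0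
    rw [Finset.prod_eq_zero_iff] at h1
    obtain ⟨π, h2, h3⟩ := h1
    exact (hS i π h2).prime.ne_zero h3
  · obtain ⟨i, rfl⟩ := hφ T hT
    rw [hsymm]
    have hU : ∀ π ∈ UN S, Pq π := fun π hπ => by
      obtain ⟨l, hl⟩ := (mem_UN S).1 hπ
      exact hS l π hl
    refine ⟨_, 1, ∏ π ∈ UN S, π ^ (ex φ S i π / 3), t_BASE (UN S) (wT (WT φ) S i) 1 hU one_ne_zero
      (hG i) ?_, one_ne_zero, ?_, ?_⟩
    · rw [← nr_DD φ S i hS]
      exact hc (φ i) hT
    · rw [Finset.prod_ne_zero_iff]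
      exact fun π hπ => pow_ne_zero _ (hU π hπ).prime.ne_zero
    · rw [one_pow, one_mul]
      exact DD_cube φ S i

theorem adm_tuple (hj : ∀ z : Ei, Algebra.norm ℤ (j z) = nr z) {m : ℕ} (S : Fin m → Finset Ei) :
    (AdmA fun i => j (∏ π ∈ S i, π)) ↔ CondT (RA m) S := by
  rw [condT_iff]
  unfold AdmA
  refine forall_congr' fun T => forall_congr' fun hT => ?_
  have h4 : DS (fun i => j (∏ π ∈ S i, π)) T = j (DD (fun i => ∏ π ∈ S i, π) T) := by
    unfold DS DD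
    rw [map_mul, map_prod, map_prod]
  rw [h4, hj]

/-- the tuples of the box -/
theorem box_eq (hj : ∀ z : Ei, Algebra.norm ℤ (j z) = nr z) (m X : ℕ) (P : (Fin m → 𝓞 K) → Prop) :
    {a : Fin m → 𝓞 K | (∀ i, Cls (a i) ∧ Algebra.norm ℤ (a i) ≤ X) ∧ P a}.ncard =
      ((TT m X).filter fun S => P fun i => j (∏ π ∈ S i, π)).card := by
  have h1 : {a : Fin m → 𝓞 K | (∀ i, Cls (a i) ∧ Algebra.norm ℤ (a i) ≤ X) ∧ P a} =
      ((((TT m X).filter fun S => P fun i => j (∏ π ∈ S i, π)).image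
        fun S i => j (∏ π ∈ S i, π) : Finset (Fin m → 𝓞 K)) : Set (Fin m → 𝓞 K)) := by
    have h2 := set_eq j hj X
    have h3 : ∀ D : 𝓞 K, (Cls D ∧ Algebra.norm ℤ D ≤ X) ↔ ∃ S ∈ SS X, j (∏ π ∈ S, π) = D := by
      intro D
      have h4 := Set.ext_iff.1 h2 D
      rw [Finset.mem_coe, Finset.mem_image, Set.mem_ofPred_eq] at h4
      rw [and_comm]
      exact h4
    ext a
    rw [Finset.mem_coe, Finset.mem_image, Set.mem_ofPred_eq]
    constructor
    · rintro ⟨h5, h6⟩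
      choose S hS hSa using fun i => (h3 (a i)).1 (h5 i)
      have h7 : (fun i => j (∏ π ∈ S i, π)) = a := funext hSa
      refine ⟨S, Finset.mem_filter.2 ⟨?_, ?_⟩, h7⟩
      · unfold TT
        rw [Fintype.mem_piFinset]
        exact hS
      · rw [h7]
        exact h6
    · rintro ⟨S, hS, rfl⟩
      rw [Finset.mem_filter] at hS
      have h8 := hS.1
      unfold TT at h8
      rw [Fintype.mem_piFinset] at h8
      exact ⟨fun i => (h3 _).2 ⟨S i, h8 i, rfl⟩, hS.2⟩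
  rw [h1, Set.ncard_coe_finset, Finset.card_image_of_injOn]
  intro S hS S' hS' hss
  rw [Finset.mem_coe, Finset.mem_filter] at hS hS'
  have h8 := hS.1
  have h9 := hS'.1
  unfold TT at h8 h9
  rw [Fintype.mem_piFinset] at h8 h9
  funext i
  exact inj_SS j X (Finset.mem_coe.2 (h8 i)) (Finset.mem_coe.2 (h9 i)) (congrFun hss i)

/-- the tuples of the box -/
theorem box_ex (hj : ∀ z : Ei, Algebra.norm ℤ (j z) = nr z) {m : ℕ} (X : ℕ) (a : Fin m → 𝓞 K)
    (ha : ∀ i, Cls (a i) ∧ Algebra.norm ℤ (a i) ≤ X) :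
    ∃ S ∈ TT m X, (fun i => j (∏ π ∈ S i, π)) = a := by
  have h2 := set_eq j hj X
  have h3 : ∀ i, ∃ S ∈ SS X, j (∏ π ∈ S, π) = a i := by
    intro i
    have h4 := Set.ext_iff.1 h2 (a i)
    rw [Finset.mem_coe, Finset.mem_image, Set.mem_ofPred_eq] at h4
    exact h4.1 (ha i).symm
  choose S hS hSa using h3
  refine ⟨S, ?_, funext hSa⟩
  unfold TT
  rw [Fintype.mem_piFinset]
  exact hS

end K

/-! ### The number of all elements -/

theorem card_all (X : ℕ) (hX : 1 ≤ X) : ∃ A : Finset Ei, (∀ z : Ei, nr z ≤ X → z ∈ A) ∧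
    (A.card : ℝ) ≤ 16 * X := by
  obtain ⟨N, hN⟩ : ∃ N : ℕ, N = Nat.sqrt (2 * X) := ⟨_, rfl⟩
  have hN1 : N * N ≤ 2 * X := by rw [hN]; exact Nat.sqrt_le _
  have hN2 : 2 * X < (N + 1) * (N + 1) := by rw [hN]; exact Nat.lt_succ_sqrt _
  let B : Finset ℤ := Finset.Icc (-(N : ℤ)) N
  refine ⟨(B ×ˢ B).image fun p => (⟨p.1, p.2⟩ : Ei), fun z hz => ?_, ?_⟩
  · rw [Finset.mem_image]
    refine ⟨(z.re, z.im), ?_, rfl⟩
    unfold nr at hz
    have hb : ∀ x y : ℤ, x ^ 2 - x * y + y ^ 2 ≤ X → x ∈ B := by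
      intro x y h
      have h1 : x ^ 2 ≤ 2 * X := by nlinarith [sq_nonneg (2 * y - x), sq_nonneg x]
      have h2 : x ^ 2 < ((N : ℤ) + 1) ^ 2 := by
        have : ((2 * X : ℕ) : ℤ) < (((N + 1) * (N + 1) : ℕ) : ℤ) := by exact_mod_cast hN2
        push_cast at this
        nlinarith
      have h3 := abs_lt_of_sq_lt_sq h2 (by positivity)
      rw [abs_lt] at h3
      rw [Finset.mem_Icc]
      omega
    rw [Finset.mem_product]
    refine ⟨hb z.re z.im hz, hb z.im z.re ?_⟩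
    linarith
  · have h1 : ((B ×ˢ B).image fun p => (⟨p.1, p.2⟩ : Ei)).card ≤ (2 * N + 1) * (2 * N + 1) := by
      refine Finset.card_image_le.trans ?_
      rw [Finset.card_product, Int.card_Icc]
      have : ((N : ℤ) + 1 - -(N : ℤ)).toNat = 2 * N + 1 := by omega
      rw [this]
    have h2 : (2 * N + 1) * (2 * N + 1) ≤ 16 * X := by
      nlinarith
    exact_mod_cast h1.trans h2

end Pool.Agent.H451.JB
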