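import Mathlib
import Pool.Agent.H451.JB.Tr
import Pool.Graph.R_seed8.Y696.XL.Fin

/-!
# Project JB: the Selmer groups
-/

set_option autoImplicit false
set_option linter.unusedVariables false
set_option linter.unusedSectionVars false

namespace Pool.Agent.H451.JB

open NumberField IsDedekindDomain Finset
open scoped Classical

open Pool.Agent.Y692.QS (Ei w toC nr)
open Pool.Agent.Y715.T.RecG (Pq)
open Pool.Agent.Y715.T.Rec (cs)
open Pool.Agent.Y715.T.Gi Pool.Agent.Y715.T.Nr Pool.Agent.Y715.T.Df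
open Pool.Agent.Y703.CT (Tw Dt pD)
open Pool.Agent.XL6 (SelK SelH KerV selK_card sel_card)
open Pool.Agent.Y696.CTK (parts)
open Pool.Agent.H451.BB
open Pool.Agent.H451.CubT
open Pool.Agent.H451.JL (F sw nW GW eD)

theorem tw_cube {i₀ : QB} {hi : i₀ ^ 2 + i₀ + 1 = 0} {c d : Ei} {u : QB} {a : GK i₀ → ZMod 3}
    (hc : c ≠ 0) (h : Tw hi (c ^ 3 * d) u a) : Tw hi d (u / ev i₀ hi c) a := by
  have h0 : ev i₀ hi c ≠ 0 := ev_ne hi hc
  refine ⟨?_, fun σ => ?_⟩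
  · rw [div_pow, h.cube, map_mul, map_pow, mul_comm, mul_div_assoc, div_self (pow_ne_zero 3 h0),
      mul_one]
  · have h1 : σ (ev i₀ hi c) = ev i₀ hi c := by
      rw [ev_apply]
      have h2 : σ i₀ = i₀ := gk_fix σ
      simp only [map_add, map_mul, map_intCast, h2]
    rw [map_div₀, h.act σ, h1, mul_div_assoc]

/-- **the order of the Selmer group** -/
theorem selK_nW {K : Type} [Field K] [NumberField K] (j : Ei ≃+* 𝓞 K) {T : Finset Ei}
    {ω : Ei → F} {c : Ei} (hT : ∀ π ∈ T, Pq π) (hc : c ≠ 0)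
    (h9 : ¬ (9 : ℤ) ∣ nr (eD 1 ω T) - 1) :
    (SelK ((j (c ^ 3 * eD 1 ω T) : 𝓞 K) : K)).ncard = nW ω T := by
  obtain ⟨s, hs⟩ : ∃ s : Finset Ei, s = sw ω T := ⟨_, rfl⟩
  have hsT : ∀ ρ ∈ s, Pq ρ ∧ ω ρ ≠ 0 := by
    intro ρ hρ
    rw [hs, sw, mem_filter] at hρ
    exact ⟨hT ρ hρ.1, hρ.2⟩
  have hpD : eD 1 ω T = pD (fun x : s => (x : Ei)) (fun x : s => ω x) := by
    unfold eD pD
    rw [← hs, ← Finset.prod_coe_sort]
    refine Finset.prod_congr rfl fun x _ => ?_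
    rw [one_mul]
  have hD : Dt (fun x : s => (x : Ei)) (fun x : s => ω x) :=
    ⟨fun x => (hsT x x.2).1, fun x y hxy hd => hxy (Subtype.ext
      (Pool.Agent.Y699.E.eq_of_dvd (hsT y y.2).1 (hsT x x.2).1 hd)).symm,
      fun x => (hsT x x.2).2⟩
  have hne : eD 1 ω T ≠ 0 := by
    rw [hpD]
    exact Pool.Agent.Y153.CTRAM.ne_zero_of hD
  have hD0 : c ^ 3 * eD 1 ω T ≠ 0 := mul_ne_zero (pow_ne_zero 3 hc) hne
  obtain ⟨e, i₀, hi, u, a, Ψ, g, hdata⟩ := parts.trf K j _ hD0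
  have hTw := tw_cube hc hdata.1
  rw [hpD] at hTw h9
  rw [selK_card hD0 hdata, sel_card hD h9 hTw, ← Nat.card_coe_set_eq]
  unfold nW
  rw [← hs]
  refine Nat.card_congr (Equiv.subtypeEquivRight fun v => ?_)
  show (∀ x : s, ∑ y : s, ω y * cs (x : Ei) (y : Ei) * (v y - v x) = 0) ↔ _
  refine forall_congr' fun x => ?_
  have h1 : ∑ y : s, ω y * cs (x : Ei) (y : Ei) * (v y - v x) =
      ∑ y : s, cs (x : Ei) (y : Ei) * ω y * (v y - v x) :=
    Finset.sum_congr rfl fun y _ => by ring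
  rw [h1]

section K
variable {K : Type} [Field K] [NumberField K] [IsCyclotomicExtension {3} ℚ K] (j : Ei ≃+* 𝓞 K)

/-- the Selmer groups of a tuple -/
theorem sel_tuple {m k : ℕ} {S : Fin m → Finset Ei} (hS : ∀ l, ∀ π ∈ S l, Pq π)
    (φ : Fin k → Finset (Fin m)) (hφ1 : ∀ i, (φ i).card = (m - 3) / 2)
    (hφ : ∀ T : Finset (Fin m), T.card = (m - 3) / 2 → ∃ i, φ i = T)
    (hc : CondT (RA m) S) : GW (wT (WT φ) S) (UN S) ↔
      ∀ T : Finset (Fin m), T.card = (m - 3) / 2 →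
        (SelK ((DS (fun i => j (∏ π ∈ S i, π)) T : 𝓞 K) : K)).ncard = 3 := by
  rw [condT_iff] at hc
  have hU : ∀ π ∈ UN S, Pq π := fun π hπ => by
    obtain ⟨l, hl⟩ := (mem_UN S).1 hπ
    exact hS l π hl
  have key : ∀ i, (SelK ((DS (fun i => j (∏ π ∈ S i, π)) (φ i) : 𝓞 K) : K)).ncard =
      nW (wT (WT φ) S i) (UN S) := by
    intro i
    have h4 : DS (fun i => j (∏ π ∈ S i, π)) (φ i) = j (DD (fun i => ∏ π ∈ S i, π) (φ i)) := by
      unfold DS DD
      rw [map_mul, map_prod, map_prod]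
    rw [h4, DD_cube φ S i]
    refine selK_nW j hU ?_ ?_
    · rw [Finset.prod_ne_zero_iff]
      exact fun π hπ => pow_ne_zero _ (hU π hπ).prime.ne_zero
    · rw [← nr_DD φ S i hS]
      exact hc (φ i) (hφ1 i)
  constructor
  · intro h T hT
    obtain ⟨i, rfl⟩ := hφ T hT
    rw [key]
    exact h i
  · intro h i
    rw [← key]
    exact h (φ i) (hφ1 i)

end K

end Pool.Agent.H451.JB
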