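import Mathlib
import Pool.Agent.H451.JB.Sel
import Pool.Agent.H451.JB.Def

/-!
# Project JB: positive proportion of all diagonal cubic hypersurfaces
-/

set_option autoImplicit false
set_option linter.unusedVariables false

namespace Pool.Agent.H451.JB

open NumberField IsDedekindDomain Finset
open scoped Classical

open Pool.Agent.Y692.QS (Ei w toC nr)
open Pool.Agent.Y715.T.RecG (Pq)
open Pool.Agent.H451.BB
open Pool.Agent.H451.CubT
open Pool.Agent.H451.JL (F sw nW GW)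
open Pool.Agent.H451.JLM (NP)
open Pool.Agent.Y703.XK (SS c9)

theorem final_box (hDQ : S_DQ) (K : Type) [Field K] [NumberField K] [IsCyclotomicExtension {3} ℚ K]
    (m : ℕ) (hm : m = 3 ∨ m = 5 ∨ m = 7) :
    (∃ c : ℝ, 0 < c ∧ ∃ X₀ : ℕ, ∀ X : ℕ, X₀ ≤ X →
      c * ({a : Fin m → 𝓞 K | ∀ i, a i ≠ 0 ∧ Algebra.norm ℤ (a i) ≤ X}.ncard : ℝ) ≤
        ({a : Fin m → 𝓞 K | (∀ i, a i ≠ 0 ∧ Algebra.norm ℤ (a i) ≤ X) ∧ BB a}.ncard : ℝ)) ∧
    (∃ c : ℝ, 0 < c ∧ ∃ X₀ : ℕ, ∀ X : ℕ, X₀ ≤ X →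
      c * (X : ℝ) ^ m ≤ ({a : Fin m → 𝓞 K | (∀ i, Cls (a i) ∧ Algebra.norm ℤ (a i) ≤ X) ∧
        AdmA a}.ncard : ℝ)) ∧
    (∀ a : Fin m → 𝓞 K, (∀ i, Cls (a i)) → AdmA a → TrivSel a → BB a) ∧
    Filter.Tendsto (fun X : ℕ =>
      ({a : Fin m → 𝓞 K | (∀ i, Cls (a i) ∧ Algebra.norm ℤ (a i) ≤ X) ∧ AdmA a ∧
        TrivSel a}.ncard : ℝ) /
      ({a : Fin m → 𝓞 K | (∀ i, Cls (a i) ∧ Algebra.norm ℤ (a i) ≤ X) ∧ AdmA a}.ncard : ℝ))
      Filter.atTop (nhds ((∏' i : ℕ, (1 - (1 / 3 : ℝ) ^ (2 * i + 1))) ^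
        m.choose ((m - 3) / 2))) := by
  obtain ⟨⟨j, hj⟩, -⟩ := Pool.Agent.Y455.CTK.jex K
  have hm0 : 0 < m := by omega
  obtain ⟨h, hh⟩ : ∃ h : ℕ, h = (m - 3) / 2 := ⟨_, rfl⟩
  have h2m : 2 * h < m := by omega
  have hcard : (powersetCard h (univ : Finset (Fin m))).card = m.choose h := by
    rw [card_powersetCard, card_univ, Fintype.card_fin]
  obtain ⟨ψ⟩ : Nonempty (Fin (m.choose h) ≃ powersetCard h (univ : Finset (Fin m))) :=
    ⟨(Finset.equivFinOfCardEq hcard).symm⟩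
  obtain ⟨φ, hφ⟩ : ∃ φ : Fin (m.choose h) → Finset (Fin m), φ = fun i => (ψ i : Finset (Fin m)) :=
    ⟨_, rfl⟩
  have hφ1 : Function.Injective φ := by
    rw [hφ]
    exact Subtype.val_injective.comp ψ.injective
  have hφ2 : ∀ i, (φ i).card = h := by
    intro i
    rw [hφ]
    exact (mem_powersetCard.1 (ψ i).2).2
  have hφ3 : ∀ T : Finset (Fin m), T.card = (m - 3) / 2 → ∃ i, φ i = T := by
    intro T hT
    obtain ⟨i, hi⟩ := ψ.surjective ⟨T, mem_powersetCard.2 ⟨subset_univ _, by rw [hT, hh]⟩⟩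
    exact ⟨i, by rw [hφ]; show ((ψ i : _) : Finset (Fin m)) = T; rw [hi]⟩
  have hNP : NP (WT φ) := WT_NP h2m φ hφ1 hφ2
  obtain ⟨⟨c, X₀, hc, hlow⟩, hlim⟩ := hDQ _ m (WT φ) (RA m) hNP (RA_memT hm)
  obtain ⟨-, c1, c2, c3, -⟩ := Pool.Agent.Y703.XL.t_C9
  -- the counts
  have hadm : ∀ X : ℕ, ({a : Fin m → 𝓞 K | (∀ i, Cls (a i) ∧ Algebra.norm ℤ (a i) ≤ X) ∧
      AdmA a}.ncard : ℝ) = (((TT m X).filter (CondT (RA m))).card : ℝ) := by
    intro X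
    rw [box_eq j hj]
    congr 2
    exact filter_congr fun S _ => adm_tuple j hj S
  have hsel : ∀ X : ℕ, ({a : Fin m → 𝓞 K | (∀ i, Cls (a i) ∧ Algebra.norm ℤ (a i) ≤ X) ∧
      AdmA a ∧ TrivSel a}.ncard : ℝ) = (((TT m X).filter fun S => CondT (RA m) S ∧
      GW (wT (WT φ) S) (UN S)).card : ℝ) := by
    intro X
    rw [box_eq j hj m X fun a => AdmA a ∧ TrivSel a]
    refine congrArg _ ?_
    have h1 : ((TT m X).filter fun S => AdmA (fun i => j (∏ π ∈ S i, π)) ∧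
          TrivSel fun i => j (∏ π ∈ S i, π)) = (TT m X).filter fun S => CondT (RA m) S ∧
      GW (wT (WT φ) S) (UN S) := by
      refine filter_congr fun S hS => ?_
      rw [adm_tuple j hj S]
      refine and_congr_right fun hc => ?_
      exact (sel_tuple j (TT_Pq hS) φ (fun i => by rw [hφ2, hh]) hφ3 hc).symm
    convert congrArg Finset.card h1
  have hthird : ∀ a : Fin m → 𝓞 K, (∀ i, Cls (a i)) → AdmA a → TrivSel a → BB a := by
    intro a h1 h2 h3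
    obtain ⟨X, hX⟩ : ∃ X : ℕ, ∀ i, Algebra.norm ℤ (a i) ≤ X := by
      refine ⟨∑ i, (Algebra.norm ℤ (a i)).natAbs, fun i => ?_⟩
      have h4 := Finset.single_le_sum (f := fun i => (Algebra.norm ℤ (a i)).natAbs)
        (fun i _ => Nat.zero_le _) (mem_univ i)
      have h5 := Int.le_natAbs (a := Algebra.norm ℤ (a i))
      have h6 : (((Algebra.norm ℤ (a i)).natAbs : ℕ) : ℤ) ≤
        ((∑ i, (Algebra.norm ℤ (a i)).natAbs : ℕ) : ℤ) := by exact_mod_cast h4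
      exact h5.trans h6
    obtain ⟨S, hS, rfl⟩ := box_ex j hj X a fun i => ⟨h1 i, hX i⟩
    have hc := (adm_tuple j hj S).1 h2
    refine bb_tuple j hj hm (TT_Pq hS) φ hφ3 hc ?_
    exact (sel_tuple j (TT_Pq hS) φ (fun i => by rw [hφ2, hh]) hφ3 hc).2 h3
  have hfourth : Filter.Tendsto (fun X : ℕ =>
      ({a : Fin m → 𝓞 K | (∀ i, Cls (a i) ∧ Algebra.norm ℤ (a i) ≤ X) ∧ AdmA a ∧
        TrivSel a}.ncard : ℝ) /
      ({a : Fin m → 𝓞 K | (∀ i, Cls (a i) ∧ Algebra.norm ℤ (a i) ≤ X) ∧ AdmA a}.ncard : ℝ))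
      Filter.atTop (nhds ((∏' i : ℕ, (1 - (1 / 3 : ℝ) ^ (2 * i + 1))) ^
        m.choose ((m - 3) / 2))) := by
    simp only [hsel, hadm]
    rw [← hh]
    exact hlim
  refine ⟨?_, ⟨c, hc, X₀, fun X hX => by rw [hadm X]; exact hlow X hX⟩, hthird, hfourth⟩
  have hC1 : 1 ≤ m.choose h := Nat.choose_pos (by omega)
  have hlt : (0.639 : ℝ) ^ m.choose h < c9 ^ m.choose h :=
    pow_lt_pow_left₀ c3 (by norm_num) (by omega)
  have hev := hlim.eventually (lt_mem_nhds hlt)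
  obtain ⟨X₁, hX1⟩ := Filter.eventually_atTop.1 hev
  have hsec : ∃ X₀ : ℕ, ∀ X : ℕ, X₀ ≤ X →
      0.639 ^ m.choose ((m - 3) / 2) *
        ({a : Fin m → 𝓞 K | (∀ i, Cls (a i) ∧ Algebra.norm ℤ (a i) ≤ X) ∧ AdmA a}.ncard : ℝ) ≤
      ({a : Fin m → 𝓞 K | (∀ i, Cls (a i) ∧ Algebra.norm ℤ (a i) ≤ X) ∧ AdmA a ∧
        TrivSel a}.ncard : ℝ) := by
    refine ⟨max X₀ (max X₁ 1), fun X hXX => ?_⟩
    have a1 : X₀ ≤ X := le_trans (le_max_left _ _) hXX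
    have a2 : X₁ ≤ X := le_trans (le_trans (le_max_left _ _) (le_max_right _ _)) hXX
    have a3 : 1 ≤ X := le_trans (le_trans (le_max_right _ _) (le_max_right _ _)) hXX
    have hpos : (0 : ℝ) < (((TT m X).filter (CondT (RA m))).card : ℝ) := by
      refine lt_of_lt_of_le ?_ (hlow X a1)
      have : (1 : ℝ) ≤ X := by exact_mod_cast a3
      positivity
    have h7 := hX1 X a2
    rw [lt_div_iff₀ hpos] at h7
    rw [hadm X, hsel X, ← hh]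
    exact h7.le
  obtain ⟨X₂, hX2⟩ := hsec
  obtain ⟨p, hp⟩ : ∃ p : ℝ, p = 0.639 ^ m.choose ((m - 3) / 2) * c := ⟨_, rfl⟩
  have hp0 : 0 < p := by rw [hp]; positivity
  refine ⟨p / 16 ^ m, by positivity, max X₀ (max X₂ 1), fun X hXX => ?_⟩
  have a1 : X₀ ≤ X := le_trans (le_max_left _ _) hXX
  have a2 : X₂ ≤ X := le_trans (le_trans (le_max_left _ _) (le_max_right _ _)) hXX
  have a3 : 1 ≤ X := le_trans (le_trans (le_max_right _ _) (le_max_right _ _)) hXX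
  obtain ⟨A, hA, hAc⟩ := card_all X a3
  -- all tuples
  have hsub : {a : Fin m → 𝓞 K | ∀ i, a i ≠ 0 ∧ Algebra.norm ℤ (a i) ≤ X} ⊆
      ((Fintype.piFinset fun _ : Fin m => A.image j : Finset (Fin m → 𝓞 K)) :
        Set (Fin m → 𝓞 K)) := by
    intro a ha
    rw [Finset.mem_coe, Fintype.mem_piFinset]
    intro i
    rw [mem_image]
    refine ⟨j.symm (a i), hA _ ?_, j.apply_symm_apply _⟩
    rw [← hj, j.apply_symm_apply]
    exact (ha i).2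
  have hfin : {a : Fin m → 𝓞 K | ∀ i, a i ≠ 0 ∧ Algebra.norm ℤ (a i) ≤ X}.Finite :=
    (Finset.finite_toSet _).subset hsub
  have h1 : ({a : Fin m → 𝓞 K | ∀ i, a i ≠ 0 ∧ Algebra.norm ℤ (a i) ≤ X}.ncard : ℝ) ≤
      (16 * X) ^ m := by
    have h2 := Set.ncard_le_ncard hsub (Finset.finite_toSet _)
    rw [Set.ncard_coe_finset, Fintype.card_piFinset, prod_const, card_univ, Fintype.card_fin] at h2
    have h3 : (((A.image j).card ^ m : ℕ) : ℝ) ≤ (16 * X) ^ m := by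
      push_cast
      refine pow_le_pow_left₀ (Nat.cast_nonneg _) (le_trans ?_ hAc) _
      exact_mod_cast card_image_le
    exact le_trans (by exact_mod_cast h2) h3
  have h4 : ({a : Fin m → 𝓞 K | (∀ i, Cls (a i) ∧ Algebra.norm ℤ (a i) ≤ X) ∧ AdmA a ∧
        TrivSel a}.ncard : ℝ) ≤
      ({a : Fin m → 𝓞 K | (∀ i, a i ≠ 0 ∧ Algebra.norm ℤ (a i) ≤ X) ∧ BB a}.ncard : ℝ) := by
    have h5 : {a : Fin m → 𝓞 K | (∀ i, Cls (a i) ∧ Algebra.norm ℤ (a i) ≤ X) ∧ AdmA a ∧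
        TrivSel a} ⊆
        {a : Fin m → 𝓞 K | (∀ i, a i ≠ 0 ∧ Algebra.norm ℤ (a i) ≤ X) ∧ BB a} := by
      rintro a ⟨g1, g2, g3⟩
      exact ⟨fun i => ⟨(g1 i).1.2.1.ne_zero, (g1 i).2⟩, hthird a (fun i => (g1 i).1) g2 g3⟩
    exact_mod_cast Set.ncard_le_ncard h5 (hfin.subset fun a ha => ha.1)
  have h6 := hX2 X a2
  rw [hadm X] at h6
  have h7 := hlow X a1
  have h8 : p * (X : ℝ) ^ m ≤ 0.639 ^ m.choose ((m - 3) / 2) *
      (((TT m X).filter (CondT (RA m))).card : ℝ) := by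
    rw [hp, mul_assoc]
    exact mul_le_mul_of_nonneg_left h7 (by positivity)
  calc p / 16 ^ m * ({a : Fin m → 𝓞 K | ∀ i, a i ≠ 0 ∧ Algebra.norm ℤ (a i) ≤ X}.ncard : ℝ) ≤
      p / 16 ^ m * (16 * X) ^ m := mul_le_mul_of_nonneg_left h1 (by positivity)
    _ = p * (X : ℝ) ^ m := by
      rw [mul_pow]
      field_simp
    _ ≤ _ := h8.trans (h6.trans h4)

end Pool.Agent.H451.JB
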